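import Pool.Agent.Q31.SN.Dl

set_option autoImplicit false

/-! The argument by continuous variation. -/

open Complex Filter Topology Set MeasureTheory

namespace Pool.Agent.Q31.SN

/-- the path from `2` to `2 + it` and then to `1/2 + it`, parametrised by `[0,2]` -/
noncomputable def pth (t x : ℝ) : ℂ :=
  if x ≤ 1 then 2 + ((t * x : ℝ) : ℂ) * I else ((2 - 3 / 2 * (x - 1) : ℝ) : ℂ) + t * I

/-- `θ` is the argument of `ζ(1/2+it)` obtained by continuous variation along the path from `2`,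
where the argument is `0` -/
def IsArg (t θ : ℝ) : Prop := ∃ a : ℝ → ℝ, ContinuousOn a (Icc 0 2) ∧ a 0 = 0 ∧ a 2 = θ ∧
  ∀ x ∈ Icc (0 : ℝ) 2, riemannZeta (pth t x) = ‖riemannZeta (pth t x)‖ * Complex.exp (a x * I)

lemma pth_cont (t : ℝ) : Continuous (pth t) := by
  unfold pth
  refine Continuous.if_le (by fun_prop) (by fun_prop) continuous_id continuous_const fun x hx => ?_
  have hx1 : x = 1 := hx
  rw [hx1]
  push_cast
  ring

lemma pth_Om {t x : ℝ} (ht : 0 < t) (hx : 0 < x) (hx2 : x < 2) : pth t x ∈ Om := by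
  unfold pth
  split_ifs with h
  · constructor
    · simp; norm_num
    · simp; positivity
  · push Not at h
    constructor
    · simp; linarith
    · simpa using ht

lemma pth_re {t x : ℝ} (hx2 : x ≤ 2) : 1 / 2 ≤ (pth t x).re := by
  unfold pth
  split_ifs with h
  · simp; norm_num
  · simp; linarith

lemma pth_zero (t : ℝ) : pth t 0 = 2 := by
  unfold pth; simp

lemma pth_two (t : ℝ) : pth t 2 = 1 / 2 + t * I := by
  unfold pth
  rw [if_neg (by norm_num)]
  push_cast
  ring

lemma pth_ne_one {t x : ℝ} (ht : 0 < t) (hx : 0 ≤ x) (_hx2 : x ≤ 2) : pth t x ≠ 1 := by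
  rcases hx.eq_or_lt with h | h
  · rw [← h, pth_zero]; norm_num
  · intro h1
    have h2 := congrArg Complex.im h1
    unfold pth at h2
    split_ifs at h2 with h3
    · simp at h2
      rcases h2 with h2 | h2
      · linarith
      · linarith
    · simp at h2
      linarith

lemma pth_ne (RH : RiemannHypothesis) {t : ℝ} (ht : 0 < t) (hz : riemannZeta (1 / 2 + t * I) ≠ 0) {x : ℝ}
    (hx : x ∈ Icc (0 : ℝ) 2) : riemannZeta (pth t x) ≠ 0 := by
  rcases hx.1.eq_or_lt with h | h
  · rw [← h, pth_zero]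
    exact riemannZeta_ne_zero_of_one_le_re (by norm_num)
  · rcases hx.2.eq_or_lt with h2 | h2
    · rw [h2, pth_two]; exact hz
    · exact zeta_ne RH (pth_Om ht h h2).1

/-- continuity of `V₀` along the path -/
lemma V0_path (RH : RiemannHypothesis) {t : ℝ} (ht : 0 < t) (hz : riemannZeta (1 / 2 + t * I) ≠ 0) :
    ContinuousOn (fun x : ℝ => Wk gz 1 (pth t x)) (Icc 0 2) := by
  intro x hx
  rcases hx.1.eq_or_lt with h | h
  · -- at `0`
    rw [← h]
    have h1 := V0_real_lim (le_refl (2 : ℝ))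
    have h2 : Tendsto (fun x : ℝ => t * x) (𝓝 0) (𝓝 0) := by
      have := (tendsto_id (α := ℝ) (x := 𝓝 0)).const_mul t
      simpa using this
    have h3 := h1.comp h2
    have h4 : ContinuousAt (fun x : ℝ => Wk gz 1 (pth t x)) 0 := by
      show Tendsto (fun x : ℝ => Wk gz 1 (pth t x)) (𝓝 0) (𝓝 (Wk gz 1 (pth t 0)))
      rw [pth_zero]
      have e : (((2 : ℝ) : ℝ) : ℂ) = 2 := by norm_num
      rw [e] at h3
      refine h3.congr' ?_
      filter_upwards [gt_mem_nhds (zero_lt_one (α := ℝ))] with y hy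
      simp only [Function.comp]
      unfold pth
      rw [if_pos (le_of_lt hy)]
    exact h4.continuousWithinAt
  · rcases hx.2.eq_or_lt with h2 | h2
    · -- at `2`
      rw [h2, ← continuousWithinAt_sdiff_self]
      have h3 := R_lim (φ := gz) (gz_ray_int (crit_ray RH ht hz))
      have h4 : Tendsto (fun x : ℝ => 3 / 2 * (2 - x)) (𝓝[Icc 0 2 \ {2}] 2) (𝓝[>] 0) := by
        refine tendsto_nhdsWithin_iff.2 ⟨?_, ?_⟩
        · have : ContinuousAt (fun x : ℝ => 3 / 2 * (2 - x)) 2 := by fun_prop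
          have h5 := this.tendsto
          norm_num at h5
          exact h5.mono_left nhdsWithin_le_nhds
        · filter_upwards [self_mem_nhdsWithin] with y hy
          have h6 : y < 2 := lt_of_le_of_ne hy.1.2 hy.2
          show 0 < 3 / 2 * (2 - y)
          linarith
      have h5 := h3.comp h4
      show Tendsto (fun x : ℝ => Wk gz 1 (pth t x)) (𝓝[Icc 0 2 \ {2}] 2) (𝓝 (Wk gz 1 (pth t 2)))
      rw [pth_two]
      refine h5.congr' ?_
      filter_upwards [mem_nhdsWithin_of_mem_nhds (lt_mem_nhds (show (1 : ℝ) < 2 by norm_num))] with y hy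
      simp only [Function.comp]
      show R gz _ = R gz _
      congr 1
      unfold pth
      rw [if_neg (not_le.2 hy)]
      push_cast
      ring
    · -- inside
      have h3 := pth_Om ht h h2
      have h4 : ContinuousAt (Wk gz 1) (pth t x) :=
        ((Dk_Wk (Dk_gz RH) 1).1.differentiableAt (Om_open.mem_nhds h3)).continuousAt
      exact (ContinuousAt.comp (f := pth t) (x := x) h4 (pth_cont t).continuousAt).continuousWithinAt

lemma exp_V0_path (RH : RiemannHypothesis) {t : ℝ} (ht : 0 < t) (hz : riemannZeta (1 / 2 + t * I) ≠ 0) {x : ℝ}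
    (hx : x ∈ Icc (0 : ℝ) 2) : Complex.exp (-Wk gz 1 (pth t x)) = riemannZeta (pth t x) := by
  have h1 : EqOn (fun x : ℝ => Complex.exp (-Wk gz 1 (pth t x))) (fun x : ℝ => riemannZeta (pth t x)) (Ioo 0 2) :=
    fun y hy => exp_V0 RH (pth_Om ht hy.1 hy.2)
  have h2 : ContinuousOn (fun x : ℝ => Complex.exp (-Wk gz 1 (pth t x))) (Icc 0 2) := (V0_path RH ht hz).neg.cexp
  have h3 : ContinuousOn (fun x : ℝ => riemannZeta (pth t x)) (Icc 0 2) := by
    intro y hy
    have h4 : ContinuousAt riemannZeta (pth t y) :=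
      (differentiableAt_riemannZeta (pth_ne_one ht hy.1 hy.2)).continuousAt
    exact (ContinuousAt.comp (f := pth t) (x := y) h4 (pth_cont t).continuousAt).continuousWithinAt
  exact h1.of_subset_closure h2 h3 Ioo_subset_Icc_self (by rw [closure_Ioo (by norm_num : (0 : ℝ) ≠ 2)]) hx

/-- existence of the argument -/
theorem isArg_fk (RH : RiemannHypothesis) {t : ℝ} (ht : 0 < t) (hz : riemannZeta (1 / 2 + t * I) ≠ 0) :
    IsArg t (Real.pi * fk 1 0 t) := by
  refine ⟨fun x => -(Wk gz 1 (pth t x)).im, ?_, ?_, ?_, ?_⟩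
  · exact (Complex.continuous_im.comp_continuousOn (V0_path RH ht hz)).neg
  · show -(Wk gz 1 (pth t 0)).im = 0
    rw [pth_zero]
    have := V0_real_im (le_refl (2 : ℝ))
    have e : (((2 : ℝ) : ℝ) : ℂ) = 2 := by norm_num
    rw [e] at this
    rw [this, neg_zero]
  · show -(Wk gz 1 (pth t 2)).im = Real.pi * fk 1 0 t
    rw [pth_two]
    unfold fk
    rw [pt_zero, ← mul_assoc, mul_one_div_cancel Real.pi_pos.ne', one_mul]
    rw [show (1 + 1 : ℕ) = 2 from rfl, I_sq]
    simp
  · intro x hx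
    have h1 := exp_V0_path RH ht hz hx
    rw [← h1, Complex.norm_exp, Complex.ofReal_exp, ← Complex.exp_add]
    congr 1
    apply Complex.ext
    · simp
    · simp

lemma arg_le {a b : ℝ → ℝ} (ha : ContinuousOn a (Icc 0 2)) (hb : ContinuousOn b (Icc 0 2)) (h0 : a 0 = b 0)
    (h : ∀ x ∈ Icc (0 : ℝ) 2, Real.cos (a x - b x) = 1) : a 2 ≤ b 2 := by
  by_contra hcon
  push Not at hcon
  set v := min (a 2 - b 2) Real.pi with hv
  have hpi := Real.pi_pos
  have hv0 : 0 < v := lt_min (by linarith) hpi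
  have hv1 : v ≤ a 2 - b 2 := min_le_left _ _
  have hv2 : v ≤ Real.pi := min_le_right _ _
  have h1 := intermediate_value_Icc (show (0 : ℝ) ≤ 2 by norm_num) (ha.sub hb)
  have h2 : v ∈ Icc (a 0 - b 0) (a 2 - b 2) := ⟨by rw [h0, sub_self]; exact hv0.le, hv1⟩
  obtain ⟨x, hx, hxv⟩ := h1 h2
  have h3 := h x hx
  have hxv' : a x - b x = v := hxv
  rw [hxv'] at h3
  have h4 := (Real.cos_eq_one_iff_of_lt_of_lt (by linarith) (by linarith)).1 h3
  linarith

/-- uniqueness of the argument -/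
theorem isArg_unique {t θ θ' : ℝ} (hne : ∀ x ∈ Icc (0 : ℝ) 2, riemannZeta (pth t x) ≠ 0)
    (h1 : IsArg t θ) (h2 : IsArg t θ') : θ = θ' := by
  obtain ⟨a, ha, ha0, ha2, haz⟩ := h1
  obtain ⟨b, hb, hb0, hb2, hbz⟩ := h2
  have key : ∀ x ∈ Icc (0 : ℝ) 2, Complex.exp ((a x - b x : ℝ) * I) = 1 := by
    intro x hx
    have h3 := haz x hx
    have h4 := hbz x hx
    have h5 : ((‖riemannZeta (pth t x)‖ : ℝ) : ℂ) ≠ 0 := by
      rw [Complex.ofReal_ne_zero]
      exact norm_ne_zero_iff.2 (hne x hx)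
    have h6 : Complex.exp (a x * I) = Complex.exp (b x * I) := mul_left_cancel₀ h5 (h3.symm.trans h4)
    have e : ((a x - b x : ℝ) : ℂ) * I = a x * I - b x * I := by push_cast; ring
    rw [e, Complex.exp_sub, h6, div_self (Complex.exp_ne_zero _)]
  have key2 : ∀ x ∈ Icc (0 : ℝ) 2, Real.cos (a x - b x) = 1 := by
    intro x hx
    have := congrArg Complex.re (key x hx)
    rw [Complex.exp_ofReal_mul_I_re] at this
    simpa using this
  rw [← ha2, ← hb2]
  refine le_antisymm (arg_le ha hb (by rw [ha0, hb0]) key2) (arg_le hb ha (by rw [ha0, hb0]) fun x hx => ?_)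
  rw [← Real.cos_neg, neg_sub]
  exact key2 x hx

/-- `S(t)` at heights that are not ordinates of zeros -/
noncomputable def S0 (t : ℝ) : ℝ := Classical.epsilon (IsArg t) / Real.pi

/-- `S(t)`; at ordinates of zeros it is the average of the one-sided limits -/
noncomputable def SS (t : ℝ) : ℝ :=
  open Classical in
  if riemannZeta (1 / 2 + t * I) = 0 then (limUnder (𝓝[<] t) S0 + limUnder (𝓝[>] t) S0) / 2 else S0 t

theorem SS_eq (RH : RiemannHypothesis) {t : ℝ} (ht : 0 < t) (hz : riemannZeta (1 / 2 + t * I) ≠ 0) :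
    SS t = fk 1 0 t := by
  unfold SS
  rw [if_neg hz]
  unfold S0
  have h1 := isArg_fk RH ht hz
  have h2 : IsArg t (Classical.epsilon (IsArg t)) := Classical.epsilon_spec ⟨_, h1⟩
  have h3 := isArg_unique (fun x hx => pth_ne RH ht hz hx) h2 h1
  rw [h3]
  have := Real.pi_ne_zero
  field_simp

/-- the antiderivatives -/
noncomputable def Sn : ℕ → ℝ → ℝ
  | 0, t => SS t
  | n + 1, t => (∫ τ : ℝ in (0 : ℝ)..t, Sn n τ) + dl (n + 1)

lemma Sn_ae (RH : RiemannHypothesis) (n : ℕ) : ∀ᵐ t : ℝ, 0 < t → Sn n t = fk (n + 1) 0 t := by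
  induction n with
  | zero =>
    filter_upwards [ord_ae] with t ht ht0
    exact SS_eq RH ht0 ht
  | succ n ih =>
    refine Eventually.of_forall fun t ht => ?_
    show (∫ τ : ℝ in (0 : ℝ)..t, Sn n τ) + dl (n + 1) = fk (n + 1 + 1) 0 t
    rw [fk0_zero RH n (fk0_lim RH n) ht]
    congr 1
    refine intervalIntegral.integral_congr_ae ?_
    filter_upwards [ih] with τ hτ hτ2
    rw [uIoc_of_le ht.le] at hτ2
    exact hτ hτ2.1

theorem Sn_eq (RH : RiemannHypothesis) (n : ℕ) {t : ℝ} (ht : 0 < t) : Sn (n + 1) t = fk (n + 2) 0 t := by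
  show (∫ τ : ℝ in (0 : ℝ)..t, Sn n τ) + dl (n + 1) = fk (n + 2) 0 t
  rw [fk0_zero RH n (fk0_lim RH n) ht]
  congr 1
  refine intervalIntegral.integral_congr_ae ?_
  filter_upwards [Sn_ae RH n] with τ hτ hτ2
  rw [uIoc_of_le ht.le] at hτ2
  exact hτ hτ2.1

end Pool.Agent.Q31.SN
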