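import Pool.Agent.Q31.SN.Int

set_option autoImplicit false

/-! Iterated primitives along horizontal rays. -/

open Complex Filter Topology Set MeasureTheory

namespace Pool.Agent.Q31.SN

/-- the quarter plane -/
def Om : Set ℂ := {s | 1 / 2 < s.re ∧ 0 < s.im}

lemma Om_open : IsOpen Om :=
  (isOpen_lt continuous_const continuous_re).inter (isOpen_lt continuous_const continuous_im)

lemma Om_add {s : ℂ} (hs : s ∈ Om) {u : ℝ} (hu : 0 ≤ u) : s + u ∈ Om := by
  refine ⟨?_, ?_⟩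
  · have := hs.1; simp; linarith
  · have := hs.2; simpa using this

/-- holomorphic and exponentially decaying, locally uniformly in the height -/
def Dk (φ : ℂ → ℂ) : Prop := DifferentiableOn ℂ φ Om ∧ ∀ σ0 t0 t1 : ℝ, 1 / 2 < σ0 → 0 < t0 →
  ∃ C : ℝ, 0 ≤ C ∧ ∀ s : ℂ, σ0 ≤ s.re → t0 ≤ s.im → s.im ≤ t1 → ‖φ s‖ ≤ C * Real.exp (-(s.re / 2))

/-- the integral along the ray to the right -/
noncomputable def R (φ : ℂ → ℂ) (s : ℂ) : ℂ := ∫ u : ℝ in Ioi 0, φ (s + u)

lemma exp_half_int : IntegrableOn (fun u : ℝ => Real.exp (-(u / 2))) (Ioi 0) ∧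
    ∫ u : ℝ in Ioi 0, Real.exp (-(u / 2)) = 2 := by
  obtain ⟨h1, h2⟩ := base_int 0 (c := 1 / 2) (by norm_num)
  have e : (fun u : ℝ => u ^ 0 / ((0 : ℕ).factorial : ℝ) * Real.exp (-(1 / 2 * u))) =
      fun u : ℝ => Real.exp (-(u / 2)) := by
    funext u
    simp only [pow_zero, Nat.factorial_zero, Nat.cast_one, div_one, one_mul]
    congr 1; ring
  rw [e] at h1
  simp_rw [e] at h2
  refine ⟨h1, h2.trans (by norm_num)⟩

lemma Dk.bound_ray {φ : ℂ → ℂ} (h : Dk φ) {s : ℂ} (hs : s ∈ Om) :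
    ∃ C : ℝ, 0 ≤ C ∧ ∀ u : ℝ, 0 ≤ u → ‖φ (s + u)‖ ≤ C * Real.exp (-(u / 2)) := by
  obtain ⟨C, hC, h1⟩ := h.2 s.re s.im s.im hs.1 hs.2
  refine ⟨C, hC, fun u hu => ?_⟩
  have h2 := h1 (s + u) (by simp; linarith) (by simp) (by simp)
  refine h2.trans (mul_le_mul_of_nonneg_left ?_ hC)
  refine Real.exp_le_exp.2 ?_
  have := hs.1
  simp
  linarith

lemma Dk.cont {φ : ℂ → ℂ} (h : Dk φ) {s : ℂ} (hs : s ∈ Om) :
    ContinuousOn (fun u : ℝ => φ (s + u)) (Ici 0) := by
  refine h.1.continuousOn.comp (by fun_prop) fun u hu => Om_add hs hu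

lemma Dk.int_pow {φ : ℂ → ℂ} (h : Dk φ) {s : ℂ} (hs : s ∈ Om) (m : ℕ) :
    IntegrableOn (fun u : ℝ => ((u ^ m / (m.factorial : ℝ) : ℝ) : ℂ) * φ (s + u)) (Ioi 0) := by
  obtain ⟨C, hC, h1⟩ := h.bound_ray hs
  have h2 := (base_int m (c := 1 / 2) (by norm_num)).1.const_mul C
  refine h2.mono' ?_ ?_
  · refine ContinuousOn.aestronglyMeasurable ?_ measurableSet_Ioi
    exact ContinuousOn.mul (by fun_prop) ((h.cont hs).mono Ioi_subset_Ici_self)
  · filter_upwards [ae_restrict_mem measurableSet_Ioi] with u hu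
    have hu0 : (0 : ℝ) < u := hu
    rw [norm_mul, Complex.norm_real, Real.norm_of_nonneg (by positivity)]
    have h3 := h1 u hu0.le
    have e : C * (u ^ m / (m.factorial : ℝ) * Real.exp (-(1 / 2 * u))) =
        u ^ m / (m.factorial : ℝ) * (C * Real.exp (-(u / 2))) := by
      have : (1 / 2 * u) = u / 2 := by ring
      rw [this]; ring
    rw [e]
    exact mul_le_mul_of_nonneg_left h3 (by positivity)

lemma Dk.int {φ : ℂ → ℂ} (h : Dk φ) {s : ℂ} (hs : s ∈ Om) :
    IntegrableOn (fun u : ℝ => φ (s + u)) (Ioi 0) := by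
  have := h.int_pow hs 0
  simpa using this

lemma tendsto_exp_half : Tendsto (fun u : ℝ => Real.exp (-(u / 2))) atTop (𝓝 0) := by
  have h1 : Tendsto (fun u : ℝ => u / 2) atTop atTop := tendsto_id.atTop_div_const (by norm_num)
  exact Real.tendsto_exp_neg_atTop_nhds_zero.comp h1

lemma Dk.tendsto {φ : ℂ → ℂ} (h : Dk φ) {s : ℂ} (hs : s ∈ Om) :
    Tendsto (fun u : ℝ => φ (s + u)) atTop (𝓝 0) := by
  obtain ⟨C, hC, h1⟩ := h.bound_ray hs
  rw [tendsto_zero_iff_norm_tendsto_zero]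
  have h2 := tendsto_exp_half.const_mul C
  rw [mul_zero] at h2
  refine squeeze_zero' (Eventually.of_forall fun u => norm_nonneg _) ?_ h2
  filter_upwards [eventually_ge_atTop 0] with u hu using h1 u hu

lemma R_bound {φ : ℂ → ℂ} (h : Dk φ) {σ0 t0 t1 : ℝ} (hσ : 1 / 2 < σ0) (ht : 0 < t0) :
    ∃ C : ℝ, 0 ≤ C ∧ ∀ s : ℂ, σ0 ≤ s.re → t0 ≤ s.im → s.im ≤ t1 → ‖R φ s‖ ≤ C * Real.exp (-(s.re / 2)) := by
  obtain ⟨C, hC, h1⟩ := h.2 σ0 t0 t1 hσ ht
  refine ⟨C * 2, by positivity, fun s h2 h3 h4 => ?_⟩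
  have h5 : ∀ u : ℝ, 0 < u → ‖φ (s + u)‖ ≤ C * Real.exp (-(s.re / 2)) * Real.exp (-(u / 2)) := by
    intro u hu
    have h6 := h1 (s + u) (by simp; linarith) (by simpa using h3) (by simpa using h4)
    refine h6.trans (le_of_eq ?_)
    rw [mul_assoc, ← Real.exp_add]
    congr 2
    simp; ring
  unfold R
  refine (norm_integral_le_of_norm_le (exp_half_int.1.const_mul (C * Real.exp (-(s.re / 2)))) ?_).trans ?_
  · filter_upwards [ae_restrict_mem measurableSet_Ioi] with u hu using h5 u hu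
  · rw [integral_const_mul, exp_half_int.2]
    exact le_of_eq (by ring)

lemma R_deriv {φ : ℂ → ℂ} (h : Dk φ) {s : ℂ} (hs : s ∈ Om) : HasDerivAt (R φ) (-φ s) s := by
  have hs1 := hs.1
  have hs2 := hs.2
  set ε := min ((s.re - 1 / 2) / 4) (s.im / 4) with hε
  have hε0 : 0 < ε := lt_min (by linarith) (by linarith)
  have hε1 : ε ≤ (s.re - 1 / 2) / 4 := min_le_left _ _
  have hε2 : ε ≤ s.im / 4 := min_le_right _ _
  obtain ⟨C, hC, hφ⟩ := h.2 ((s.re + 1 / 2) / 2) (s.im / 2) (2 * s.im) (by linarith) (by linarith)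
  -- points near the ray
  have hnear : ∀ w : ℂ, ∀ u : ℝ, 0 ≤ u → ‖w - u - s‖ ≤ 2 * ε →
      w ∈ Om ∧ ‖φ w‖ ≤ C * Real.exp (-((s.re - 2 * ε + u) / 2)) := by
    intro w u hu hw
    have h1 := (Complex.abs_re_le_norm _).trans hw
    have h2 := (Complex.abs_im_le_norm _).trans hw
    simp only [Complex.sub_re, Complex.sub_im, Complex.ofReal_re, Complex.ofReal_im] at h1 h2
    rw [abs_le] at h1 h2
    refine ⟨⟨by linarith, by linarith⟩, ?_⟩
    refine (hφ w (by linarith) (by linarith) (by linarith)).trans ?_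
    refine mul_le_mul_of_nonneg_left (Real.exp_le_exp.2 ?_) hC
    linarith
  have hder : ∀ z ∈ Metric.ball s ε, ∀ u : ℝ, 0 ≤ u →
      ‖deriv φ (z + u)‖ ≤ C * Real.exp (-((s.re - 2 * ε + u) / 2)) / ε := by
    intro z hz u hu
    rw [mem_ball_iff_norm] at hz
    have hcl : ∀ w : ℂ, ‖w - (z + u)‖ ≤ ε → ‖w - u - s‖ ≤ 2 * ε := by
      intro w hw
      have e : w - u - s = (w - (z + u)) + (z - s) := by ring
      rw [e]
      refine (norm_add_le _ _).trans ?_
      linarith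
    refine norm_deriv_le_of_forall_mem_sphere_norm_le hε0 ?_ fun w hw => ?_
    · refine DifferentiableOn.diffContOnCl (h.1.mono ?_)
      rw [closure_ball _ hε0.ne']
      intro w hw
      rw [mem_closedBall_iff_norm] at hw
      exact (hnear w u hu (hcl w hw)).1
    · rw [mem_sphere_iff_norm] at hw
      exact (hnear w u hu (hcl w hw.le)).2
  have hOmz : ∀ z ∈ Metric.ball s ε, ∀ u : ℝ, 0 ≤ u → z + u ∈ Om := by
    intro z hz u hu
    rw [mem_ball_iff_norm] at hz
    refine (hnear (z + u) u hu ?_).1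
    rw [show z + u - u - s = z - s by ring]
    linarith
  have hderc : ContinuousOn (fun u : ℝ => deriv φ (s + u)) (Ici 0) := by
    have h1 : ContinuousOn (deriv φ) Om := (h.1.deriv Om_open).continuousOn
    exact h1.comp (by fun_prop) fun u hu => Om_add hs hu
  have bint : IntegrableOn (fun u : ℝ => C * Real.exp (-((s.re - 2 * ε + u) / 2)) / ε) (Ioi 0) := by
    have e : (fun u : ℝ => C * Real.exp (-((s.re - 2 * ε + u) / 2)) / ε) =
        fun u : ℝ => C * Real.exp (-((s.re - 2 * ε) / 2)) / ε * Real.exp (-(u / 2)) := by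
      funext u
      have : Real.exp (-((s.re - 2 * ε + u) / 2)) = Real.exp (-((s.re - 2 * ε) / 2)) * Real.exp (-(u / 2)) := by
        rw [← Real.exp_add]; congr 1; ring
      rw [this]; ring
    rw [e]
    exact exp_half_int.1.const_mul _
  obtain ⟨hint, hmain⟩ := hasDerivAt_integral_of_dominated_loc_of_deriv_le (𝕜 := ℂ)
    (μ := volume.restrict (Ioi (0 : ℝ))) (F := fun z (u : ℝ) => φ (z + u)) (F' := fun z (u : ℝ) => deriv φ (z + u))
    (x₀ := s) (s := Metric.ball s ε) (bound := fun u : ℝ => C * Real.exp (-((s.re - 2 * ε + u) / 2)) / ε)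
    (Metric.ball_mem_nhds s hε0)
    (by
      filter_upwards [Om_open.mem_nhds hs] with z hz
      exact ((h.cont hz).mono Ioi_subset_Ici_self).aestronglyMeasurable measurableSet_Ioi)
    (h.int hs)
    ((hderc.mono Ioi_subset_Ici_self).aestronglyMeasurable measurableSet_Ioi)
    (by
      filter_upwards [ae_restrict_mem measurableSet_Ioi] with u hu z hz
      exact hder z hz u (le_of_lt hu))
    bint
    (by
      filter_upwards [ae_restrict_mem measurableSet_Ioi] with u hu z hz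
      have h1 : z + u ∈ Om := hOmz z hz u (le_of_lt hu)
      have h2 : HasDerivAt φ (deriv φ (z + u)) (z + u) := (h.1.differentiableAt (Om_open.mem_nhds h1)).hasDerivAt
      exact h2.comp_add_const z (u : ℂ))
  have hval : ∫ u : ℝ in Ioi 0, deriv φ (s + u) = 0 - φ (s + (0 : ℝ)) := by
    refine integral_Ioi_of_hasDerivAt_of_tendsto' (f := fun u : ℝ => φ (s + u)) (fun u hu => ?_) hint (h.tendsto hs)
    have h1 : s + u ∈ Om := Om_add hs hu
    have h2 : HasDerivAt φ (deriv φ (s + u)) (s + u) := (h.1.differentiableAt (Om_open.mem_nhds h1)).hasDerivAt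
    have h3 : HasDerivAt (fun u : ℝ => s + (u : ℂ)) 1 u := by
      have := (Complex.ofRealCLM.hasDerivAt (x := u)).const_add s
      simpa using this
    have h4 := HasDerivAt.comp (𝕜' := ℂ) u h2 h3
    rw [mul_one] at h4
    exact h4
  rw [hval] at hmain
  have e : (0 : ℂ) - φ (s + (0 : ℝ)) = -φ s := by simp
  rw [e] at hmain
  exact hmain

lemma Dk_R {φ : ℂ → ℂ} (h : Dk φ) : Dk (R φ) :=
  ⟨fun s hs => (R_deriv h hs).differentiableAt.differentiableWithinAt, fun _ _ _ h1 h2 => R_bound h h1 h2⟩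

/-- the iterates -/
noncomputable def Wk (φ : ℂ → ℂ) : ℕ → ℂ → ℂ
  | 0 => φ
  | k + 1 => R (Wk φ k)

lemma Dk_Wk {φ : ℂ → ℂ} (h : Dk φ) (k : ℕ) : Dk (Wk φ k) := by
  induction k with
  | zero => exact h
  | succ k ih => exact Dk_R ih

lemma Wk_shift (φ : ℂ → ℂ) (k : ℕ) : Wk φ (k + 1) = Wk (R φ) k := by
  induction k with
  | zero => rfl
  | succ k ih =>
    show R (Wk φ (k + 1)) = R (Wk (R φ) k)
    rw [ih]

lemma ray_deriv {φ : ℂ → ℂ} (h : Dk φ) {s : ℂ} (hs : s ∈ Om) {u : ℝ} (hu : 0 ≤ u) :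
    HasDerivAt (fun u : ℝ => R φ (s + u)) (-φ (s + u)) u := by
  have h2 := R_deriv h (Om_add hs hu)
  have h3 : HasDerivAt (fun u : ℝ => s + (u : ℂ)) 1 u := by
    have := (Complex.ofRealCLM.hasDerivAt (x := u)).const_add s
    simpa using this
  have h4 := HasDerivAt.comp (𝕜' := ℂ) u h2 h3
  rw [mul_one] at h4
  exact h4

/-- the kernel form -/
theorem kernel (m : ℕ) : ∀ {φ : ℂ → ℂ}, Dk φ → ∀ {s : ℂ}, s ∈ Om →
    Wk φ (m + 1) s = ∫ u : ℝ in Ioi 0, ((u ^ m / (m.factorial : ℝ) : ℝ) : ℂ) * φ (s + u) := by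
  induction m with
  | zero =>
    intro φ h s hs
    show R φ s = _
    unfold R
    simp
  | succ m ih =>
    intro φ h s hs
    rw [Wk_shift, ih (Dk_R h) hs]
    have hf : ((m.factorial : ℕ) : ℝ) ≠ 0 := by exact_mod_cast m.factorial_ne_zero
    have hu : ∀ x ∈ Ioi (0 : ℝ), HasDerivAt (fun u : ℝ => ((u ^ (m + 1) / ((m + 1).factorial : ℝ) : ℝ) : ℂ))
        ((x ^ m / (m.factorial : ℝ) : ℝ) : ℂ) x := by
      intro x _
      have h1 : HasDerivAt (fun u : ℝ => u ^ (m + 1) / ((m + 1).factorial : ℝ)) (x ^ m / (m.factorial : ℝ)) x := by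
        have h2 := (hasDerivAt_pow (m + 1) x).div_const ((m + 1).factorial : ℝ)
        have e : x ^ m / (m.factorial : ℝ) = ((m + 1 : ℕ) : ℝ) * x ^ (m + 1 - 1) / ((m + 1).factorial : ℝ) := by
          rw [Nat.factorial_succ, Nat.add_sub_cancel]
          push_cast
          have : ((m : ℝ) + 1) ≠ 0 := by positivity
          rw [mul_div_mul_left _ _ this]
        rw [e]; exact h2
      exact h1.ofReal_comp
    have hv : ∀ x ∈ Ioi (0 : ℝ), HasDerivAt (fun u : ℝ => R φ (s + u)) (-φ (s + x)) x := fun x hx =>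
      ray_deriv h hs (le_of_lt hx)
    have i1 : IntegrableOn ((fun u : ℝ => ((u ^ (m + 1) / ((m + 1).factorial : ℝ) : ℝ) : ℂ)) * fun u : ℝ => -φ (s + u)) (Ioi 0) := by
      have := (h.int_pow hs (m + 1)).neg
      refine this.congr_fun (fun u _ => ?_) measurableSet_Ioi
      simp only [Pi.mul_apply, Pi.neg_apply]
      ring
    have i2 : IntegrableOn ((fun u : ℝ => ((u ^ m / (m.factorial : ℝ) : ℝ) : ℂ)) * fun u : ℝ => R φ (s + u)) (Ioi 0) :=
      (Dk_R h).int_pow hs m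
    -- limits
    obtain ⟨C, hC, hb⟩ := (Dk_R h).bound_ray hs
    have l1 : Tendsto ((fun u : ℝ => ((u ^ (m + 1) / ((m + 1).factorial : ℝ) : ℝ) : ℂ)) * fun u : ℝ => R φ (s + u))
        (𝓝[>] 0) (𝓝 0) := by
      have c1 : ContinuousOn ((fun u : ℝ => ((u ^ (m + 1) / ((m + 1).factorial : ℝ) : ℝ) : ℂ)) * fun u : ℝ => R φ (s + u)) (Ici 0) := by
        refine ContinuousOn.mul (by fun_prop) ((Dk_R h).cont hs)
      have c2 := (c1 0 self_mem_Ici).mono Ioi_subset_Ici_self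
      have e : ((fun u : ℝ => ((u ^ (m + 1) / ((m + 1).factorial : ℝ) : ℝ) : ℂ)) * fun u : ℝ => R φ (s + u)) 0 = 0 := by
        simp
      have c3 : Tendsto ((fun u : ℝ => ((u ^ (m + 1) / ((m + 1).factorial : ℝ) : ℝ) : ℂ)) * fun u : ℝ => R φ (s + u))
        (𝓝[>] 0) (𝓝 (((fun u : ℝ => ((u ^ (m + 1) / ((m + 1).factorial : ℝ) : ℝ) : ℂ)) * fun u : ℝ => R φ (s + u)) 0)) := c2
      rwa [e] at c3
    have l2 : Tendsto ((fun u : ℝ => ((u ^ (m + 1) / ((m + 1).factorial : ℝ) : ℝ) : ℂ)) * fun u : ℝ => R φ (s + u))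
        atTop (𝓝 0) := by
      rw [tendsto_zero_iff_norm_tendsto_zero]
      have h5 : Tendsto (fun u : ℝ => C / ((m + 1).factorial : ℝ) * (2 ^ (m + 1) * ((u / 2) ^ (m + 1) * Real.exp (-(u / 2))))) atTop (𝓝 0) := by
        have h6 : Tendsto (fun u : ℝ => u / 2) atTop atTop := tendsto_id.atTop_div_const (by norm_num)
        have h7 := ((Real.tendsto_pow_mul_exp_neg_atTop_nhds_zero (m + 1)).comp h6).const_mul (2 ^ (m + 1))
        have h8 := h7.const_mul (C / ((m + 1).factorial : ℝ))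
        simpa using h8
      refine squeeze_zero' (Eventually.of_forall fun u => norm_nonneg _) ?_ h5
      filter_upwards [eventually_ge_atTop 0] with u hu
      simp only [Pi.mul_apply]
      rw [norm_mul, Complex.norm_real, Real.norm_of_nonneg (by positivity)]
      have h6 := mul_le_mul_of_nonneg_left (hb u hu) (show 0 ≤ u ^ (m + 1) / ((m + 1).factorial : ℝ) by positivity)
      refine h6.trans (le_of_eq ?_)
      rw [div_pow]
      field_simp
    have key := integral_Ioi_mul_deriv_eq_deriv_mul hu hv i1 i2 l1 l2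
    rw [sub_zero, zero_sub] at key
    have e1 : ∫ u : ℝ in Ioi 0, ((u ^ (m + 1) / ((m + 1).factorial : ℝ) : ℝ) : ℂ) * -φ (s + u) =
        -∫ u : ℝ in Ioi 0, ((u ^ (m + 1) / ((m + 1).factorial : ℝ) : ℝ) : ℂ) * φ (s + u) := by
      rw [← integral_neg]
      congr 1
      funext u
      ring
    rw [e1, neg_inj] at key
    exact key.symm

end Pool.Agent.Q31.SN
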