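import Pool.Agent.Q31.SN.GBd
import Pool.Agent.Q31.SN.Ray

set_option autoImplicit false

/-! The functions `f_k` and the bounds for the even derivatives. -/

open Complex Filter Topology Set MeasureTheory
open scoped ComplexConjugate

namespace Pool.Agent.Q31.SN

lemma gz_decay : ∃ C : ℝ, 0 < C ∧ ∀ s : ℂ, 2 ≤ s.re → ‖gz s‖ ≤ C * Real.exp (-(s.re / 2)) := by
  have hsum : Summable (fun n : ℕ => ‖LSeries.term (fun n => (ArithmeticFunction.vonMangoldt n : ℂ)) 2 n‖) :=
    (ArithmeticFunction.LSeriesSummable_vonMangoldt (s := 2) (by norm_num)).norm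
  set A := ∑' n : ℕ, ‖LSeries.term (fun n => (ArithmeticFunction.vonMangoldt n : ℂ)) 2 n‖ with hA
  have hA0 : 0 ≤ A := tsum_nonneg fun n => norm_nonneg _
  refine ⟨(A + 1) * Real.exp 1, by positivity, fun s hs => ?_⟩
  have h1 := ArithmeticFunction.LSeries_vonMangoldt_eq_deriv_riemannZeta_div (s := s) (by linarith)
  have h2 : gz s = -LSeries (fun n => (ArithmeticFunction.vonMangoldt n : ℂ)) s := by
    rw [h1]; unfold gz; ring
  rw [h2, norm_neg]
  have hterm : ∀ n : ℕ, ‖LSeries.term (fun n => (ArithmeticFunction.vonMangoldt n : ℂ)) s n‖ ≤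
      ‖LSeries.term (fun n => (ArithmeticFunction.vonMangoldt n : ℂ)) 2 n‖ * Real.exp (-((s.re - 2) / 2)) := by
    intro n
    rw [LSeries.norm_term_eq, LSeries.norm_term_eq]
    rcases Nat.lt_or_ge n 2 with hn | hn
    · interval_cases n
      · simp
      · simp
    · have hn0 : n ≠ 0 := by omega
      rw [if_neg hn0, if_neg hn0]
      have hnp : (0 : ℝ) < n := by exact_mod_cast (by omega : 0 < n)
      have h2re : (2 : ℂ).re = 2 := by simp
      rw [h2re]
      have h3 : (n : ℝ) ^ (2 : ℝ) * Real.exp ((s.re - 2) / 2) ≤ (n : ℝ) ^ s.re := by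
        have e : (n : ℝ) ^ s.re = (n : ℝ) ^ (2 : ℝ) * (n : ℝ) ^ (s.re - 2) := by
          rw [← Real.rpow_add hnp]; congr 1; ring
        rw [e]
        refine mul_le_mul_of_nonneg_left ?_ (by positivity)
        rw [Real.rpow_def_of_pos hnp]
        refine Real.exp_le_exp.2 ?_
        have h4 : (1 : ℝ) / 2 ≤ Real.log n := by
          have h5 : Real.log 2 ≤ Real.log n := Real.log_le_log (by norm_num) (by exact_mod_cast hn)
          have := Real.log_two_gt_d9
          linarith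
        nlinarith
      have hexp : Real.exp (-((s.re - 2) / 2)) = (Real.exp ((s.re - 2) / 2))⁻¹ := Real.exp_neg _
      rw [hexp, div_mul_eq_mul_div, ← div_eq_mul_inv, div_div]
      refine div_le_div_of_nonneg_left (norm_nonneg _) (by positivity) ?_
      rw [mul_comm]; exact h3
  unfold LSeries
  have hs2 : Summable (fun n : ℕ => ‖LSeries.term (fun n => (ArithmeticFunction.vonMangoldt n : ℂ)) s n‖) :=
    Summable.of_nonneg_of_le (fun n => norm_nonneg _) hterm (hsum.mul_right _)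
  refine (norm_tsum_le_tsum_norm hs2).trans ((hs2.tsum_le_tsum hterm (hsum.mul_right _)).trans ?_)
  rw [tsum_mul_right, ← hA]
  have e : Real.exp (-((s.re - 2) / 2)) = Real.exp 1 * Real.exp (-(s.re / 2)) := by
    rw [← Real.exp_add]; congr 1; ring
  rw [e]
  have := Real.exp_pos 1
  have := Real.exp_pos (-(s.re / 2))
  nlinarith [mul_pos (Real.exp_pos 1) (Real.exp_pos (-(s.re / 2)))]

lemma gz_diff (RH : RiemannHypothesis) : DifferentiableOn ℂ gz Om := by
  have hd : DifferentiableOn ℂ riemannZeta Om := fun s hs =>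
    (differentiableAt_riemannZeta (by rintro rfl; simpa using hs.2)).differentiableWithinAt
  exact (hd.deriv Om_open).div hd fun s hs => zeta_ne RH hs.1

lemma Dk_gz (RH : RiemannHypothesis) : Dk gz := by
  refine ⟨gz_diff RH, fun σ0 t0 t1 hσ ht => ?_⟩
  obtain ⟨C1, hC1, h1⟩ := gz_decay
  have hcomp : IsCompact (Icc σ0 2 ×ℂ Icc t0 t1) := isCompact_Icc.reProdIm isCompact_Icc
  have hsub : Icc σ0 2 ×ℂ Icc t0 t1 ⊆ Om := by
    intro s hs
    rw [Complex.mem_reProdIm] at hs
    exact ⟨by linarith [hs.1.1], by linarith [hs.2.1]⟩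
  obtain ⟨K, hK⟩ := hcomp.exists_bound_of_continuousOn ((gz_diff RH).continuousOn.mono hsub)
  refine ⟨max K 0 * Real.exp 1 + C1, by positivity, fun s h2 h3 h4 => ?_⟩
  have hp := Real.exp_pos (-(s.re / 2))
  rcases le_total 2 s.re with h | h
  · refine (h1 s h).trans (mul_le_mul_of_nonneg_right ?_ hp.le)
    have : 0 ≤ max K 0 * Real.exp 1 := by positivity
    linarith
  · have h5 := hK s (by rw [Complex.mem_reProdIm]; exact ⟨⟨h2, h⟩, ⟨h3, h4⟩⟩)
    have h6 : 1 ≤ Real.exp 1 * Real.exp (-(s.re / 2)) := by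
      rw [← Real.exp_add]
      exact Real.one_le_exp (by linarith)
    have h7 : K ≤ max K 0 := le_max_left _ _
    have h8 : 0 ≤ max K 0 := le_max_right _ _
    nlinarith

/-- the functions `f_{k-1}` at the distance `η` from the critical line -/
noncomputable def fk (k : ℕ) (η t : ℝ) : ℝ :=
  1 / Real.pi * (I ^ (k + 1) * Wk gz k (1 / 2 + (η + t * I))).im

lemma pt_Om {η t : ℝ} (hη : 0 < η) (ht : 0 < t) : (1 / 2 + (η + t * I) : ℂ) ∈ Om := by
  constructor
  · simpa using hη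
  · simpa using ht

lemma fk_deriv (RH : RiemannHypothesis) {η t : ℝ} (hη : 0 < η) (ht : 0 < t) (k : ℕ) :
    HasDerivAt (fk (k + 1) η) (fk k η t) t := by
  have h1 : HasDerivAt (Wk gz (k + 1)) (-Wk gz k (1 / 2 + (η + t * I))) (1 / 2 + (η + t * I)) :=
    R_deriv (Dk_Wk (Dk_gz RH) k) (pt_Om hη ht)
  have h2 : HasDerivAt (fun t : ℝ => (1 / 2 + (η + t * I) : ℂ)) I t := by
    have := (((Complex.ofRealCLM.hasDerivAt (x := t)).mul_const I).const_add (η : ℂ)).const_add (1 / 2 : ℂ)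
    simpa using this
  have h3 := HasDerivAt.comp (𝕜' := ℂ) t h1 h2
  have h4 := h3.const_mul (I ^ (k + 1 + 1))
  have h5 : HasDerivAt (fun t : ℝ => (I ^ (k + 1 + 1) * Wk gz (k + 1) (1 / 2 + (η + t * I))).im)
      (I ^ (k + 1 + 1) * (-Wk gz k (1 / 2 + (η + t * I)) * I)).im t := by
    have := (Complex.imCLM.hasFDerivAt.comp_hasDerivAt t h4)
    exact this
  have h6 := h5.const_mul (1 / Real.pi)
  have e : 1 / Real.pi * (I ^ (k + 1 + 1) * (-Wk gz k (1 / 2 + (η + t * I)) * I)).im = fk k η t := by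
    unfold fk
    congr 2
    rw [pow_succ I (k + 1)]
    linear_combination (-(I ^ (k + 1)) * Wk gz k (1 / 2 + (η + t * I))) * I_mul_I
  rw [e] at h6
  exact h6

lemma fk_zero (η t : ℝ) : fk 0 η t = 1 / Real.pi * (gz (1 / 2 + (η + t * I))).re := by
  unfold fk
  show 1 / Real.pi * (I ^ (0 + 1) * gz (1 / 2 + (η + t * I))).im = _
  rw [zero_add, pow_one, Complex.I_mul_im]

lemma fk_even (RH : RiemannHypothesis) {m : ℕ} (hm : Odd m) {η t : ℝ} (hη : 0 < η) (ht : 0 < t) :
    (-1) ^ ((m + 1) / 2) * fk (m + 1) η t =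
      1 / Real.pi * ∫ u : ℝ in Ioi 0, u ^ m / (m.factorial : ℝ) * (gz (1 / 2 + (((η + u : ℝ) : ℂ) + t * I))).re := by
  obtain ⟨j, hj⟩ := hm
  have e1 : (m + 1) / 2 = j + 1 := by omega
  have e2 : (I : ℂ) ^ (m + 1 + 1) = (((-1 : ℝ) ^ (j + 1) : ℝ) : ℂ) * I := by
    rw [hj, show 2 * j + 1 + 1 + 1 = 2 * (j + 1) + 1 by ring, pow_succ, pow_mul, I_sq]
    push_cast; ring
  unfold fk
  rw [e1, e2, mul_assoc, Complex.im_ofReal_mul, Complex.I_mul_im]
  have e3 : ((-1 : ℝ) ^ (j + 1)) * (1 / Real.pi * ((-1 : ℝ) ^ (j + 1) * (Wk gz (m + 1) (1 / 2 + (η + t * I))).re)) =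
      ((-1 : ℝ) ^ (j + 1) * (-1 : ℝ) ^ (j + 1)) * (1 / Real.pi * (Wk gz (m + 1) (1 / 2 + (η + t * I))).re) := by ring
  rw [e3, ← mul_pow, neg_one_mul, neg_neg, one_pow, one_mul]
  congr 1
  rw [kernel m (Dk_gz RH) (pt_Om hη ht)]
  have hint := (Dk_gz RH).int_pow (pt_Om hη ht) m
  have e4 := integral_re hint
  have e5 : (∫ u : ℝ in Ioi 0, ((u ^ m / (m.factorial : ℝ) : ℝ) : ℂ) * gz (1 / 2 + (η + t * I) + u)).re =
      ∫ u : ℝ in Ioi 0, (((u ^ m / (m.factorial : ℝ) : ℝ) : ℂ) * gz (1 / 2 + (η + t * I) + u)).re := e4.symm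
  rw [e5]
  refine setIntegral_congr_fun measurableSet_Ioi fun u _ => ?_
  rw [Complex.re_ofReal_mul]
  congr 3
  push_cast; ring

/-- pointwise bounds -/
lemma gz_pt (RH : RiemannHypothesis) : ∃ C : ℝ, 0 < C ∧ ∀ D η t u : ℝ, 1 ≤ D → 0 < η → η ≤ 1 → 1 ≤ t → 0 < u →
    (gz (1 / 2 + (((η + u : ℝ) : ℂ) + t * I))).re ≤ (Real.log t + C * (D * Real.exp (D / 2))) * (1 / (Real.exp (u * D) - 1)) +
      C * (D * Real.exp (D / 2)) * Real.exp (-(u / 2)) ∧
    -(Real.log t * (1 / (Real.exp (u * D) + 1))) - C * (D * Real.exp (D / 2)) * Real.exp (-(u / 2)) ≤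
      (gz (1 / 2 + (((η + u : ℝ) : ℂ) + t * I))).re := by
  obtain ⟨C1, hC1, h1⟩ := gz_bounds RH
  obtain ⟨C2, hC2, h2⟩ := gz_decay
  refine ⟨3 * C1 + C2, by positivity, fun D η t u hD hη hη1 ht hu => ?_⟩
  have hL : 0 ≤ Real.log t := Real.log_nonneg ht
  set E := D * Real.exp (D / 2) with hE
  have hE1 : 1 ≤ E := by
    have := Real.one_le_exp (show 0 ≤ D / 2 by linarith)
    rw [hE]; nlinarith
  have hX : 1 < Real.exp (u * D) := Real.one_lt_exp_iff.2 (by positivity)
  have hXi : 0 < 1 / (Real.exp (u * D) - 1) := div_pos one_pos (by linarith)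
  have hYi : 0 < 1 / (Real.exp (u * D) + 1) := div_pos one_pos (by linarith)
  have hex := Real.exp_pos (-(u / 2))
  rcases le_total u 2 with h | h
  · obtain ⟨h3, h4⟩ := h1 D (η + u) t hD (by linarith) (by linarith) ht
    have hXX : Real.exp (u * D) ≤ Real.exp ((η + u) * D) := Real.exp_le_exp.2 (by nlinarith)
    have g1 : 1 / (Real.exp ((η + u) * D) - 1) ≤ 1 / (Real.exp (u * D) - 1) :=
      one_div_le_one_div_of_le (by linarith) (by linarith)
    have g2 : 1 / (Real.exp ((η + u) * D) + 1) ≤ 1 / (Real.exp (u * D) + 1) :=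
      one_div_le_one_div_of_le (by linarith) (by linarith)
    have g3 : 1 ≤ 3 * Real.exp (-(u / 2)) := by
      have a1 : Real.exp (-1) ≤ Real.exp (-(u / 2)) := Real.exp_le_exp.2 (by linarith)
      have a2 : 1 / 3 ≤ Real.exp (-1) := by
        rw [Real.exp_neg, one_div]
        apply inv_anti₀ (Real.exp_pos 1)
        have := Real.exp_one_lt_d9
        linarith
      linarith
    have e1 : Real.log t / (Real.exp ((η + u) * D) - 1) = Real.log t * (1 / (Real.exp ((η + u) * D) - 1)) := by ring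
    have e2 : Real.log t / (Real.exp ((η + u) * D) + 1) = Real.log t * (1 / (Real.exp ((η + u) * D) + 1)) := by ring
    have e3 : 2 / (Real.exp ((η + u) * D) - 1) = 2 * (1 / (Real.exp ((η + u) * D) - 1)) := by ring
    rw [e1, e3] at h3
    rw [e2] at h4
    have k1 : Real.log t * (1 / (Real.exp ((η + u) * D) - 1)) ≤ Real.log t * (1 / (Real.exp (u * D) - 1)) :=
      mul_le_mul_of_nonneg_left g1 hL
    have k2 : Real.log t * (1 / (Real.exp ((η + u) * D) + 1)) ≤ Real.log t * (1 / (Real.exp (u * D) + 1)) :=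
      mul_le_mul_of_nonneg_left g2 hL
    have hCE : 0 < C1 * E := by positivity
    have k3 : C1 * E * (2 * (1 / (Real.exp ((η + u) * D) - 1))) ≤ C1 * E * (2 * (1 / (Real.exp (u * D) - 1))) :=
      mul_le_mul_of_nonneg_left (by linarith) hCE.le
    have k4 : C1 * E ≤ 3 * C1 * E * Real.exp (-(u / 2)) := by nlinarith
    have k5 : 0 ≤ C2 * E * Real.exp (-(u / 2)) := by positivity
    have k6 : 0 ≤ C1 * E * (1 / (Real.exp (u * D) - 1)) := by positivity
    have k7 : 0 ≤ C2 * E * (1 / (Real.exp (u * D) - 1)) := by positivity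
    constructor
    · nlinarith
    · nlinarith
  · have hre : (1 / 2 + (((η + u : ℝ) : ℂ) + t * I) : ℂ).re = 1 / 2 + (η + u) := by simp
    have h3 := h2 (1 / 2 + (((η + u : ℝ) : ℂ) + t * I)) (by rw [hre]; linarith)
    rw [hre] at h3
    have h4 : Real.exp (-((1 / 2 + (η + u)) / 2)) ≤ Real.exp (-(u / 2)) := Real.exp_le_exp.2 (by linarith)
    have h5 := (abs_le.1 ((Complex.abs_re_le_norm _).trans h3))
    have k1 : C2 * Real.exp (-((1 / 2 + (η + u)) / 2)) ≤ (3 * C1 + C2) * E * Real.exp (-(u / 2)) := by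
      calc C2 * Real.exp (-((1 / 2 + (η + u)) / 2)) ≤ C2 * Real.exp (-(u / 2)) :=
            mul_le_mul_of_nonneg_left h4 hC2.le
        _ ≤ (3 * C1 + C2) * E * Real.exp (-(u / 2)) := by
            refine mul_le_mul_of_nonneg_right ?_ hex.le
            nlinarith
    have k2 : 0 ≤ (Real.log t + (3 * C1 + C2) * E) * (1 / (Real.exp (u * D) - 1)) := by positivity
    have k3 : 0 ≤ Real.log t * (1 / (Real.exp (u * D) + 1)) := by positivity
    constructor <;> linarith [h5.1, h5.2]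

/-- **bounds for the even derivatives** -/
theorem fk_bounds (RH : RiemannHypothesis) {m : ℕ} (hm : Odd m) : ∃ C : ℝ, 0 < C ∧
    ∀ D η t : ℝ, 1 ≤ D → 0 < η → η ≤ 1 → 1 ≤ t →
    Real.pi * ((-1) ^ ((m + 1) / 2) * fk (m + 1) η t) ≤
      (Real.log t + C * (D * Real.exp (D / 2))) * (zt (m + 1) / D ^ (m + 1)) + C * (D * Real.exp (D / 2)) ∧
    -(Real.log t * ((1 - 2 / 2 ^ (m + 1)) * zt (m + 1) / D ^ (m + 1))) - C * (D * Real.exp (D / 2)) ≤
      Real.pi * ((-1) ^ ((m + 1) / 2) * fk (m + 1) η t) := by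
  obtain ⟨C, hC, h⟩ := gz_pt RH
  have hm1 : 1 ≤ m := hm.pos
  refine ⟨C + C * 2 ^ (m + 1), by positivity, fun D η t hD hη hη1 ht => ?_⟩
  have hL : 0 ≤ Real.log t := Real.log_nonneg ht
  set E := D * Real.exp (D / 2) with hE
  have hE0 : 0 < E := by positivity
  rw [fk_even RH hm hη (by linarith), ← mul_assoc, mul_one_div_cancel Real.pi_pos.ne', one_mul]
  have hint : IntegrableOn (fun u : ℝ => u ^ m / (m.factorial : ℝ) * (gz (1 / 2 + (((η + u : ℝ) : ℂ) + t * I))).re) (Ioi 0) := by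
    have h1 := ((Dk_gz RH).int_pow (pt_Om hη (by linarith : 0 < t)) m).re
    refine h1.congr ?_
    filter_upwards with u
    have e : (RCLike.re (((u ^ m / (m.factorial : ℝ) : ℝ) : ℂ) * gz (1 / 2 + (η + t * I) + u)) : ℝ) =
        (((u ^ m / (m.factorial : ℝ) : ℝ) : ℂ) * gz (1 / 2 + (η + t * I) + u)).re := rfl
    rw [e, Complex.re_ofReal_mul]
    congr 3
    push_cast; ring
  obtain ⟨i1, v1⟩ := bose hm1 (D := D) (by linarith)
  obtain ⟨i2, v2⟩ := fermi hm1 (D := D) (by linarith)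
  obtain ⟨i3, v3⟩ := base_int m (c := 1 / 2) (by norm_num)
  have v3' : ∫ u : ℝ in Ioi 0, u ^ m / (m.factorial : ℝ) * Real.exp (-(1 / 2 * u)) = 2 ^ (m + 1) := by
    rw [v3, one_div_pow, one_div_one_div]
  have hexp : ∀ u : ℝ, Real.exp (-(u / 2)) = Real.exp (-(1 / 2 * u)) := fun u => by congr 1; ring
  constructor
  · have h1 : ∫ u : ℝ in Ioi 0, u ^ m / (m.factorial : ℝ) * (gz (1 / 2 + (((η + u : ℝ) : ℂ) + t * I))).re ≤
        ∫ u : ℝ in Ioi 0, ((Real.log t + C * E) * (u ^ m / (m.factorial : ℝ) * (1 / (Real.exp (u * D) - 1))) +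
          C * E * (u ^ m / (m.factorial : ℝ) * Real.exp (-(1 / 2 * u)))) := by
      refine setIntegral_mono_on hint ((i1.const_mul _).add (i3.const_mul _)) measurableSet_Ioi fun u hu => ?_
      have hu0 : (0 : ℝ) < u := hu
      have h2 := (h D η t u hD hη hη1 ht hu0).1
      rw [hexp] at h2
      have h3 := mul_le_mul_of_nonneg_left h2 (show 0 ≤ u ^ m / (m.factorial : ℝ) by positivity)
      refine h3.trans (le_of_eq ?_)
      ring
    refine h1.trans ?_
    rw [integral_add (i1.const_mul _) (i3.const_mul _), integral_const_mul, integral_const_mul, v1, v3']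
    have hz := zt_pos (r := m + 1) (by omega)
    have k1 : (Real.log t + C * E) * (zt (m + 1) / D ^ (m + 1)) ≤
        (Real.log t + (C + C * 2 ^ (m + 1)) * E) * (zt (m + 1) / D ^ (m + 1)) := by
      refine mul_le_mul_of_nonneg_right ?_ (by positivity)
      have : 0 ≤ C * 2 ^ (m + 1) * E := by positivity
      nlinarith
    have k2 : C * E * 2 ^ (m + 1) ≤ (C + C * 2 ^ (m + 1)) * E := by nlinarith
    linarith
  · have h1 : ∫ u : ℝ in Ioi 0, (-(Real.log t) * (u ^ m / (m.factorial : ℝ) * (1 / (Real.exp (u * D) + 1))) -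
          C * E * (u ^ m / (m.factorial : ℝ) * Real.exp (-(1 / 2 * u)))) ≤
        ∫ u : ℝ in Ioi 0, u ^ m / (m.factorial : ℝ) * (gz (1 / 2 + (((η + u : ℝ) : ℂ) + t * I))).re := by
      refine setIntegral_mono_on ((i2.const_mul _).sub (i3.const_mul _)) hint measurableSet_Ioi fun u hu => ?_
      have hu0 : (0 : ℝ) < u := hu
      have h2 := (h D η t u hD hη hη1 ht hu0).2
      rw [hexp] at h2
      have h3 := mul_le_mul_of_nonneg_left h2 (show 0 ≤ u ^ m / (m.factorial : ℝ) by positivity)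
      refine le_trans (le_of_eq ?_) h3
      ring
    refine le_trans ?_ h1
    rw [integral_sub (i2.const_mul _) (i3.const_mul _), integral_const_mul, integral_const_mul, v2, v3']
    have k2 : C * E * 2 ^ (m + 1) ≤ (C + C * 2 ^ (m + 1)) * E := by nlinarith
    linarith

/-- **the lower bound for the top derivative** -/
theorem fk_low (RH : RiemannHypothesis) : ∃ C : ℝ, 0 < C ∧ ∀ D η t : ℝ, 1 ≤ D → 0 < η → η ≤ 1 → 1 ≤ t →
    -(Real.log t / 2) - C * (D * Real.exp (D / 2)) ≤ Real.pi * fk 0 η t := by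
  obtain ⟨C1, hC1, h1⟩ := gz_bounds RH
  refine ⟨C1, hC1, fun D η t hD hη hη1 ht => ?_⟩
  have h2 := (h1 D η t hD hη (by linarith) ht).2
  rw [fk_zero, ← mul_assoc Real.pi, mul_one_div_cancel Real.pi_pos.ne', one_mul]
  have hL : 0 ≤ Real.log t := Real.log_nonneg ht
  have h3 : Real.log t / (Real.exp (η * D) + 1) ≤ Real.log t / 2 := by
    refine div_le_div_of_nonneg_left hL (by norm_num) ?_
    have := Real.one_le_exp (show 0 ≤ η * D by positivity)
    linarith
  linarith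

end Pool.Agent.Q31.SN
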