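import Mathlib

set_option autoImplicit false

/-! Periodized Bernoulli polynomials `pb k x = B_k({x}) / k!`. -/

open Set Filter Topology

namespace Pool.Agent.Q31.SN

/-- the periodized Bernoulli polynomial, divided by `k!` -/
noncomputable def pb (k : ℕ) (x : ℝ) : ℝ := bernoulliFun k (Int.fract x) / (k.factorial : ℝ)

/-- the polynomial itself -/
noncomputable def bp (k : ℕ) (x : ℝ) : ℝ := bernoulliFun k x / (k.factorial : ℝ)

lemma bp_cont (k : ℕ) : Continuous (bp k) := (continuous_bernoulliFun k).div_const _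

lemma bp_deriv (k : ℕ) (x : ℝ) : HasDerivAt (bp (k + 1)) (bp k x) x := by
  have h := (hasDerivAt_bernoulliFun (k + 1) x).div_const ((k + 1).factorial : ℝ)
  have h1 : ((k : ℝ) + 1) ≠ 0 := by positivity
  have e : bp k x = ((k + 1 : ℕ) : ℝ) * bernoulliFun (k + 1 - 1) x / ((k + 1).factorial : ℝ) := by
    unfold bp
    rw [Nat.factorial_succ]
    push_cast
    rw [mul_div_mul_left _ _ h1]
  rw [e]
  exact h

lemma bp_ends {k : ℕ} (hk : k ≠ 1) : bp k 1 = bp k 0 := by
  unfold bp
  rw [bernoulliFun_endpoints_eq_of_ne_one hk]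

lemma pb_eq (k : ℕ) (x : ℝ) : pb k x = bp k (Int.fract x) := rfl

lemma pb_add_int (k : ℕ) (x : ℝ) (m : ℤ) : pb k (x + m) = pb k x := by
  unfold pb; rw [Int.fract_add_intCast]

lemma pb_add_nat (k : ℕ) (x : ℝ) (m : ℕ) : pb k (x + m) = pb k x := by
  unfold pb; rw [Int.fract_add_natCast]

/-- on a closed cell -/
lemma pb_cell {k : ℕ} (hk : k ≠ 1) (m : ℤ) {x : ℝ} (h1 : (m : ℝ) ≤ x) (h2 : x ≤ m + 1) :
    pb k x = bp k (x - m) := by
  rcases h2.lt_or_eq with h | h
  · have : Int.fract x = x - m := by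
      rw [Int.fract]
      have : ⌊x⌋ = m := Int.floor_eq_iff.2 ⟨h1, h⟩
      rw [this]
    rw [pb_eq, this]
  · have e : x = (0 : ℝ) + ((m + 1 : ℤ) : ℝ) := by push_cast; linarith
    rw [e, pb_add_int, pb_eq, Int.fract_zero]
    push_cast
    rw [show (0 : ℝ) + (m + 1) - m = 1 by ring, bp_ends hk]

lemma pb_deriv {k : ℕ} (hk : 2 ≤ k) (x : ℝ) : HasDerivAt (pb (k + 1)) (pb k x) x := by
  have hk1 : k ≠ 1 := by omega
  have hk2 : k + 1 ≠ 1 := by omega
  -- one-sided derivatives on a closed cell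
  have key : ∀ (m : ℤ) (y : ℝ), (m : ℝ) ≤ y → y ≤ m + 1 →
      HasDerivWithinAt (pb (k + 1)) (pb k y) (Icc (m : ℝ) (m + 1)) y := by
    intro m y h1 h2
    have h3 : HasDerivAt (fun z : ℝ => bp (k + 1) (z - m)) (bp k (y - m)) y := by
      exact (bp_deriv k (y - m)).comp_sub_const y (m : ℝ)
    rw [pb_cell hk1 m h1 h2]
    refine h3.hasDerivWithinAt.congr (fun z hz => pb_cell hk2 m hz.1 hz.2) (pb_cell hk2 m h1 h2)
  set m := ⌊x⌋ with hm
  have h1 : (m : ℝ) ≤ x := Int.floor_le x
  have h2 : x < m + 1 := Int.lt_floor_add_one x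
  rcases h1.lt_or_eq with h | h
  · exact (key m x h1 h2.le).hasDerivAt (Icc_mem_nhds h h2)
  · have ha := key m x h1 h2.le
    have hb := key (m - 1) x (by push_cast; linarith) (by push_cast; linarith)
    have hu := ha.union hb
    refine hu.hasDerivAt ?_
    refine Filter.mem_of_superset (Ioo_mem_nhds (show x - 1 < x by linarith) (show x < x + 1 by linarith)) ?_
    intro z hz
    rcases le_total x z with h3 | h3
    · left; exact ⟨by linarith, by linarith [hz.2]⟩
    · right
      refine ⟨?_, ?_⟩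
      · push_cast; linarith [hz.1]
      · push_cast; linarith

lemma pb_cont {k : ℕ} (hk : 2 ≤ k) : Continuous (pb k) := by
  rcases Nat.lt_or_ge 2 k with h | h
  · obtain ⟨j, rfl⟩ : ∃ j, k = j + 1 := ⟨k - 1, by omega⟩
    exact continuous_iff_continuousAt.2 fun x => (pb_deriv (by omega) x).continuousAt
  · have : k = 2 := by omega
    subst this
    rw [continuous_iff_continuousAt]
    intro x
    have key : ∀ (m : ℤ) (y : ℝ), (m : ℝ) ≤ y → y ≤ m + 1 →
        ContinuousWithinAt (pb 2) (Icc (m : ℝ) (m + 1)) y := by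
      intro m y h1 h2
      have h3 : ContinuousWithinAt (fun z : ℝ => bp 2 (z - m)) (Icc (m : ℝ) (m + 1)) y :=
        ((bp_cont 2).comp (continuous_id.sub continuous_const)).continuousWithinAt
      exact h3.congr (fun z hz => pb_cell (by norm_num) m hz.1 hz.2) (pb_cell (by norm_num) m h1 h2)
    set m := ⌊x⌋ with hm
    have h1 : (m : ℝ) ≤ x := Int.floor_le x
    have h2 : x < m + 1 := Int.lt_floor_add_one x
    rcases h1.lt_or_eq with h | h
    · exact (key m x h1 h2.le).continuousAt (Icc_mem_nhds h h2)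
    · have ha := key m x h1 h2.le
      have hb := key (m - 1) x (by push_cast; linarith) (by push_cast; linarith)
      have hu := ha.union hb
      refine hu.continuousAt ?_
      refine Filter.mem_of_superset (Ioo_mem_nhds (show x - 1 < x by linarith) (show x < x + 1 by linarith)) ?_
      intro z hz
      rcases le_total x z with h3 | h3
      · left; exact ⟨by linarith, by linarith [hz.2]⟩
      · right
        refine ⟨?_, ?_⟩
        · push_cast; linarith [hz.1]
        · push_cast; linarith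

/-- value at the integers -/
lemma pb_int (k : ℕ) (m : ℤ) : pb k m = bernoulli k / (k.factorial : ℝ) := by
  have := pb_add_int k 0 m
  rw [zero_add] at this
  rw [this, pb, Int.fract_zero, bernoulliFun_eval_zero]

/-- value at the half-integers -/
lemma pb_half (k : ℕ) (m : ℤ) : pb k (1 / 2 + m) = (2 / 2 ^ k - 1) * (bernoulli k / (k.factorial : ℝ)) := by
  rw [pb_add_int, pb]
  have : Int.fract (1 / 2 : ℝ) = 2⁻¹ := by
    rw [Int.fract_eq_self.2 ⟨by norm_num, by norm_num⟩]; norm_num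
  rw [this, bernoulliFun_eval_half]
  ring

/-- the maximum of `B_k` over `[0, 1]` -/
noncomputable def bM (k : ℕ) : ℝ := sSup (bernoulliFun k '' Icc 0 1)

/-- the minimum of `B_k` over `[0, 1]` -/
noncomputable def bm (k : ℕ) : ℝ := sInf (bernoulliFun k '' Icc 0 1)

lemma le_bM (k : ℕ) {x : ℝ} (h0 : 0 ≤ x) (h1 : x ≤ 1) : bernoulliFun k x ≤ bM k :=
  le_csSup (isCompact_Icc.image (continuous_bernoulliFun k)).bddAbove ⟨x, ⟨h0, h1⟩, rfl⟩

lemma bm_le (k : ℕ) {x : ℝ} (h0 : 0 ≤ x) (h1 : x ≤ 1) : bm k ≤ bernoulliFun k x :=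
  csInf_le (isCompact_Icc.image (continuous_bernoulliFun k)).bddBelow ⟨x, ⟨h0, h1⟩, rfl⟩

lemma pb_le (k : ℕ) (x : ℝ) : pb k x ≤ bM k / (k.factorial : ℝ) := by
  unfold pb
  gcongr
  exact le_bM k (Int.fract_nonneg x) (Int.fract_lt_one x).le

lemma le_pb (k : ℕ) (x : ℝ) : bm k / (k.factorial : ℝ) ≤ pb k x := by
  unfold pb
  gcongr
  exact bm_le k (Int.fract_nonneg x) (Int.fract_lt_one x).le

end Pool.Agent.Q31.SN
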