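import Pool.Agent.Q31.SN.Bern

set_option autoImplicit false

/-! The periodic comparison lemma (one-sided bound on the highest derivative). -/

open Set Filter Topology

namespace Pool.Agent.Q31.SN

lemma alt_step {ψ ψ' : ℝ → ℝ} {P : ℝ} (hd : ∀ x, HasDerivAt ψ (ψ' x) x)
    (hper : ∀ x, ψ' (x + P) = ψ' x) {K : ℕ} (hK : Even K) (hK0 : 0 < K) {s : ℝ} {x : ℕ → ℝ}
    (hx : ∀ i < K, x i < x (i + 1)) (hxP : x K = x 0 + P)
    (hs : ∀ i ≤ K, 0 < s * (-1) ^ i * ψ (x i)) :
    ∃ y : ℕ → ℝ, (∀ i < K, y i < y (i + 1)) ∧ y K = y 0 + P ∧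
      ∀ i ≤ K, 0 < (-s) * (-1) ^ i * ψ' (y i) := by
  have h1 : ∀ i : ℕ, ∃ c : ℝ, i < K → (x i < c ∧ c < x (i + 1) ∧ 0 < (-s) * (-1) ^ i * ψ' c) := by
    intro i
    by_cases hi : i < K
    · obtain ⟨c, hc, hc2⟩ := exists_hasDerivAt_eq_slope ψ ψ' (hx i hi)
        (fun z _ => (hd z).continuousAt.continuousWithinAt) (fun z _ => hd z)
      refine ⟨c, fun _ => ⟨hc.1, hc.2, ?_⟩⟩
      have ha := hs i hi.le
      have hb := hs (i + 1) hi
      have hpos : 0 < x (i + 1) - x i := by linarith [hx i hi]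
      rw [hc2]
      have e : (-s) * (-1) ^ i * ((ψ (x (i + 1)) - ψ (x i)) / (x (i + 1) - x i)) =
          (s * (-1) ^ (i + 1) * ψ (x (i + 1)) + s * (-1) ^ i * ψ (x i)) / (x (i + 1) - x i) := by
        rw [pow_succ]; field_simp; ring
      rw [e]
      positivity
    · exact ⟨0, fun h => absurd h hi⟩
  choose c hc using h1
  have hy0 : (if 0 < K then c 0 else c 0 + P) = c 0 := if_pos hK0
  refine ⟨fun i => if i < K then c i else c 0 + P, fun i hi => ?_, ?_, fun i hi => ?_⟩
  · show (if i < K then c i else c 0 + P) < if i + 1 < K then c (i + 1) else c 0 + P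
    rw [if_pos hi]
    split_ifs with h
    · exact (hc i hi).2.1.trans (hc (i + 1) h).1
    · have e : i + 1 = K := by omega
      have h2 := (hc i hi).2.1
      rw [e, hxP] at h2
      have h3 := (hc 0 hK0).1
      linarith
  · show (if K < K then c K else c 0 + P) = (if 0 < K then c 0 else c 0 + P) + P
    rw [if_neg (lt_irrefl K), hy0]
  · show 0 < (-s) * (-1) ^ i * ψ' (if i < K then c i else c 0 + P)
    split_ifs with h
    · exact (hc i h).2.2
    · have e : i = K := by omega
      subst e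
      have h3 := (hc 0 hK0).2.2
      rw [hper, hK.neg_one_pow]
      rw [pow_zero] at h3
      exact h3

lemma no_alt {ψ : ℝ → ℝ} {N : ℕ} (hconv : ∀ k : ℤ, ConvexOn ℝ (Icc (k : ℝ) (k + 1)) ψ) {x : ℕ → ℝ}
    (hx : ∀ i < 2 * N + 2, x i < x (i + 1)) (hxP : x (2 * N + 2) = x 0 + N)
    (hs : ∀ i ≤ 2 * N + 2, 0 < (-1) * (-1) ^ i * ψ (x i)) : False := by
  have hneg : ∀ j, j ≤ N + 1 → ψ (x (2 * j)) < 0 := by
    intro j hj
    have h := hs (2 * j) (by omega)
    rw [Even.neg_one_pow (even_two_mul j)] at h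
    linarith
  have hpos : ∀ j, j ≤ N → 0 < ψ (x (2 * j + 1)) := by
    intro j hj
    have h := hs (2 * j + 1) (by omega)
    rw [Odd.neg_one_pow ⟨j, rfl⟩] at h
    linarith
  have step : ∀ j, j ≤ N → ⌊x (2 * j)⌋ + 1 ≤ ⌊x (2 * (j + 1))⌋ := by
    intro j hj
    by_contra hcon
    push Not at hcon
    have a1 := hx (2 * j) (by omega)
    have a2 := hx (2 * j + 1) (by omega)
    have e2 : 2 * (j + 1) = 2 * j + 1 + 1 := by ring
    have hfl : ⌊x (2 * j)⌋ ≤ ⌊x (2 * (j + 1))⌋ := by
      rw [e2]; exact Int.floor_le_floor (a1.trans a2).le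
    have hk : ⌊x (2 * (j + 1))⌋ = ⌊x (2 * j)⌋ := by omega
    set k := ⌊x (2 * j)⌋ with hkd
    have b1 : (k : ℝ) ≤ x (2 * j) := Int.floor_le _
    have b2 : x (2 * (j + 1)) < k + 1 := by rw [← hk]; exact Int.lt_floor_add_one _
    rw [e2] at b2
    have h := (hconv k).le_max_of_mem_Icc (x := x (2 * j)) (y := x (2 * j + 1 + 1)) (z := x (2 * j + 1))
      ⟨b1, by linarith⟩ ⟨by linarith, b2.le⟩ ⟨a1.le, a2.le⟩
    have c1 := hneg j (by omega)
    have c2 := hneg (j + 1) (by omega)
    rw [e2] at c2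
    have c3 := hpos j hj
    have := max_lt c1 c2
    linarith
  have total : ∀ j, j ≤ N + 1 → ⌊x 0⌋ + j ≤ ⌊x (2 * j)⌋ := by
    intro j
    induction j with
    | zero => intro _; simp
    | succ j ih =>
      intro hj
      have h1 := ih (by omega)
      have h2 := step j (by omega)
      push_cast
      linarith
  have h1 := total (N + 1) le_rfl
  have e : 2 * (N + 1) = 2 * N + 2 := by ring
  rw [e, hxP, Int.floor_add_natCast] at h1
  push_cast at h1
  linarith

/-- the final contradiction -/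
lemma core {r N : ℕ} (hr : 4 ≤ r) (hre : Even r) {H : ℕ → ℝ → ℝ}
    (hH : ∀ k < r, ∀ x, HasDerivAt (H k) (H (k + 1) x) x)
    (hper : ∀ k ≤ r, ∀ x, H k (x + N) = H k x) (hlow : ∀ x, -1 ≤ H r x)
    {x : ℕ → ℝ} (hx : ∀ i < 2 * N + 2, x i < x (i + 1)) (hxP : x (2 * N + 2) = x 0 + N)
    (hs : ∀ i ≤ 2 * N + 2, 0 < (-1) * (-1) ^ i * (H 0 (x i) + pb r (x i))) : False := by
  have key : ∀ k, k ≤ r - 2 → ∃ y : ℕ → ℝ, (∀ i < 2 * N + 2, y i < y (i + 1)) ∧
      y (2 * N + 2) = y 0 + N ∧
      ∀ i ≤ 2 * N + 2, 0 < ((-1) ^ (k + 1)) * (-1) ^ i * (H k (y i) + pb (r - k) (y i)) := by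
    intro k
    induction k with
    | zero =>
      intro _
      exact ⟨x, hx, hxP, fun i hi => by simpa using hs i hi⟩
    | succ k ih =>
      intro hk
      obtain ⟨y, h1, h2, h3⟩ := ih (by omega)
      have hd : ∀ z, HasDerivAt (fun z => H k z + pb (r - k) z) (H (k + 1) z + pb (r - (k + 1)) z) z := by
        intro z
        have e : r - k = (r - (k + 1)) + 1 := by omega
        have := (hH k (by omega) z).add (pb_deriv (k := r - (k + 1)) (by omega) z)
        rw [e]
        exact this
      obtain ⟨w, g1, g2, g3⟩ := alt_step (P := N) hd (fun z => by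
        rw [hper (k + 1) (by omega), pb_add_nat]) (K := 2 * N + 2) ⟨N + 1, by ring⟩ (by omega) h1 h2 h3
      refine ⟨w, g1, g2, fun i hi => ?_⟩
      have := g3 i hi
      rw [pow_succ]
      simpa using this
  obtain ⟨y, h1, h2, h3⟩ := key (r - 2) le_rfl
  have e1 : (-1 : ℝ) ^ (r - 2 + 1) = -1 := by
    obtain ⟨m, hm⟩ := hre
    exact Odd.neg_one_pow ⟨m - 1, by omega⟩
  have e2 : r - (r - 2) = 2 := by omega
  rw [e1, e2] at h3
  refine no_alt (ψ := fun z => H (r - 2) z + pb 2 z) (fun k => ?_) h1 h2 h3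
  have e3 : r - 2 + 1 = r - 1 := by omega
  have e4 : r - 1 + 1 = r := by omega
  have hd1 : ∀ z, HasDerivAt (fun z => H (r - 2) z + bp 2 (z - k)) (H (r - 1) z + bp 1 (z - k)) z := by
    intro z
    have h := (hH (r - 2) (by omega) z).add ((bp_deriv 1 (z - k)).comp_sub_const z (k : ℝ))
    rw [e3] at h
    exact h
  have hd2 : ∀ z, HasDerivAt (fun z => H (r - 1) z + bp 1 (z - k)) (H r z + bp 0 (z - k)) z := by
    intro z
    have h := (hH (r - 1) (by omega) z).add ((bp_deriv 0 (z - k)).comp_sub_const z (k : ℝ))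
    rw [e4] at h
    exact h
  have hc : ConvexOn ℝ (Icc (k : ℝ) (k + 1)) (fun z => H (r - 2) z + bp 2 (z - k)) := by
    refine convexOn_of_hasDerivWithinAt2_nonneg (convex_Icc _ _)
      (fun z _ => (hd1 z).continuousAt.continuousWithinAt) (fun z _ => (hd1 z).hasDerivWithinAt)
      (fun z _ => (hd2 z).hasDerivWithinAt) (fun z _ => ?_)
    have h0 : bp 0 (z - k) = 1 := by unfold bp; rw [bernoulliFun_zero]; norm_num
    rw [h0]
    linarith [hlow z]
  refine hc.congr fun z hz => ?_
  show H (r - 2) z + bp 2 (z - k) = H (r - 2) z + pb 2 z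
  rw [pb_cell (by norm_num) k hz.1 hz.2]

lemma near_pos {f : ℝ → ℝ} {a f' : ℝ} (hf : HasDerivAt f f' a) (h0 : f a = 0) (hp : 0 < f') {l u : ℝ}
    (hl : l < a) (hu : a < u) : ∃ η : ℝ, 0 < η ∧ l < a - η ∧ a + η < u ∧ f (a - η) < 0 ∧ 0 < f (a + η) := by
  have h1 := hasDerivAt_iff_tendsto_slope.1 hf
  have h2 : ∀ᶠ z in 𝓝[≠] a, 0 < slope f a z := h1.eventually (lt_mem_nhds hp)
  rw [eventually_nhdsWithin_iff, Metric.eventually_nhds_iff] at h2
  obtain ⟨ε, hε, h3⟩ := h2
  refine ⟨min (ε / 2) (min ((a - l) / 2) ((u - a) / 2)), ?_, ?_, ?_, ?_, ?_⟩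
  · refine lt_min (by linarith) (lt_min (by linarith) (by linarith))
  · have := (min_le_right (ε / 2) (min ((a - l) / 2) ((u - a) / 2))).trans (min_le_left _ _)
    linarith
  · have := (min_le_right (ε / 2) (min ((a - l) / 2) ((u - a) / 2))).trans (min_le_right _ _)
    linarith
  all_goals
    set η := min (ε / 2) (min ((a - l) / 2) ((u - a) / 2)) with hη
    have hη0 : 0 < η := lt_min (by linarith) (lt_min (by linarith) (by linarith))
    have hηε : η < ε := by
      have := min_le_left (ε / 2) (min ((a - l) / 2) ((u - a) / 2))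
      linarith
  · have h4 := h3 (y := a - η) (by rw [Real.dist_eq]; rw [show a - η - a = -η by ring, abs_neg, abs_of_pos hη0]; exact hηε)
      (by simp [hη0.ne'])
    rw [slope_def_field, h0] at h4
    by_contra hcon
    push Not at hcon
    have : (f (a - η) - 0) / (a - η - a) ≤ 0 := by
      apply div_nonpos_of_nonneg_of_nonpos <;> linarith
    linarith
  · have h4 := h3 (y := a + η) (by rw [Real.dist_eq]; rw [show a + η - a = η by ring, abs_of_pos hη0]; exact hηε)
      (by simp [hη0.ne'])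
    rw [slope_def_field, h0] at h4
    by_contra hcon
    push Not at hcon
    have : (f (a + η) - 0) / (a + η - a) ≤ 0 := by
      apply div_nonpos_of_nonpos_of_nonneg <;> linarith
    linarith

/-- **the periodic comparison lemma** -/
theorem compare {r N : ℕ} (hr : 4 ≤ r) (hre : Even r) (hN : 0 < N) {G : ℕ → ℝ → ℝ}
    (hG : ∀ k < r, ∀ x, HasDerivAt (G k) (G (k + 1) x) x)
    (hper : ∀ k ≤ r, ∀ x, G k (x + N) = G k x) (hlow : ∀ x, -1 ≤ G r x) (p m M : ℝ)
    (hp : ∀ k : ℤ, -pb r (p + k) = m) (hq : ∀ k : ℤ, -pb r (p + 1 / 2 + k) = M)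
    (hm : ∀ x, m < G 0 x) (hM : ∀ x, G 0 x < M) (x : ℝ) :
    (∃ y, G 1 x ≤ -pb (r - 1) y) ∧ ∃ y, -pb (r - 1) y ≤ G 1 x := by
  have hcont : Continuous fun y => -pb r y := (pb_cont (by omega)).neg
  have hN0 : (0 : ℝ) < N := by exact_mod_cast hN
  have hp0 := hp 0
  have hq0 := hq 0
  have hp1 := hp 1
  simp only [Int.cast_zero, add_zero, Int.cast_one] at hp0 hq0 hp1
  -- common part
  have common : ∀ xs : ℝ, -pb r xs = G 0 x → ∃ H : ℕ → ℝ → ℝ,
      (∀ k < r, ∀ z, HasDerivAt (H k) (H (k + 1) z) z) ∧ (∀ k ≤ r, ∀ z, H k (z + N) = H k z) ∧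
      (∀ z, -1 ≤ H r z) ∧ (∀ z, m < H 0 z) ∧ (∀ z, H 0 z < M) ∧ H 0 xs + pb r xs = 0 ∧
      HasDerivAt (fun z => H 0 z + pb r z) (G 1 x + pb (r - 1) xs) xs := by
    intro xs hxs
    have hd : ∀ k < r, ∀ z, HasDerivAt (fun z => G k (z + (x - xs))) (G (k + 1) (z + (x - xs))) z :=
      fun k hk z => (hG k hk (z + (x - xs))).comp_add_const z (x - xs)
    refine ⟨fun k z => G k (z + (x - xs)), hd, fun k hk z => ?_, fun z => hlow _,
      fun z => hm _, fun z => hM _, ?_, ?_⟩
    · show G k (z + N + (x - xs)) = G k (z + (x - xs))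
      rw [← hper k hk (z + (x - xs))]
      congr 1; ring
    · show G 0 (xs + (x - xs)) + pb r xs = 0
      rw [add_sub_cancel, ← hxs]; ring
    · have h1 := hd 0 (by omega) xs
      have h2 := pb_deriv (k := r - 1) (by omega) xs
      rw [show r - 1 + 1 = r by omega] at h2
      have h3 := h1.add h2
      rw [zero_add, add_sub_cancel] at h3
      exact h3
  constructor
  · by_contra hcon
    push Not at hcon
    obtain ⟨xs, hxs, hxs2⟩ : ∃ xs ∈ Ioo p (p + 1 / 2), -pb r xs = G 0 x := by
      have := intermediate_value_Ioo (show p ≤ p + 1 / 2 by linarith) hcont.continuousOn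
      rw [hp0, hq0] at this
      exact this ⟨hm x, hM x⟩
    obtain ⟨H, h1, h2, h3, h4, h5, h6, h7⟩ := common xs hxs2
    have h8 : 0 < G 1 x + pb (r - 1) xs := by linarith [hcon xs]
    obtain ⟨η, hη, e1, e2, e3, e4⟩ := near_pos h7 h6 h8 hxs.1 hxs.2
    refine core hr hre h1 h2 h3 (N := N)
      (x := fun i => if i = 0 then xs - η else if i = 1 then xs + η else
        if i < 2 * N + 2 then p + ((i : ℝ) - 1) / 2 else xs - η + N) (fun i hi => ?_) ?_ (fun i hi => ?_)
    · rcases Nat.lt_or_ge i 2 with h | h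
      · interval_cases i
        · simp; linarith
        · have : (2 : ℕ) < 2 * N + 2 := by omega
          simp [hN]
          norm_num
          linarith
      · have g1 : i ≠ 0 := by omega
        have g2 : i ≠ 1 := by omega
        have g3 : i + 1 ≠ 0 := by omega
        have g4 : i + 1 ≠ 1 := by omega
        simp only [g1, g2, g3, g4, if_false, hi, if_true]
        split_ifs with g5
        · push_cast; linarith
        · have : i = 2 * N + 1 := by omega
          subst this
          push_cast; linarith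
    · have g1 : ¬ (2 * N + 2 = 0) := by omega
      have g2 : ¬ (2 * N + 2 = 1) := by omega
      simp only [g1, g2, if_false, lt_irrefl, if_true]
    · rcases Nat.lt_or_ge i 2 with h | h
      · interval_cases i
        · simp; linarith
        · simp; linarith
      · have g1 : i ≠ 0 := by omega
        have g2 : i ≠ 1 := by omega
        simp only [g1, g2, if_false]
        split_ifs with g5
        · rcases Nat.even_or_odd' i with ⟨j, rfl | rfl⟩
          · have e5 : p + (((2 * j : ℕ) : ℝ) - 1) / 2 = p + 1 / 2 + ((j - 1 : ℤ) : ℝ) := by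
              push_cast; ring
            rw [e5, Even.neg_one_pow (even_two_mul j)]
            have := hq (j - 1)
            have := h5 (p + 1 / 2 + ((j - 1 : ℤ) : ℝ))
            linarith
          · have e5 : p + (((2 * j + 1 : ℕ) : ℝ) - 1) / 2 = p + ((j : ℤ) : ℝ) := by
              push_cast; ring
            rw [e5, Odd.neg_one_pow ⟨j, rfl⟩]
            have := hp j
            have := h4 (p + ((j : ℤ) : ℝ))
            linarith
        · have : i = 2 * N + 2 := by omega
          subst this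
          rw [h2 0 (by omega), pb_add_nat, Even.neg_one_pow ⟨N + 1, by ring⟩]
          linarith
  · by_contra hcon
    push Not at hcon
    obtain ⟨xs, hxs, hxs2⟩ : ∃ xs ∈ Ioo (p + 1 / 2) (p + 1), -pb r xs = G 0 x := by
      have := intermediate_value_Ioo' (show p + 1 / 2 ≤ p + 1 by linarith) hcont.continuousOn
      rw [hp1, hq0] at this
      exact this ⟨hm x, hM x⟩
    obtain ⟨H, h1, h2, h3, h4, h5, h6, h7⟩ := common xs hxs2
    have h8 : 0 < -(G 1 x + pb (r - 1) xs) := by linarith [hcon xs]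
    obtain ⟨η, hη, e1, e2, e3, e4⟩ := near_pos h7.neg (by show -(H 0 xs + pb r xs) = 0; rw [h6, neg_zero]) h8 hxs.1 hxs.2
    replace e3 : -(H 0 (xs - η) + pb r (xs - η)) < 0 := e3
    replace e4 : 0 < -(H 0 (xs + η) + pb r (xs + η)) := e4
    refine core hr hre h1 h2 h3 (N := N)
      (x := fun i => if i = 0 then xs + η else if i < 2 * N + 1 then p + 1 / 2 + (i : ℝ) / 2 else
        if i = 2 * N + 1 then xs - η + N else xs + η + N) (fun i hi => ?_) ?_ (fun i hi => ?_)
    · rcases Nat.eq_zero_or_pos i with rfl | h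
      · simp [hN]
        norm_num
        linarith
      · have g1 : i ≠ 0 := by omega
        have g2 : i + 1 ≠ 0 := by omega
        simp only [g1, g2, if_false]
        rcases lt_trichotomy i (2 * N) with g3 | g3 | g3
        · have g4 : i < 2 * N + 1 := by omega
          have g5 : i + 1 < 2 * N + 1 := by omega
          simp only [g4, g5, if_true]
          push_cast; linarith
        · subst g3
          have g4 : 2 * N < 2 * N + 1 := by omega
          simp only [g4, if_true, lt_irrefl, if_false]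
          push_cast; linarith
        · have g4 : i = 2 * N + 1 := by omega
          subst g4
          have g5 : ¬ (2 * N + 1 + 1 < 2 * N + 1) := by omega
          have g6 : ¬ (2 * N + 1 + 1 = 2 * N + 1) := by omega
          simp only [lt_irrefl, if_true, if_false, g5, g6]
          linarith
    · have g1 : ¬ (2 * N + 2 = 0) := by omega
      have g5 : ¬ (2 * N + 2 < 2 * N + 1) := by omega
      have g6 : ¬ (2 * N + 2 = 2 * N + 1) := by omega
      simp only [g1, g5, g6, if_false, if_true]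
    · rcases Nat.eq_zero_or_pos i with rfl | h
      · simp; linarith
      · have g1 : i ≠ 0 := by omega
        simp only [g1, if_false]
        split_ifs with g3 g4
        · rcases Nat.even_or_odd' i with ⟨j, rfl | rfl⟩
          · have e5 : p + 1 / 2 + ((2 * j : ℕ) : ℝ) / 2 = p + 1 / 2 + ((j : ℤ) : ℝ) := by
              push_cast; ring
            rw [e5, Even.neg_one_pow (even_two_mul j)]
            have := hq j
            have := h5 (p + 1 / 2 + ((j : ℤ) : ℝ))
            linarith
          · have e5 : p + 1 / 2 + ((2 * j + 1 : ℕ) : ℝ) / 2 = p + ((j + 1 : ℤ) : ℝ) := by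
              push_cast; ring
            rw [e5, Odd.neg_one_pow ⟨j, rfl⟩]
            have := hp (j + 1)
            have := h4 (p + ((j + 1 : ℤ) : ℝ))
            linarith
        · subst g4
          rw [h2 0 (by omega), pb_add_nat, Odd.neg_one_pow ⟨N, rfl⟩]
          linarith
        · have : i = 2 * N + 2 := by omega
          subst this
          rw [h2 0 (by omega), pb_add_nat, Even.neg_one_pow ⟨N + 1, by ring⟩]
          linarith

end Pool.Agent.Q31.SN
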