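import Pool.Agent.Q31.SN.Win

set_option autoImplicit false

/-! Crude bounds for the intermediate derivatives, and the final form of the comparison lemma. -/

open Set Filter Topology

namespace Pool.Agent.Q31.SN

/-- the value `|B_r| / r!` for even `r` -/
noncomputable def be (r : ℕ) : ℝ := (-1) ^ (r / 2 + 1) * (bernoulli r / (r.factorial : ℝ))

lemma be_eq {k : ℕ} (hk : k ≠ 0) : HasSum (fun n : ℕ => 1 / (n : ℝ) ^ (2 * k))
    (be (2 * k) * (2 ^ (2 * k - 1) * Real.pi ^ (2 * k))) := by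
  have h := hasSum_zeta_nat hk
  convert h using 1
  unfold be
  rw [Nat.mul_div_cancel_left _ (by norm_num : 0 < 2)]
  ring

lemma be_pos {r : ℕ} (hr : 0 < r) (hre : Even r) : 0 < be r := by
  obtain ⟨k, hk⟩ := hre
  have hk2 : r = 2 * k := by omega
  subst hk2
  have h := be_eq (k := k) (by omega)
  have h1 : 0 < be (2 * k) * (2 ^ (2 * k - 1) * Real.pi ^ (2 * k)) := by
    have h2 := h.tsum_eq
    rw [← h2]
    refine h.summable.tsum_pos (fun n => by positivity) 1 (by norm_num)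
  have h3 : (0 : ℝ) < 2 ^ (2 * k - 1) * Real.pi ^ (2 * k) := by positivity
  exact (mul_pos_iff_of_pos_right h3).1 h1

/-- a point where the derivative is small -/
lemma small_pt {r : ℕ} {F : ℕ → ℝ → ℝ} {K : ℝ} {A B : ℝ}
    (hF : ∀ k < r, ∀ x ∈ Icc A B, HasDerivAt (F k) (F (k + 1) x) x)
    (hK : ∀ x ∈ Icc A B, |F 0 x| ≤ K) :
    ∀ k < r, ∀ a, A ≤ a → a + ((2 : ℝ) ^ k - 1) ≤ B → ∃ ξ ∈ Icc a (a + ((2 : ℝ) ^ k - 1)), |F k ξ| ≤ 2 ^ k * K := by
  intro k
  induction k with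
  | zero =>
    intro _ a ha hb
    refine ⟨a, ⟨le_rfl, by norm_num⟩, ?_⟩
    have := hK a ⟨ha, by linarith⟩
    simpa using this
  | succ k ih =>
    intro hk a ha hb
    have h2k : (1 : ℝ) ≤ 2 ^ k := one_le_pow₀ (by norm_num)
    rw [pow_succ] at hb
    obtain ⟨x1, hx1, hy1⟩ := ih (by omega) a ha (by linarith)
    obtain ⟨x2, hx2, hy2⟩ := ih (by omega) (a + 2 ^ k) (by linarith) (by linarith)
    have h12 : x1 + 1 ≤ x2 := by linarith [hx1.2, hx2.1]
    obtain ⟨ξ, hξ, hξ2⟩ := exists_hasDerivAt_eq_slope (F k) (F (k + 1)) (show x1 < x2 by linarith)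
      (fun z hz => (hF k (by omega) z ⟨by linarith [hx1.1, hz.1], by linarith [hx2.2, hz.2]⟩).continuousAt.continuousWithinAt)
      (fun z hz => hF k (by omega) z ⟨by linarith [hx1.1, hz.1], by linarith [hx2.2, hz.2]⟩)
    refine ⟨ξ, ⟨by linarith [hx1.1, hξ.1], ?_⟩, ?_⟩
    · rw [pow_succ]; linarith [hx2.2, hξ.2]
    · rw [hξ2, abs_div, abs_of_pos (by linarith : 0 < x2 - x1), div_le_iff₀ (by linarith)]
      have h3 : |F k x2 - F k x1| ≤ 2 ^ k * K + 2 ^ k * K := (abs_sub _ _).trans (by linarith)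
      have h4 : 0 ≤ (2 : ℝ) ^ (k + 1) * K := by
        have := (abs_nonneg _).trans hy1
        rw [pow_succ]; nlinarith
      calc |F k x2 - F k x1| ≤ 2 ^ (k + 1) * K * 1 := by rw [pow_succ]; linarith
        _ ≤ 2 ^ (k + 1) * K * (x2 - x1) := mul_le_mul_of_nonneg_left (by linarith) h4

/-- crude bounds for all derivatives -/
lemma crude (r : ℕ) (hr : 1 ≤ r) (K : ℝ) (hK0 : 0 ≤ K) : ∀ j < r, ∃ C : ℝ, 0 ≤ C ∧ ∀ (F : ℕ → ℝ → ℝ) (R : ℝ),
    (∀ k < r, ∀ x : ℝ, |x| < R → HasDerivAt (F k) (F (k + 1) x) x) →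
    (∀ x : ℝ, |x| < R → |F 0 x| ≤ K) → (∀ x : ℝ, |x| < R → -1 ≤ F r x) →
    ∀ x : ℝ, |x| < R - (j + 1) * 2 ^ r → |F (r - 1 - j) x| ≤ C := by
  have h2r : (1 : ℝ) ≤ 2 ^ r := one_le_pow₀ (by norm_num)
  have hle : ∀ k < r, (2 : ℝ) ^ k ≤ 2 ^ r := fun k hk => pow_le_pow_right₀ (by norm_num) hk.le
  intro j
  induction j with
  | zero =>
    intro _
    refine ⟨2 ^ r * K + 2 ^ r, by positivity, fun F R hF hK hlow x hx => ?_⟩
    have hR : 2 ^ r < R := by
      have := abs_nonneg x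
      push_cast at hx
      linarith
    rw [Nat.sub_zero]
    push_cast at hx
    rw [zero_add, one_mul] at hx
    obtain ⟨hx1, hx2⟩ := abs_lt.1 hx
    have hle1 := hle (r - 1) (by omega)
    have hcl : ∀ z ∈ Icc (x - 2 ^ r) (x + 2 ^ r), |z| < R := by
      intro z hz
      rw [abs_lt]; constructor <;> linarith [hz.1, hz.2]
    have sp := small_pt (r := r) (F := F) (K := K) (A := x - 2 ^ r) (B := x + 2 ^ r)
      (fun k hk z hz => hF k hk z (hcl z hz)) (fun z hz => hK z (hcl z hz)) (r - 1) (by omega)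
    obtain ⟨a, ha, ha2⟩ := sp (x - (2 ^ (r - 1) - 1)) (by linarith) (by linarith)
    obtain ⟨b, hb, hb2⟩ := sp x (by linarith) (by linarith)
    have e1 : r - 1 + 1 = r := by omega
    -- monotonicity of F (r-1) + x
    have mono : MonotoneOn (fun z => F (r - 1) z + z) (Icc (x - 2 ^ r) (x + 2 ^ r)) := by
      refine monotoneOn_of_deriv_nonneg (convex_Icc _ _) ?_ ?_ ?_
      · intro z hz
        have h1 := hF (r - 1) (by omega) z (hcl z hz)
        exact (h1.add (hasDerivAt_id z)).continuousAt.continuousWithinAt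
      · intro z hz
        have h1 := hF (r - 1) (by omega) z (hcl z (interior_subset hz))
        exact (h1.add (hasDerivAt_id z)).differentiableAt.differentiableWithinAt
      · intro z hz
        have h1 := hF (r - 1) (by omega) z (hcl z (interior_subset hz))
        have h2 : deriv (fun z => F (r - 1) z + z) z = F (r - 1 + 1) z + 1 := (h1.add (hasDerivAt_id z)).deriv
        rw [h2, e1]
        linarith [hlow z (hcl z (interior_subset hz))]
    have hb2r : (0 : ℝ) ≤ 2 ^ (r - 1) := by positivity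
    have m1 := mono (a := a) (b := x) ⟨by linarith [ha.1], by linarith [ha.2]⟩ ⟨by linarith, by linarith⟩ (by linarith [ha.2])
    have m2 := mono (a := x) (b := b) ⟨by linarith, by linarith⟩ ⟨by linarith [hb.1], by linarith [hb.2]⟩ hb.1
    simp only at m1 m2
    obtain ⟨a3, a4⟩ := abs_le.1 ha2
    obtain ⟨b3, b4⟩ := abs_le.1 hb2
    have hKK : (2 : ℝ) ^ (r - 1) * K ≤ 2 ^ r * K := mul_le_mul_of_nonneg_right hle1 hK0
    rw [abs_le]
    constructor <;> linarith [ha.1, ha.2, hb.1, hb.2]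
  | succ j ih =>
    intro hj
    obtain ⟨C, hC, h⟩ := ih (by omega)
    refine ⟨2 ^ r * K + C * 2 ^ r, by positivity, fun F R hF hK hlow x hx => ?_⟩
    push_cast at hx
    have hIH := h F R hF hK hlow
    obtain ⟨hx1, hx2⟩ := abs_lt.1 hx
    set k := r - 1 - (j + 1) with hk
    have ek : r - 1 - j = k + 1 := by omega
    rw [ek] at hIH
    have hle1 := hle k (by omega)
    have hj0 : (0 : ℝ) ≤ (j + 1) * 2 ^ r := by positivity
    have hcl : ∀ z ∈ Icc (x - 2 ^ r) (x + 2 ^ r), |z| < R := by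
      intro z hz
      rw [abs_lt]; constructor <;> linarith [hz.1, hz.2]
    have hcl2 : ∀ z ∈ Icc (x - 2 ^ r) (x + 2 ^ r), |z| < R - (j + 1) * 2 ^ r := by
      intro z hz
      rw [abs_lt]; constructor <;> linarith [hz.1, hz.2]
    obtain ⟨a, ha, ha2⟩ := small_pt (r := r) (F := F) (K := K) (A := x - 2 ^ r) (B := x + 2 ^ r)
      (fun k hk z hz => hF k hk z (hcl z hz)) (fun z hz => hK z (hcl z hz)) k (by omega)
      (x - (2 ^ k - 1)) (by linarith) (by linarith)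
    have h2k : (0 : ℝ) ≤ 2 ^ k := by positivity
    have mv : |F k x - F k a| ≤ C * |x - a| := by
      have := (convex_Icc (x - 2 ^ r) (x + 2 ^ r)).norm_image_sub_le_of_norm_hasDerivWithin_le
        (f := F k) (f' := F (k + 1)) (C := C)
        (fun z hz => (hF k (by omega) z (hcl z hz)).hasDerivWithinAt)
        (fun z hz => by rw [Real.norm_eq_abs]; exact hIH z (hcl2 z hz))
        (show a ∈ Icc (x - 2 ^ r) (x + 2 ^ r) from ⟨by linarith [ha.1], by linarith [ha.2]⟩)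
        (show x ∈ Icc (x - 2 ^ r) (x + 2 ^ r) from ⟨by linarith, by linarith⟩)
      rwa [Real.norm_eq_abs, Real.norm_eq_abs] at this
    have hxa : |x - a| ≤ 2 ^ r := by
      rw [abs_le]; constructor <;> linarith [ha.1, ha.2]
    have hKK : (2 : ℝ) ^ k * K ≤ 2 ^ r * K := mul_le_mul_of_nonneg_right hle1 hK0
    have hCC : C * |x - a| ≤ C * 2 ^ r := mul_le_mul_of_nonneg_left hxa hC
    have := abs_sub_abs_le_abs_sub (F k x) (F k a)
    linarith

/-- **the comparison lemma, final form** -/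
theorem final_compare {r : ℕ} (hr : 4 ≤ r) (hre : Even r) {ε : ℝ} (hε : 0 < ε) (hε1 : ε ≤ 1) :
    ∃ R : ℝ, 0 < R ∧ ∀ (F : ℕ → ℝ → ℝ),
      (∀ k < r, ∀ x : ℝ, |x| < R → HasDerivAt (F k) (F (k + 1) x) x) →
      (∀ x : ℝ, |x| < R → -(1 - ε) ≤ F r x) →
      (∀ x : ℝ, |x| < R → -((1 - 2 / 2 ^ r) * be r) < (-1) ^ (r / 2) * F 0 x ∧ (-1) ^ (r / 2) * F 0 x < be r) →
      F 1 0 ≤ -(bm (r - 1) / ((r - 1).factorial : ℝ)) ∧ -(bM (r - 1) / ((r - 1).factorial : ℝ)) ≤ F 1 0 := by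
  have hbe := be_pos (r := r) (by omega) hre
  have h2r : (16 : ℝ) ≤ 2 ^ r := by
    calc (16 : ℝ) = 2 ^ 4 := by norm_num
      _ ≤ 2 ^ r := pow_le_pow_right₀ (by norm_num) hr
  have hq0 : (2 : ℝ) / 2 ^ r ≤ 1 / 8 := by
    rw [div_le_div_iff₀ (by positivity) (by norm_num)]; linarith
  have hq1 : (0 : ℝ) < 2 / 2 ^ r := by positivity
  have hcr := crude r (by omega) (be r) hbe.le
  choose! C hC0 hC using hcr
  set B := ∑ j ∈ Finset.range r, C j with hB
  have hB0 : 0 ≤ B := Finset.sum_nonneg fun j hj => hC0 j (Finset.mem_range.1 hj)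
  obtain ⟨N, hN, hwin⟩ := window hr hre hε hε1 hB0
  refine ⟨N / 2 + r * 2 ^ r, by positivity, fun F hF hlow hrange => ?_⟩
  have hr0 : (0 : ℝ) ≤ r * 2 ^ r := by positivity
  have hin : ∀ x : ℝ, |x| < (N : ℝ) / 2 → |x| < N / 2 + r * 2 ^ r := fun x hx => by linarith
  have hsgn : ((-1 : ℝ) ^ (r / 2) = 1 ∧ (-1 : ℝ) ^ (r / 2 + 1) = -1) ∨
      ((-1 : ℝ) ^ (r / 2) = -1 ∧ (-1 : ℝ) ^ (r / 2 + 1) = 1) := by
    rcases Nat.even_or_odd (r / 2) with h | h
    · left; exact ⟨h.neg_one_pow, (Even.add_one h).neg_one_pow⟩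
    · right; exact ⟨h.neg_one_pow, (Odd.add_one h).neg_one_pow⟩
  have hK : ∀ x : ℝ, |x| < N / 2 + r * 2 ^ r → |F 0 x| ≤ be r := by
    intro x hx
    obtain ⟨h1, h2⟩ := hrange x hx
    have h3 : (1 - 2 / 2 ^ r) * be r ≤ be r := by nlinarith
    rcases hsgn with ⟨e, _⟩ | ⟨e, _⟩
    · rw [e, one_mul] at h1 h2
      rw [abs_le]; constructor <;> linarith
    · rw [e] at h1 h2
      rw [abs_le]; constructor <;> linarith
  have hlow1 : ∀ x : ℝ, |x| < N / 2 + r * 2 ^ r → -1 ≤ F r x := fun x hx => by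
    linarith [hlow x hx]
  have hFB : ∀ k < r, ∀ x : ℝ, |x| < (N : ℝ) / 2 → |F k x| ≤ B := by
    intro k hk x hx
    have h1 := hC (r - 1 - k) (by omega) F _ hF hK hlow1 x (by
      have : ((r - 1 - k : ℕ) : ℝ) + 1 ≤ r := by
        have : r - 1 - k + 1 ≤ r := by omega
        exact_mod_cast this
      have h2 : (((r - 1 - k : ℕ) : ℝ) + 1) * 2 ^ r ≤ r * 2 ^ r :=
        mul_le_mul_of_nonneg_right this (by positivity)
      linarith)
    rw [show r - 1 - (r - 1 - k) = k by omega] at h1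
    exact h1.trans (Finset.single_le_sum (f := C) (fun i hi => hC0 i (Finset.mem_range.1 hi))
      (Finset.mem_range.2 (by omega)))
  have hint : ∀ m : ℤ, -pb r m = (-1) ^ (r / 2) * be r := by
    intro m
    rw [pb_int]
    unfold be
    rcases hsgn with ⟨e1, e2⟩ | ⟨e1, e2⟩ <;> rw [e1, e2] <;> ring
  have hhalf : ∀ m : ℤ, -pb r (1 / 2 + m) = -((-1) ^ (r / 2) * ((1 - 2 / 2 ^ r) * be r)) := by
    intro m
    rw [pb_half]
    unfold be
    rcases hsgn with ⟨e1, e2⟩ | ⟨e1, e2⟩ <;> rw [e1, e2] <;> ring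
  have main : (∃ y, F 1 0 ≤ -pb (r - 1) y) ∧ ∃ y, -pb (r - 1) y ≤ F 1 0 := by
    have hb1 : 0 < (1 - 2 / 2 ^ r) * be r := mul_pos (by linarith) hbe
    rcases hsgn with ⟨e, _⟩ | ⟨e, _⟩
    · refine hwin F (1 / 2) (-((1 - 2 / 2 ^ r) * be r)) (be r) (by linarith) hbe (fun k => ?_) (fun k => ?_)
        (fun k hk x hx => hF k hk x (hin x hx)) hFB (fun x hx => hlow x (hin x hx)) (fun x hx => ?_)
      · rw [hhalf, e, one_mul]
      · have e5 : (1 / 2 + 1 / 2 + (k : ℝ)) = ((k + 1 : ℤ) : ℝ) := by push_cast; ring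
        rw [e5, hint, e, one_mul]
      · have := hrange x (hin x hx)
        rw [e, one_mul] at this
        exact this
    · refine hwin F 0 (-(be r)) ((1 - 2 / 2 ^ r) * be r) (by linarith) hb1 (fun k => ?_) (fun k => ?_)
        (fun k hk x hx => hF k hk x (hin x hx)) hFB (fun x hx => hlow x (hin x hx)) (fun x hx => ?_)
      · rw [zero_add, hint, e]; ring
      · rw [zero_add, hhalf, e]; ring
      · have := hrange x (hin x hx)
        rw [e] at this
        constructor <;> linarith [this.1, this.2]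
  obtain ⟨⟨y, hy⟩, ⟨z, hz⟩⟩ := main
  constructor
  · have := le_pb (r - 1) y
    linarith
  · have := pb_le (r - 1) z
    linarith

end Pool.Agent.Q31.SN
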