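import Pool.Agent.Q31.SN.Rl

set_option autoImplicit false

/-! The limits at the real axis and the constants `δ_n`. -/

open Complex Filter Topology Set MeasureTheory

namespace Pool.Agent.Q31.SN

/-- iterated integrals of `log|ζ|` along the real line -/
noncomputable def JJ : ℕ → ℝ → ℝ
  | 0, σ => Real.log ‖riemannZeta σ‖
  | k + 1, σ => ∫ x : ℝ in Ioi σ, JJ k x

/-- truncated powers -/
noncomputable def pw : ℕ → ℝ → ℝ
  | 0, σ => if σ < 1 then 1 else 0
  | k + 1, σ => (max (1 - σ) 0) ^ (k + 1) / ((k + 1).factorial : ℝ)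

lemma pw_int (k : ℕ) (σ : ℝ) : ∫ x : ℝ in Ioi σ, pw k x = pw (k + 1) σ := by
  rcases le_or_gt 1 σ with h | h
  · have h1 : pw (k + 1) σ = 0 := by
      show (max (1 - σ) 0) ^ (k + 1) / ((k + 1).factorial : ℝ) = 0
      rw [max_eq_right (by linarith)]
      simp
    rw [h1]
    have h2 : ∀ x ∈ Ioi σ, pw k x = 0 := by
      intro x hx
      have hx1 : σ < x := hx
      rcases k with _ | k
      · show (if x < 1 then (1 : ℝ) else 0) = 0
        rw [if_neg (by linarith)]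
      · show (max (1 - x) 0) ^ (k + 1) / ((k + 1).factorial : ℝ) = 0
        rw [max_eq_right (by linarith)]
        simp
    rw [setIntegral_congr_fun measurableSet_Ioi h2]
    simp
  · rcases k with _ | k
    · have h1 : ∫ x : ℝ in Ioi σ, pw 0 x = ∫ x : ℝ in Ioo σ 1, pw 0 x := by
        refine setIntegral_eq_of_subset_of_forall_sdiff_eq_zero measurableSet_Ioi Ioo_subset_Ioi_self fun x hx => ?_
        show (if x < 1 then (1 : ℝ) else 0) = 0
        rw [if_neg]
        intro hx1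
        exact hx.2 ⟨hx.1, hx1⟩
      have h2 : ∫ x : ℝ in Ioo σ 1, pw 0 x = ∫ x : ℝ in Ioo σ 1, (1 : ℝ) := by
        refine setIntegral_congr_fun measurableSet_Ioo fun x hx => ?_
        show (if x < 1 then (1 : ℝ) else 0) = 1
        rw [if_pos hx.2]
      rw [h1, h2]
      show _ = (max (1 - σ) 0) ^ (0 + 1) / ((0 + 1).factorial : ℝ)
      rw [max_eq_left (by linarith)]
      simp
      linarith
    · have h1 : ∫ x : ℝ in Ioi σ, pw (k + 1) x = ∫ x : ℝ in Ioc σ 1, pw (k + 1) x := by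
        refine setIntegral_eq_of_subset_of_forall_sdiff_eq_zero measurableSet_Ioi Ioc_subset_Ioi_self fun x hx => ?_
        show (max (1 - x) 0) ^ (k + 1) / ((k + 1).factorial : ℝ) = 0
        have hx1 : 1 < x := by
          by_contra hcon
          exact hx.2 ⟨hx.1, not_lt.1 hcon⟩
        rw [max_eq_right (by linarith)]
        simp
      have h2 : ∫ x : ℝ in Ioc σ 1, pw (k + 1) x = ∫ x : ℝ in Ioc σ 1, (1 - x) ^ (k + 1) / ((k + 1).factorial : ℝ) := by
        refine setIntegral_congr_fun measurableSet_Ioc fun x hx => ?_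
        show (max (1 - x) 0) ^ (k + 1) / ((k + 1).factorial : ℝ) = (1 - x) ^ (k + 1) / ((k + 1).factorial : ℝ)
        rw [max_eq_left (by linarith [hx.2])]
      rw [h1, h2, ← intervalIntegral.integral_of_le h.le, intervalIntegral.integral_div,
        intervalIntegral.integral_comp_sub_left (fun x : ℝ => x ^ (k + 1)) 1, integral_pow]
      show _ = (max (1 - σ) 0) ^ (k + 1 + 1) / ((k + 1 + 1).factorial : ℝ)
      rw [max_eq_left (by linarith), Nat.factorial_succ (k + 1)]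
      have : ((k + 1).factorial : ℝ) ≠ 0 := by exact_mod_cast (k + 1).factorial_ne_zero
      push_cast
      field_simp
      simp

/-- the limit functions -/
noncomputable def LL (k : ℕ) (x : ℝ) : ℂ := ((-(JJ k x) : ℝ) : ℂ) + ((Real.pi * pw k x : ℝ) : ℂ) * I

lemma LL_re (k : ℕ) (x : ℝ) : (LL k x).re = -(JJ k x) := by
  unfold LL; simp

lemma LL_im (k : ℕ) (x : ℝ) : (LL k x).im = Real.pi * pw k x := by
  unfold LL; simp

lemma R_shift (φ : ℂ → ℂ) (σ τ : ℝ) : R φ (σ + τ * I) = ∫ x : ℝ in Ioi σ, φ ((x : ℂ) + τ * I) := by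
  have h := ioi_shift (fun x : ℝ => φ ((x : ℂ) + τ * I)) 0 σ
  rw [add_zero] at h
  rw [← h]
  unfold R
  congr 1
  funext u
  congr 1
  push_cast
  ring

/-- the base case -/
lemma base_lim (RH : RiemannHypothesis) {σ : ℝ} (hσ : 1 / 2 < σ) (hσ1 : σ ≠ 1) :
    Tendsto (fun τ : ℝ => Wk gz 1 (σ + τ * I)) (𝓝[>] 0) (𝓝 (LL 0 σ)) := by
  have hpt : Tendsto (fun τ : ℝ => (σ + τ * I : ℂ)) (𝓝[>] 0) (𝓝 (σ : ℂ)) := by
    have : ContinuousAt (fun τ : ℝ => (σ + τ * I : ℂ)) 0 := by fun_prop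
    have h3 := this.tendsto
    simp only [Complex.ofReal_zero, zero_mul, add_zero] at h3
    exact h3.mono_left nhdsWithin_le_nhds
  have hne : (σ : ℂ) ≠ 1 := by
    intro h
    exact hσ1 (by exact_mod_cast h)
  -- real part
  have hre : Tendsto (fun τ : ℝ => (Wk gz 1 (σ + τ * I)).re) (𝓝[>] 0) (𝓝 (-(JJ 0 σ))) := by
    have h1 : Tendsto (fun τ : ℝ => -Real.log ‖riemannZeta (σ + τ * I)‖) (𝓝[>] 0) (𝓝 (-Real.log ‖riemannZeta σ‖)) := by
      have h2 : Tendsto (fun τ : ℝ => ‖riemannZeta (σ + τ * I)‖) (𝓝[>] 0) (𝓝 ‖riemannZeta σ‖) :=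
        ((differentiableAt_riemannZeta hne).continuousAt.tendsto.comp hpt).norm
      exact (h2.log (norm_ne_zero_iff.2 (zeta_ne RH (by simpa using hσ)))).neg
    refine h1.congr' ?_
    filter_upwards [self_mem_nhdsWithin] with τ hτ
    exact (V0_re RH (rpt_Om hσ hτ)).symm
  -- imaginary part
  have him : Tendsto (fun τ : ℝ => (Wk gz 1 (σ + τ * I)).im) (𝓝[>] 0) (𝓝 (Real.pi * pw 0 σ)) := by
    have h1 := UU_im_lim RH hσ
    have h2 : Tendsto (fun τ : ℝ => ((σ + τ * I : ℂ) - 1).arg) (𝓝[>] 0) (𝓝 (Real.pi * pw 0 σ)) := by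
      have h3 : Tendsto (fun τ : ℝ => (σ + τ * I : ℂ) - 1) (𝓝[>] 0) (𝓝 ((σ : ℂ) - 1)) := hpt.sub_const 1
      rcases lt_or_gt_of_ne hσ1 with h | h
      · have e : Real.pi * pw 0 σ = Real.pi := by
          show Real.pi * (if σ < 1 then (1 : ℝ) else 0) = Real.pi
          rw [if_pos h, mul_one]
        rw [e]
        have h4 := Complex.tendsto_arg_nhdsWithin_im_nonneg_of_re_neg_of_im_zero (z := (σ : ℂ) - 1)
          (by simp; linarith) (by simp)
        refine h4.comp (tendsto_nhdsWithin_iff.2 ⟨h3, ?_⟩)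
        filter_upwards [self_mem_nhdsWithin] with τ hτ
        show 0 ≤ ((σ + τ * I : ℂ) - 1).im
        simp
        exact le_of_lt hτ
      · have e : Real.pi * pw 0 σ = ((σ : ℂ) - 1).arg := by
          show Real.pi * (if σ < 1 then (1 : ℝ) else 0) = _
          rw [if_neg (by linarith), mul_zero]
          have : ((σ : ℂ) - 1) = ((σ - 1 : ℝ) : ℂ) := by push_cast; ring
          rw [this, Complex.arg_ofReal_of_nonneg (by linarith)]
        rw [e]
        refine (Complex.continuousAt_arg ?_).tendsto.comp h3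
        left
        simp
        linarith
    have h3 := h1.add h2
    rw [zero_add] at h3
    refine h3.congr fun τ => ?_
    unfold UU
    simp [Complex.log_im]
  have h1 := (Complex.continuous_ofReal.tendsto _).comp hre
  have h2 := ((Complex.continuous_ofReal.tendsto _).comp him).mul_const I
  have h3 := h1.add h2
  refine h3.congr fun τ => ?_
  exact Complex.re_add_im _

/-- a common form of the envelopes -/
lemma Wk_dom (RH : RiemannHypothesis) (k : ℕ) : ∃ B : ℝ → ℝ, IntegrableOn B (Ioi (1 / 2)) ∧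
    ∀ s ∈ Om, s.im ≤ 1 → s.re ≠ 1 → ‖Wk gz (k + 1) s‖ ≤ B s.re := by
  rcases k with _ | k
  · obtain ⟨C, hC, h⟩ := V0_env RH 1
    exact ⟨env C, env_int C, h⟩
  · obtain ⟨C, hC, h⟩ := Wk_decay RH 1 k
    refine ⟨fun σ => C * Real.exp (-(σ / 2)),
      (exp_half_int.1.mono_set (Ioi_subset_Ioi (by norm_num))).const_mul C, fun s hs h1 _ => h s hs.1.le hs.2 h1⟩

/-- one step -/
lemma step_lim (RH : RiemannHypothesis) {k : ℕ}
    (hk : ∀ σ : ℝ, 1 / 2 < σ → σ ≠ 1 → Tendsto (fun τ : ℝ => Wk gz (k + 1) (σ + τ * I)) (𝓝[>] 0) (𝓝 (LL k σ)))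
    {σ : ℝ} (hσ : 1 / 2 ≤ σ) :
    Tendsto (fun τ : ℝ => Wk gz (k + 2) (σ + τ * I)) (𝓝[>] 0) (𝓝 (LL (k + 1) σ)) := by
  obtain ⟨B, hB, hbd⟩ := Wk_dom RH k
  have hBσ : IntegrableOn B (Ioi σ) := hB.mono_set (Ioi_subset_Ioi hσ)
  have hcont : ∀ τ : ℝ, 0 < τ → ContinuousOn (fun x : ℝ => Wk gz (k + 1) ((x : ℂ) + τ * I)) (Ioi σ) := by
    intro τ hτ
    refine (Dk_Wk (Dk_gz RH) (k + 1)).1.continuousOn.comp (by fun_prop) fun x hx => ?_
    exact rpt_Om (hσ.trans_lt hx) hτ
  have hbd2 : ∀ τ : ℝ, 0 < τ → τ ≤ 1 → ∀ᵐ x : ℝ ∂volume.restrict (Ioi σ), ‖Wk gz (k + 1) ((x : ℂ) + τ * I)‖ ≤ B x := by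
    intro τ hτ hτ1
    filter_upwards [ae_restrict_mem measurableSet_Ioi, ae_ne_ioi σ 1] with x hx hx1
    have h1 := hbd ((x : ℂ) + τ * I) (rpt_Om (hσ.trans_lt hx) hτ) (by simpa using hτ1) (by simpa using hx1)
    simpa using h1
  have hlim : ∀ᵐ x : ℝ ∂volume.restrict (Ioi σ),
      Tendsto (fun τ : ℝ => Wk gz (k + 1) ((x : ℂ) + τ * I)) (𝓝[>] 0) (𝓝 (LL k x)) := by
    filter_upwards [ae_restrict_mem measurableSet_Ioi, ae_ne_ioi σ 1] with x hx hx1
    exact hk x (hσ.trans_lt hx) hx1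
  -- the limit is integrable
  have hseq : Tendsto (fun n : ℕ => (1 : ℝ) / ((n : ℝ) + 1)) atTop (𝓝[>] 0) := by
    refine tendsto_nhdsWithin_iff.2 ⟨tendsto_one_div_add_atTop_nhds_zero_nat, Eventually.of_forall fun n => ?_⟩
    show (0 : ℝ) < 1 / ((n : ℝ) + 1)
    positivity
  have hLint : IntegrableOn (LL k) (Ioi σ) := by
    have hm : AEStronglyMeasurable (LL k) (volume.restrict (Ioi σ)) := by
      refine aestronglyMeasurable_of_tendsto_ae atTop (f := fun n : ℕ => fun x : ℝ => Wk gz (k + 1) ((x : ℂ) + ((1 / ((n : ℝ) + 1) : ℝ) : ℂ) * I)) (fun n => ?_) ?_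
      · exact (hcont _ (by positivity)).aestronglyMeasurable measurableSet_Ioi
      · filter_upwards [hlim] with x hx
        exact hx.comp hseq
    refine hBσ.mono' hm ?_
    have hall : ∀ᵐ x : ℝ ∂volume.restrict (Ioi σ), ∀ n : ℕ, ‖Wk gz (k + 1) ((x : ℂ) + ((1 / ((n : ℝ) + 1) : ℝ) : ℂ) * I)‖ ≤ B x := by
      rw [ae_all_iff]
      intro n
      refine hbd2 _ (by positivity) ?_
      rw [div_le_one (by positivity)]
      have : (0 : ℝ) ≤ n := Nat.cast_nonneg n
      linarith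
    filter_upwards [hlim, hall] with x hx hx2
    exact le_of_tendsto (hx.comp hseq).norm (Eventually.of_forall hx2)
  have h1 : Tendsto (fun τ : ℝ => ∫ x : ℝ in Ioi σ, Wk gz (k + 1) ((x : ℂ) + τ * I)) (𝓝[>] 0)
      (𝓝 (∫ x : ℝ in Ioi σ, LL k x)) := by
    refine tendsto_integral_filter_of_dominated_convergence B ?_ ?_ hBσ hlim
    · filter_upwards [self_mem_nhdsWithin] with τ hτ
      exact (hcont τ hτ).aestronglyMeasurable measurableSet_Ioi
    · rw [← nhdsWithin_Ioc_eq_nhdsGT zero_lt_one]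
      filter_upwards [self_mem_nhdsWithin] with τ hτ
      exact hbd2 τ hτ.1 hτ.2
  have h2 : ∫ x : ℝ in Ioi σ, LL k x = LL (k + 1) σ := by
    apply Complex.ext
    · have e1 : (∫ x : ℝ in Ioi σ, LL k x).re = ∫ x : ℝ in Ioi σ, (LL k x).re := (integral_re hLint).symm
      rw [e1, LL_re]
      simp_rw [LL_re]
      rw [integral_neg]
      rfl
    · have e1 : (∫ x : ℝ in Ioi σ, LL k x).im = ∫ x : ℝ in Ioi σ, (LL k x).im := (integral_im hLint).symm
      rw [e1, LL_im]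
      simp_rw [LL_im]
      rw [integral_const_mul, pw_int]
  rw [h2] at h1
  refine h1.congr fun τ => ?_
  exact (R_shift (Wk gz (k + 1)) σ τ).symm

theorem real_lim (RH : RiemannHypothesis) (k : ℕ) :
    ∀ σ : ℝ, 1 / 2 < σ → σ ≠ 1 → Tendsto (fun τ : ℝ => Wk gz (k + 1) (σ + τ * I)) (𝓝[>] 0) (𝓝 (LL k σ)) := by
  induction k with
  | zero => exact fun σ h1 h2 => base_lim RH h1 h2
  | succ k ih => exact fun σ h1 _ => step_lim RH ih h1.le

/-- the constants -/
noncomputable def dl (n : ℕ) : ℝ :=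
  if Even n then (-1) ^ (n / 2 - 1) / ((n.factorial : ℝ) * 2 ^ n)
  else (-1) ^ ((n - 1) / 2) / Real.pi * JJ n (1 / 2)

/-- **the constants of integration** -/
theorem fk0_lim (RH : RiemannHypothesis) (k : ℕ) :
    Tendsto (fk (k + 2) 0) (𝓝[>] 0) (𝓝 (dl (k + 1))) := by
  have h1 := step_lim RH (real_lim RH k) (le_refl (1 / 2 : ℝ))
  have h2 := (Complex.continuous_im.tendsto _).comp (h1.const_mul (I ^ (k + 2 + 1)))
  have h3 := h2.const_mul (1 / Real.pi)
  have e : 1 / Real.pi * (I ^ (k + 2 + 1) * LL (k + 1) (1 / 2)).im = dl (k + 1) := by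
    have hpi := Real.pi_ne_zero
    have hpw : pw (k + 1) (1 / 2) = (1 / 2) ^ (k + 1) / ((k + 1).factorial : ℝ) := by
      show (max (1 - 1 / 2) 0) ^ (k + 1) / ((k + 1).factorial : ℝ) = _
      norm_num
    unfold dl
    rcases Nat.even_or_odd (k + 1) with h | h
    · rw [if_pos h]
      obtain ⟨j, hj⟩ := h
      have hj1 : 1 ≤ j := by omega
      have e1 : (k + 1) / 2 - 1 = j - 1 := by omega
      have e2 : (I : ℂ) ^ (k + 2 + 1) = (((-1 : ℝ) ^ (j + 1) : ℝ) : ℂ) := by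
        rw [show k + 2 + 1 = 2 * (j + 1) by omega, pow_mul, I_sq]
        push_cast; ring
      rw [e1, e2, Complex.im_ofReal_mul, LL_im, hpw]
      have e3 : (-1 : ℝ) ^ (j + 1) = (-1) ^ (j - 1) := by
        rw [show j + 1 = (j - 1) + 2 by omega, pow_add]; norm_num
      rw [e3, one_div_pow]
      have : ((k + 1).factorial : ℝ) ≠ 0 := by exact_mod_cast (k + 1).factorial_ne_zero
      field_simp
    · rw [if_neg (Nat.not_even_iff_odd.2 h)]
      obtain ⟨j, hj⟩ := h
      have e1 : (k + 1 - 1) / 2 = j := by omega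
      have e2 : (I : ℂ) ^ (k + 2 + 1) = (((-1 : ℝ) ^ (j + 1) : ℝ) : ℂ) * I := by
        rw [show k + 2 + 1 = 2 * (j + 1) + 1 by omega, pow_succ, pow_mul, I_sq]
        push_cast; ring
      rw [e1, e2, mul_assoc, Complex.im_ofReal_mul, Complex.I_mul_im, LL_re]
      rw [pow_succ]
      ring
  rw [e] at h3
  refine h3.congr fun τ => ?_
  unfold fk
  simp only [Function.comp]
  congr 3
  push_cast
  ring_nf

end Pool.Agent.Q31.SN
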