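import Pool.Agent.Q31.SN.Loc

set_option autoImplicit false

/-! Integrable envelopes for the iterates, up to the critical line and the real axis. -/

open Complex Filter Topology Set MeasureTheory

namespace Pool.Agent.Q31.SN

lemma ioi_pre (a c : ℝ) : (fun u : ℝ => c + u) ⁻¹' Ioi (c + a) = Ioi a := by
  ext u; simp

lemma ioi_shift {E : Type*} [NormedAddCommGroup E] [NormedSpace ℝ E] (f : ℝ → E) (a c : ℝ) :
    ∫ u : ℝ in Ioi a, f (c + u) = ∫ x : ℝ in Ioi (c + a), f x := by
  have h := (measurePreserving_add_left volume c).setIntegral_preimage_emb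
    (measurableEmbedding_addLeft c) f (Ioi (c + a))
  rw [ioi_pre] at h
  exact h

lemma ioi_shift_int {E : Type*} [NormedAddCommGroup E] (f : ℝ → E) (a c : ℝ) :
    IntegrableOn (fun u : ℝ => f (c + u)) (Ioi a) ↔ IntegrableOn f (Ioi (c + a)) := by
  have h := (measurePreserving_add_left volume c).integrableOn_comp_preimage
    (measurableEmbedding_addLeft c) (f := f) (s := Ioi (c + a))
  rw [ioi_pre] at h
  exact h

/-- the envelope -/
noncomputable def env (C σ : ℝ) : ℝ :=
  (Iic (3 : ℝ)).indicator (fun σ => C * (1 + |Real.log (σ - 1 / 2)| + |Real.log (σ - 1)|)) σ +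
    C * Real.exp (-(σ / 2))

lemma env_int (C : ℝ) : IntegrableOn (env C) (Ioi (1 / 2)) := by
  have h1 : IntegrableOn (fun σ : ℝ => C * (1 + |Real.log (σ - 1 / 2)| + |Real.log (σ - 1)|)) (Ioc (1 / 2) 3) := by
    rw [← intervalIntegrable_iff_integrableOn_Ioc_of_le (by norm_num)]
    have a1 : IntervalIntegrable (fun σ : ℝ => Real.log (σ - 1 / 2)) volume (1 / 2) 3 := by
      have := (intervalIntegral.intervalIntegrable_log' (a := 0) (b := 3 - 1 / 2)).comp_sub_right (1 / 2)
      have e1 : (0 : ℝ) + 1 / 2 = 1 / 2 := by norm_num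
      have e2 : (3 : ℝ) - 1 / 2 + 1 / 2 = 3 := by norm_num
      rw [e1, e2] at this
      exact this
    have a2 : IntervalIntegrable (fun σ : ℝ => Real.log (σ - 1)) volume (1 / 2) 3 := by
      have := (intervalIntegral.intervalIntegrable_log' (a := -(1 / 2)) (b := 2)).comp_sub_right 1
      have e1 : (-(1 / 2) : ℝ) + 1 = 1 / 2 := by norm_num
      have e2 : (2 : ℝ) + 1 = 3 := by norm_num
      rw [e1, e2] at this
      exact this
    exact (((intervalIntegrable_const (c := (1 : ℝ))).add a1.abs).add a2.abs).const_mul C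
  have h2 : IntegrableOn ((Iic (3 : ℝ)).indicator (fun σ => C * (1 + |Real.log (σ - 1 / 2)| + |Real.log (σ - 1)|))) (Ioi (1 / 2)) := by
    rw [IntegrableOn, integrable_indicator_iff measurableSet_Iic, IntegrableOn,
      Measure.restrict_restrict measurableSet_Iic]
    have : Iic (3 : ℝ) ∩ Ioi (1 / 2) = Ioc (1 / 2) 3 := by ext x; simp [and_comm]
    rw [this]; exact h1
  have h3 : IntegrableOn (fun σ : ℝ => C * Real.exp (-(σ / 2))) (Ioi (1 / 2)) :=
    (exp_half_int.1.mono_set (Ioi_subset_Ioi (by norm_num))).const_mul C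
  exact h2.add h3

lemma env_nonneg {C : ℝ} (hC : 0 ≤ C) (σ : ℝ) : 0 ≤ env C σ := by
  unfold env
  refine add_nonneg (indicator_nonneg (fun x _ => by positivity) _) (by positivity)

lemma R_decay {φ : ℂ → ℂ} {s : ℂ} {C : ℝ} (h : ∀ u : ℝ, 0 < u → ‖φ (s + u)‖ ≤ C * Real.exp (-((s.re + u) / 2))) :
    ‖R φ s‖ ≤ 2 * C * Real.exp (-(s.re / 2)) := by
  unfold R
  refine (norm_integral_le_of_norm_le (exp_half_int.1.const_mul (C * Real.exp (-(s.re / 2)))) ?_).trans ?_
  · filter_upwards [ae_restrict_mem measurableSet_Ioi] with u hu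
    refine (h u hu).trans (le_of_eq ?_)
    rw [mul_assoc, ← Real.exp_add]
    congr 2; ring
  · rw [integral_const_mul, exp_half_int.2]
    exact le_of_eq (by ring)

lemma V0_far : ∃ C : ℝ, 0 < C ∧ ∀ s : ℂ, 2 ≤ s.re → ‖Wk gz 1 s‖ ≤ C * Real.exp (-(s.re / 2)) := by
  obtain ⟨C, hC, h⟩ := gz_decay
  refine ⟨2 * C, by positivity, fun s hs => ?_⟩
  refine R_decay (φ := gz) fun u hu => ?_
  have h1 := h (s + u) (by simp; linarith)
  simpa using h1

lemma V0_im (RH : RiemannHypothesis) (T : ℝ) : ∃ C : ℝ, 0 ≤ C ∧ ∀ s ∈ Om, s.im ≤ T → |(Wk gz 1 s).im| ≤ C := by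
  obtain ⟨C1, hC1, h1⟩ := strip RH T
  obtain ⟨C2, hC2, h2⟩ := V0_far
  refine ⟨C1 + Real.pi + C2, by positivity, fun s hs hT => ?_⟩
  rcases le_total s.re 3 with h | h
  · have h3 := (h1 s hs h hT).1
    have e : (Wk gz 1 s).im = (UU s).im + (s - 1).arg := by
      unfold UU; simp [Complex.log_im]
    rw [e]
    refine (abs_add_le _ _).trans ?_
    have := Complex.abs_arg_le_pi (s - 1)
    linarith
  · have h3 := (Complex.abs_im_le_norm _).trans (h2 s (by linarith))
    have h4 : Real.exp (-(s.re / 2)) ≤ 1 := Real.exp_le_one_iff.2 (by linarith)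
    have h5 : C2 * Real.exp (-(s.re / 2)) ≤ C2 := by nlinarith
    have := Real.pi_pos
    linarith

lemma V0_env (RH : RiemannHypothesis) (T : ℝ) : ∃ C : ℝ, 0 ≤ C ∧ ∀ s ∈ Om, s.im ≤ T → s.re ≠ 1 →
    ‖Wk gz 1 s‖ ≤ env C s.re := by
  obtain ⟨C1, hC1, h1⟩ := strip RH T
  obtain ⟨C2, hC2, h2⟩ := V0_far
  refine ⟨2 * C1 + Real.pi + C2 + (3 + |T|) + 1, by positivity, fun s hs hT hne => ?_⟩
  set C := 2 * C1 + Real.pi + C2 + (3 + |T|) + 1 with hC
  have hpi := Real.pi_pos
  have hT0 := abs_nonneg T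
  have hC0 : 0 ≤ C := by positivity
  have hexp := Real.exp_pos (-(s.re / 2))
  unfold env
  rcases le_or_gt s.re 3 with h | h
  · rw [indicator_of_mem (show s.re ∈ Iic (3 : ℝ) from h)]
    obtain ⟨h3, h4⟩ := h1 s hs h hT
    have e1 : (Wk gz 1 s).im = (UU s).im + (s - 1).arg := by
      unfold UU; simp [Complex.log_im]
    have e2 : (Wk gz 1 s).re = (UU s).re + Real.log ‖s - 1‖ := by
      unfold UU; simp [Complex.log_re]
    have h5 : |(Wk gz 1 s).im| ≤ C1 + Real.pi := by
      rw [e1]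
      refine (abs_add_le _ _).trans ?_
      have := Complex.abs_arg_le_pi (s - 1)
      linarith
    have h6 : |Real.log ‖s - 1‖| ≤ |Real.log (s.re - 1)| + (3 + |T|) := by
      have hre : (s - 1).re = s.re - 1 := by simp
      have him : (s - 1).im = s.im := by simp
      rcases le_total 1 ‖s - 1‖ with h7 | h7
      · rw [abs_of_nonneg (Real.log_nonneg h7)]
        have h8 := Real.log_le_sub_one_of_pos (show 0 < ‖s - 1‖ by linarith)
        have h9 := Complex.norm_le_abs_re_add_abs_im (s - 1)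
        rw [hre, him] at h9
        have h10 : |s.re - 1| ≤ 2 := by rw [abs_le]; constructor <;> linarith [hs.1]
        have h11 : |s.im| ≤ |T| := by rw [abs_of_pos hs.2]; exact hT.trans (le_abs_self T)
        have h12 := abs_nonneg (Real.log (s.re - 1))
        linarith
      · have h8 : 0 < |s.re - 1| := abs_pos.2 (sub_ne_zero.2 hne)
        have h9 : |s.re - 1| ≤ ‖s - 1‖ := by
          have := Complex.abs_re_le_norm (s - 1)
          rwa [hre] at this
        have h10 := Real.log_le_log h8 h9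
        rw [Real.log_abs] at h10
        have h11 : Real.log ‖s - 1‖ ≤ 0 := Real.log_nonpos (norm_nonneg _) h7
        rw [abs_of_nonpos h11, abs_of_nonpos (h10.trans h11)]
        linarith
    have h7 : |(Wk gz 1 s).re| ≤ C1 * (1 + |Real.log (s.re - 1 / 2)|) + (|Real.log (s.re - 1)| + (3 + |T|)) := by
      rw [e2]
      refine (abs_add_le _ _).trans ?_
      linarith
    have h8 := Complex.norm_le_abs_re_add_abs_im (Wk gz 1 s)
    have g1 := abs_nonneg (Real.log (s.re - 1 / 2))
    have g2 := abs_nonneg (Real.log (s.re - 1))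
    have h9 : C1 * |Real.log (s.re - 1 / 2)| ≤ C * |Real.log (s.re - 1 / 2)| :=
      mul_le_mul_of_nonneg_right (by rw [hC]; linarith) g1
    have h10 : |Real.log (s.re - 1)| ≤ C * |Real.log (s.re - 1)| := by
      have : 1 ≤ C := by rw [hC]; linarith
      nlinarith
    have h11 : 0 ≤ C * Real.exp (-(s.re / 2)) := by positivity
    have h12 : C1 + Real.pi + C1 + (3 + |T|) ≤ C := by rw [hC]; linarith
    nlinarith
  · rw [indicator_of_notMem (show s.re ∉ Iic (3 : ℝ) from not_le.2 h), zero_add]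
    refine (h2 s (by linarith)).trans (mul_le_mul_of_nonneg_right ?_ hexp.le)
    rw [hC]; linarith

/-- points of the closed half-line -/
lemma Om_add' {s : ℂ} (h1 : 1 / 2 ≤ s.re) (h2 : 0 < s.im) {u : ℝ} (hu : 0 < u) : s + u ∈ Om :=
  ⟨by simp; linarith, by simpa using h2⟩

lemma ae_ne_ioi (a c : ℝ) : ∀ᵐ u : ℝ ∂volume.restrict (Ioi a), u ≠ c := by
  refine ae_restrict_of_ae ?_
  rw [ae_iff]
  simp

lemma cont_ray {φ : ℂ → ℂ} (h : DifferentiableOn ℂ φ Om) {s : ℂ} (h1 : 1 / 2 ≤ s.re) (h2 : 0 < s.im) :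
    ContinuousOn (fun u : ℝ => φ (s + u)) (Ioi 0) :=
  h.continuousOn.comp (by fun_prop) fun _ hu => Om_add' h1 h2 hu

/-- `V₀` is integrable on horizontal rays starting on the critical line -/
lemma V0_int (RH : RiemannHypothesis) {s : ℂ} (h1 : 1 / 2 ≤ s.re) (h2 : 0 < s.im) :
    IntegrableOn (fun u : ℝ => Wk gz 1 (s + u)) (Ioi 0) := by
  obtain ⟨C, hC, h⟩ := V0_env RH s.im
  have h3 : IntegrableOn (fun u : ℝ => env C (s.re + u)) (Ioi 0) := by
    rw [ioi_shift_int (env C) 0 s.re, add_zero]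
    exact (env_int C).mono_set (Ioi_subset_Ioi h1)
  refine h3.mono' ((cont_ray (Dk_Wk (Dk_gz RH) 1).1 h1 h2).aestronglyMeasurable measurableSet_Ioi) ?_
  filter_upwards [ae_restrict_mem measurableSet_Ioi, ae_ne_ioi 0 (1 - s.re)] with u hu hu1
  have h4 := h (s + u) (Om_add' h1 h2 hu) (by simp) (by
    simp only [Complex.add_re, Complex.ofReal_re]
    intro hh; exact hu1 (by linarith))
  simpa using h4

lemma Wk_decay (RH : RiemannHypothesis) (T : ℝ) (k : ℕ) : ∃ C : ℝ, 0 ≤ C ∧ ∀ s : ℂ, 1 / 2 ≤ s.re → 0 < s.im → s.im ≤ T →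
    ‖Wk gz (k + 2) s‖ ≤ C * Real.exp (-(s.re / 2)) := by
  induction k with
  | zero =>
    obtain ⟨C, hC, h⟩ := V0_env RH T
    obtain ⟨C2, hC2, h2⟩ := V0_far
    set A := ∫ σ in Ioi (1 / 2 : ℝ), env C σ with hA
    have hA0 : 0 ≤ A := setIntegral_nonneg measurableSet_Ioi fun σ _ => env_nonneg hC σ
    refine ⟨A * Real.exp (3 / 2) + 2 * C2, by positivity, fun s hs1 hs2 hs3 => ?_⟩
    have hexp := Real.exp_pos (-(s.re / 2))
    rcases le_total s.re 3 with h3 | h3
    · have h4 : ‖Wk gz 2 s‖ ≤ A := by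
        show ‖R (Wk gz 1) s‖ ≤ A
        unfold R
        have h5 : IntegrableOn (fun u : ℝ => env C (s.re + u)) (Ioi 0) := by
          rw [ioi_shift_int (env C) 0 s.re, add_zero]
          exact (env_int C).mono_set (Ioi_subset_Ioi hs1)
        refine (norm_integral_le_of_norm_le h5 ?_).trans ?_
        · filter_upwards [ae_restrict_mem measurableSet_Ioi, ae_ne_ioi 0 (1 - s.re)] with u hu hu1
          have h4 := h (s + u) (Om_add' hs1 hs2 hu) (by simpa using hs3) (by
            simp only [Complex.add_re, Complex.ofReal_re]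
            intro hh; exact hu1 (by linarith))
          simpa using h4
        · rw [ioi_shift (env C) 0 s.re, add_zero]
          exact setIntegral_mono_set (env_int C) (Eventually.of_forall fun σ => env_nonneg hC σ)
            (Ioi_subset_Ioi hs1).eventuallyLE
      have h6 : 1 ≤ Real.exp (3 / 2) * Real.exp (-(s.re / 2)) := by
        rw [← Real.exp_add]; exact Real.one_le_exp (by linarith)
      have h7 : A ≤ A * (Real.exp (3 / 2) * Real.exp (-(s.re / 2))) := by nlinarith
      have h8 : 0 ≤ 2 * C2 * Real.exp (-(s.re / 2)) := by positivity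
      calc ‖Wk gz (0 + 2) s‖ ≤ A := h4
        _ ≤ _ := by linarith
    · have h4 : ‖R (Wk gz 1) s‖ ≤ 2 * C2 * Real.exp (-(s.re / 2)) := by
        refine R_decay fun u hu => ?_
        have := h2 (s + u) (by simp; linarith)
        simpa using this
      have h5 : 0 ≤ A * Real.exp (3 / 2) * Real.exp (-(s.re / 2)) := by positivity
      calc ‖Wk gz (0 + 2) s‖ ≤ 2 * C2 * Real.exp (-(s.re / 2)) := h4
        _ ≤ _ := by linarith
  | succ k ih =>
    obtain ⟨C, hC, h⟩ := ih
    refine ⟨2 * C, by positivity, fun s hs1 hs2 hs3 => ?_⟩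
    show ‖R (Wk gz (k + 2)) s‖ ≤ _
    refine R_decay fun u hu => ?_
    have := h (s + u) (by simp; linarith) (by simpa using hs2) (by simpa using hs3)
    simpa using this

lemma Wk_int (RH : RiemannHypothesis) (k : ℕ) {s : ℂ} (h1 : 1 / 2 ≤ s.re) (h2 : 0 < s.im) :
    IntegrableOn (fun u : ℝ => Wk gz (k + 1) (s + u)) (Ioi 0) := by
  rcases k with _ | k
  · exact V0_int RH h1 h2
  · obtain ⟨C, hC, h⟩ := Wk_decay RH s.im k
    have h3 : IntegrableOn (fun u : ℝ => C * Real.exp (-(s.re / 2)) * Real.exp (-(u / 2))) (Ioi 0) :=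
      exp_half_int.1.const_mul _
    refine h3.mono' ((cont_ray (Dk_Wk (Dk_gz RH) (k + 2)).1 h1 h2).aestronglyMeasurable measurableSet_Ioi) ?_
    filter_upwards [ae_restrict_mem measurableSet_Ioi] with u hu
    have hu0 : (0 : ℝ) < u := hu
    have h4 := h (s + u) (by simp; linarith) (by simpa using h2) (by simp)
    refine h4.trans (le_of_eq ?_)
    rw [mul_assoc, ← Real.exp_add]
    congr 2
    simp; ring

/-- approach to the critical line -/
lemma R_lim {φ : ℂ → ℂ} {s : ℂ} (hint : IntegrableOn (fun u : ℝ => φ (s + u)) (Ioi 0)) :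
    Tendsto (fun η : ℝ => R φ (s + η)) (𝓝[>] 0) (𝓝 (R φ s)) := by
  have h1 : ∀ η : ℝ, 0 < η → R φ (s + η) = R φ s - ∫ u : ℝ in (0 : ℝ)..η, φ (s + u) := by
    intro η hη
    have h2 : R φ (s + η) = ∫ u : ℝ in Ioi η, φ (s + u) := by
      unfold R
      have := ioi_shift (fun u : ℝ => φ (s + u)) 0 η
      rw [add_zero] at this
      rw [← this]
      congr 1
      funext u
      push_cast
      rw [add_assoc]
    have h3 := intervalIntegral.integral_interval_add_Ioi hint (hint.mono_set (Ioi_subset_Ioi hη.le))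
    rw [h2]
    unfold R
    rw [← h3]
    ring
  have h4 : Tendsto (fun η : ℝ => ∫ u : ℝ in (0 : ℝ)..η, φ (s + u)) (𝓝[>] 0) (𝓝 0) := by
    have h5 : IntervalIntegrable (fun u : ℝ => φ (s + u)) volume 0 1 := by
      rw [intervalIntegrable_iff_integrableOn_Ioc_of_le zero_le_one]
      exact hint.mono_set Ioc_subset_Ioi_self
    have h6 := intervalIntegral.continuousOn_primitive_interval' h5 left_mem_uIcc
    have h7 := h6 0 left_mem_uIcc
    rw [uIcc_of_le zero_le_one] at h7
    have h8 : Tendsto (fun η : ℝ => ∫ u : ℝ in (0 : ℝ)..η, φ (s + u)) (𝓝[Icc 0 1] 0)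
        (𝓝 (∫ u : ℝ in (0 : ℝ)..0, φ (s + u))) := h7
    rw [intervalIntegral.integral_same] at h8
    refine h8.mono_left ?_
    rw [← nhdsWithin_Ioc_eq_nhdsGT zero_lt_one]
    exact nhdsWithin_mono _ Ioc_subset_Icc_self
  have h9 : Tendsto (fun η : ℝ => R φ s - ∫ u : ℝ in (0 : ℝ)..η, φ (s + u)) (𝓝[>] 0) (𝓝 (R φ s - 0)) :=
    tendsto_const_nhds.sub h4
  rw [sub_zero] at h9
  refine h9.congr' ?_
  filter_upwards [self_mem_nhdsWithin] with η hη
  exact (h1 η hη).symm

end Pool.Agent.Q31.SN
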