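import Pool.Agent.Q31.SN.Main0
import Pool.Agent.Q31.SN.Arg

set_option autoImplicit false

/-! Final assembly. -/

open Complex Filter Topology Set MeasureTheory

namespace Pool.Agent.Q31.SN

lemma Sn_lim (RH : RiemannHypothesis) (n : ℕ) {t : ℝ} (ht : 0 < t) :
    Tendsto (fun η : ℝ => fk (n + 2) η t) (𝓝[>] 0) (𝓝 (Sn (n + 1) t)) := by
  rw [Sn_eq RH n ht]
  exact fk_lim RH n ht

lemma Ap_nonneg (n : ℕ) (hn : 1 ≤ n) : 0 ≤ Ap n := by
  have h : bm (n + 1) ≤ 0 := by
    have hint := integral_bernoulliFun_eq_zero (k := n + 1) (by omega)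
    by_contra hcon
    push Not at hcon
    have h1 : ∫ x : ℝ in (0 : ℝ)..1, bm (n + 1) ≤ ∫ x : ℝ in (0 : ℝ)..1, bernoulliFun (n + 1) x := by
      refine intervalIntegral.integral_mono_on zero_le_one intervalIntegrable_const
        ((continuous_bernoulliFun _).intervalIntegrable _ _) fun x hx => bm_le _ hx.1 hx.2
    rw [hint] at h1
    simp at h1
    linarith
  unfold Ap
  have h2 : 0 ≤ -(Real.pi ^ n * bm (n + 1)) := by
    have : 0 ≤ Real.pi ^ n * (-bm (n + 1)) := by
      refine mul_nonneg (by positivity) (by linarith)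
    linarith
  positivity

lemma Am_nonneg (n : ℕ) (hn : 1 ≤ n) : 0 ≤ Am n := by
  have h : 0 ≤ bM (n + 1) := by
    have hint := integral_bernoulliFun_eq_zero (k := n + 1) (by omega)
    by_contra hcon
    push Not at hcon
    have h1 : ∫ x : ℝ in (0 : ℝ)..1, bernoulliFun (n + 1) x ≤ ∫ x : ℝ in (0 : ℝ)..1, bM (n + 1) := by
      refine intervalIntegral.integral_mono_on zero_le_one
        ((continuous_bernoulliFun _).intervalIntegrable _ _) intervalIntegrable_const fun x hx => le_bM _ hx.1 hx.2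
    rw [hint] at h1
    simp at h1
    linarith
  unfold Am
  positivity

/-- choice of the parameter -/
lemma kappa_close (n : ℕ) {A ε : ℝ} (hε : 0 < ε) : ∀ᶠ δ : ℝ in 𝓝[>] 0, ((1 - δ) ^ (n + 4))⁻¹ * A < A + ε := by
  have h1 : Tendsto (fun δ : ℝ => ((1 - δ) ^ (n + 4))⁻¹ * A) (𝓝[>] 0) (𝓝 (((1 - 0) ^ (n + 4))⁻¹ * A)) := by
    have h2 : ContinuousAt (fun δ : ℝ => ((1 - δ) ^ (n + 4))⁻¹ * A) 0 := by
      refine ContinuousAt.mul (ContinuousAt.inv₀ (by fun_prop) (by norm_num)) continuousAt_const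
    exact h2.tendsto.mono_left nhdsWithin_le_nhds
  have e : ((1 - 0 : ℝ) ^ (n + 4))⁻¹ * A = A := by norm_num
  rw [e] at h1
  exact h1.eventually (gt_mem_nhds (by linarith))

theorem main_eps (RH : RiemannHypothesis) {n : ℕ} (hn : Even n) (hn2 : 2 ≤ n) {ε : ℝ} (hε : 0 < ε) :
    ∀ᶠ t : ℝ in atTop, -(Am n + ε) * La n t ≤ Sn n t ∧ Sn n t ≤ (Ap n + ε) * La n t := by
  have ev : ∀ᶠ δ : ℝ in 𝓝[>] 0, δ ∈ Ioc (0 : ℝ) (1 / 2) := by
    rw [← nhdsWithin_Ioc_eq_nhdsGT (show (0 : ℝ) < 1 / 2 by norm_num)]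
    exact self_mem_nhdsWithin
  obtain ⟨δ, h1, h2, h3⟩ := ((kappa_close n (A := Ap n) hε).and ((kappa_close n (A := Am n) hε).and ev)).exists
  obtain ⟨T0, hT0⟩ := main_kappa RH hn hn2 h3.1 h3.2
  obtain ⟨m, rfl⟩ : ∃ m, n = m + 1 := ⟨n - 1, by omega⟩
  filter_upwards [eventually_ge_atTop T0, eventually_ge_atTop 3, loglog_tendsto.eventually_ge_atTop 1] with t ht ht3 hll
  have ht0 : 0 < t := by linarith
  have hLa : 0 ≤ La (m + 1) t := by
    unfold La
    have : 0 ≤ Real.log t := Real.log_nonneg (by linarith)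
    positivity
  have hlim := Sn_lim RH m ht0
  have hη : ∀ᶠ η : ℝ in 𝓝[>] 0, η ∈ Ioc (0 : ℝ) 1 := by
    rw [← nhdsWithin_Ioc_eq_nhdsGT zero_lt_one]
    exact self_mem_nhdsWithin
  constructor
  · refine ge_of_tendsto hlim ?_
    filter_upwards [hη] with η hη
    have h4 := (hT0 t ht η hη.1 hη.2).2
    have h5 := mul_le_mul_of_nonneg_right h2.le hLa
    linarith
  · refine le_of_tendsto hlim ?_
    filter_upwards [hη] with η hη
    have h4 := (hT0 t ht η hη.1 hη.2).1
    have h5 := mul_le_mul_of_nonneg_right h1.le hLa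
    linarith

/-- crude bounds for every order at least one -/
theorem crude_Sn (RH : RiemannHypothesis) (n : ℕ) : ∃ C : ℝ, 0 ≤ C ∧ ∀ᶠ t : ℝ in atTop, |Sn (n + 1) t| ≤ C * Real.log t := by
  have hη : ∀ᶠ η : ℝ in 𝓝[>] 0, η ∈ Ioc (0 : ℝ) 1 := by
    rw [← nhdsWithin_Ioc_eq_nhdsGT zero_lt_one]
    exact self_mem_nhdsWithin
  rcases Nat.even_or_odd (n + 1) with h | h
  · have h2 : 2 ≤ n + 1 := by
      obtain ⟨j, hj⟩ := h; omega
    refine ⟨(Am (n + 1) + 1) + (Ap (n + 1) + 1), by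
      have := Ap_nonneg (n + 1) (by omega)
      have := Am_nonneg (n + 1) (by omega)
      positivity, ?_⟩
    filter_upwards [main_eps RH h h2 one_pos, eventually_ge_atTop 3, loglog_tendsto.eventually_ge_atTop 1] with t ht ht3 hll
    have hL : 0 ≤ Real.log t := Real.log_nonneg (by linarith)
    have hLa : 0 ≤ La (n + 1) t := by unfold La; positivity
    have hLa2 : La (n + 1) t ≤ Real.log t := by
      unfold La
      exact div_le_self hL (one_le_pow₀ hll)
    have a1 := Ap_nonneg (n + 1) (by omega)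
    have a2 := Am_nonneg (n + 1) (by omega)
    rw [abs_le]
    constructor
    · have : (Am (n + 1) + 1) * La (n + 1) t ≤ (Am (n + 1) + 1) * Real.log t := mul_le_mul_of_nonneg_left hLa2 (by linarith)
      nlinarith [ht.1]
    · have : (Ap (n + 1) + 1) * La (n + 1) t ≤ (Ap (n + 1) + 1) * Real.log t := mul_le_mul_of_nonneg_left hLa2 (by linarith)
      nlinarith [ht.2]
  · obtain ⟨C, hC, hb⟩ := fk_bounds RH h
    set Z := zt (n + 1 + 1) with hZ
    have hz : 0 < Z := zt_pos (by omega)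
    set E := (1 : ℝ) * Real.exp (1 / 2) with hE
    have hE0 : 0 < E := by positivity
    have hq : (1 - 2 / 2 ^ (n + 1 + 1) : ℝ) ≤ 1 := by
      have : (0 : ℝ) < 2 / 2 ^ (n + 1 + 1) := by positivity
      linarith
    refine ⟨(1 + C * E) * Z + C * E, by positivity, ?_⟩
    filter_upwards [eventually_ge_atTop (Real.exp 1)] with t ht
    have hexp1 : 1 ≤ Real.exp 1 := Real.one_le_exp (by norm_num)
    have ht1 : 1 ≤ t := by linarith
    have hL : 1 ≤ Real.log t := by
      rw [← Real.log_exp 1]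
      exact Real.log_le_log (Real.exp_pos 1) ht
    refine le_of_tendsto (Sn_lim RH n (by linarith)).abs ?_
    filter_upwards [hη] with η hη
    obtain ⟨b1, b2⟩ := hb 1 η t le_rfl hη.1 hη.2 ht1
    rw [one_pow, div_one, ← hE] at b1 b2
    have hpi := Real.pi_gt_three
    set y := (-1 : ℝ) ^ ((n + 1 + 1) / 2) * fk (n + 1 + 1) η t with hy
    have hyabs : |fk (n + 2) η t| = |y| := by
      rw [hy, abs_mul, abs_pow, abs_neg, abs_one, one_pow, one_mul]
    rw [hyabs]
    have hCE : 0 < C * E := by positivity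
    have k1 : (Real.log t + C * E) * Z + C * E ≤ ((1 + C * E) * Z + C * E) * Real.log t := by
      have : 0 ≤ (C * E * Z + C * E) * (Real.log t - 1) := mul_nonneg (by positivity) (by linarith)
      nlinarith
    have k2 : Real.log t * ((1 - 2 / 2 ^ (n + 1 + 1)) * Z) ≤ Real.log t * Z := by
      refine mul_le_mul_of_nonneg_left ?_ (by linarith)
      nlinarith
    have k3 : Real.log t * Z + C * E ≤ (Real.log t + C * E) * Z + C * E := by
      have : 0 ≤ C * E * Z := by positivity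
      nlinarith
    have k4 : |Real.pi * y| ≤ ((1 + C * E) * Z + C * E) * Real.log t := by
      rw [abs_le]
      constructor <;> linarith
    rw [abs_mul, abs_of_pos Real.pi_pos] at k4
    have := abs_nonneg y
    nlinarith

/-- the mean value is zero -/
theorem mean_zero (RH : RiemannHypothesis) (n : ℕ) :
    Tendsto (fun T : ℝ => 1 / T * ∫ t : ℝ in (0 : ℝ)..T, Sn n t) atTop (𝓝 0) := by
  obtain ⟨C, hC, h⟩ := crude_Sn RH n
  have h1 : ∀ T : ℝ, ∫ t : ℝ in (0 : ℝ)..T, Sn n t = Sn (n + 1) T - dl (n + 1) := by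
    intro T
    show _ = (∫ τ : ℝ in (0 : ℝ)..T, Sn n τ) + dl (n + 1) - dl (n + 1)
    ring
  simp_rw [h1]
  have h2 : Tendsto (fun T : ℝ => C * (Real.log T / T) + |dl (n + 1)| * (1 / T)) atTop (𝓝 0) := by
    have a1 : Tendsto (fun T : ℝ => Real.log T / T) atTop (𝓝 0) :=
      Real.isLittleO_log_id_atTop.tendsto_div_nhds_zero
    have a2 : Tendsto (fun T : ℝ => 1 / T) atTop (𝓝 0) := by
      simpa using tendsto_inv_atTop_zero (𝕜 := ℝ)
    have := (a1.const_mul C).add (a2.const_mul |dl (n + 1)|)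
    simpa using this
  rw [tendsto_zero_iff_norm_tendsto_zero]
  refine squeeze_zero' (Eventually.of_forall fun _ => norm_nonneg _) ?_ h2
  filter_upwards [h, eventually_gt_atTop 0] with T hT hT0
  rw [Real.norm_eq_abs, abs_mul, abs_of_pos (by positivity : 0 < 1 / T)]
  have h3 : |Sn (n + 1) T - dl (n + 1)| ≤ C * Real.log T + |dl (n + 1)| := (abs_sub _ _).trans (by linarith)
  have h4 := mul_le_mul_of_nonneg_left h3 (show 0 ≤ 1 / T by positivity)
  refine h4.trans (le_of_eq ?_)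
  field_simp

end Pool.Agent.Q31.SN
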