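import Pool.Agent.Q31.SN.Up

set_option autoImplicit false

/-! Bounds for the real part of `ζ'/ζ` near the critical line, under RH. -/

open Complex Filter Topology Set MeasureTheory
open scoped ComplexConjugate
open Pool.Agent.Y23 (TT Fa Hd N2 QQ GG DG Lg Zt mu IsZ ZZ YL)

namespace Pool.Agent.Q31.SN

/-- `ζ'/ζ` -/
noncomputable def gz (s : ℂ) : ℂ := deriv riemannZeta s / riemannZeta s

lemma ker_PK (RH : RiemannHypothesis) {b t : ℝ} (ρ : Zt) :
    ker (b + t * I) ρ = PK b ((ρ : ℂ).im - t) := by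
  rw [ker_eq RH ρ.2, PK]
  simp
  ring_nf

lemma GG_line (RH : RiemannHypothesis) (f : ℝ → ℂ) (ρ : Zt) :
    (GG f f ((ρ : ℂ) - 1 / 2)).re = ‖TT f (((ρ : ℂ).im : ℝ) * I)‖ ^ 2 := by
  have hs := re_of_RH RH ρ.2
  have e : (ρ : ℂ) - 1 / 2 = (((ρ : ℂ).im : ℝ) : ℂ) * I := by
    apply Complex.ext
    · simp [hs]
    · simp
  unfold Pool.Agent.Y23.GG
  rw [e]
  have e2 : -conj ((((ρ : ℂ).im : ℝ) : ℂ) * I) = (((ρ : ℂ).im : ℝ) : ℂ) * I := by
    rw [map_mul, Complex.conj_ofReal, Complex.conj_I]; ring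
  rw [e2, Complex.mul_conj, Complex.ofReal_re, Complex.normSq_eq_norm_sq]

lemma QQ_compare (RH : RiemannHypothesis) {D b t : ℝ} (hD : 1 ≤ D) (hb : 0 < b) (hb3 : b ≤ 3) :
    (Real.cosh (b * D) - 1) * (ZZ (b + t * I)).re ≤ b * Real.exp (b * D) / 2 * QQ (tf (D / 2) b t) ∧
    b * Real.exp (b * D) / 2 * QQ (tf (D / 2) b t) ≤ (Real.cosh (b * D) + 1) * (ZZ (b + t * I)).re := by
  have hz : 0 < (b + t * I : ℂ).re := by simpa using hb
  obtain ⟨hs, hZ⟩ := pf RH hz
  have hdom := ((Pool.Agent.Y23.Hd_iff (by linarith : 0 < D / 2) _).1 (tf_Hd (t := t) hD hb hb3)).2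
  have hκ : 0 < b * Real.exp (b * D) / 2 := by positivity
  have e1 : b * Real.exp (b * D) / 2 * QQ (tf (D / 2) b t) =
      ∑' ρ : Zt, (mu ρ : ℝ) * wt D b ((ρ : ℂ).im - t) := by
    unfold Pool.Agent.Y23.QQ
    rw [← tsum_mul_left]
    congr 1
    funext ρ
    rw [GG_line RH, wt, ← TT_line (D := D) (b := b) (t := t) (by linarith) hb]
    ring
  have hs2 : Summable (fun ρ : Zt => (mu ρ : ℝ) * wt D b ((ρ : ℂ).im - t)) := by
    have h1 := hdom.mul_left (b * Real.exp (b * D) / 2)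
    refine h1.congr fun ρ => ?_
    have hs := re_of_RH RH ρ.2
    have e : (ρ : ℂ) - 1 / 2 = (((ρ : ℂ).im : ℝ) : ℂ) * I := by
      apply Complex.ext
      · simp [hs]
      · simp
    rw [e, wt, ← TT_line (D := D) (b := b) (t := t) (by linarith) hb]
    ring
  have hcos : ∀ y : ℝ, Real.cos y ≤ 1 ∧ -1 ≤ Real.cos y := fun y => ⟨Real.cos_le_one y, Real.neg_one_le_cos y⟩
  rw [e1, hZ, ← tsum_mul_left, ← tsum_mul_left]
  constructor
  · refine (hs.mul_left _).tsum_le_tsum (fun ρ => ?_) hs2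
    rw [ker_PK RH, wt]
    have h1 : 0 ≤ (mu ρ : ℝ) * PK b ((ρ : ℂ).im - t) := mul_nonneg (Nat.cast_nonneg _) (PK_nonneg hb _)
    have h2 := (hcos (D * ((ρ : ℂ).im - t))).1
    nlinarith
  · refine hs2.tsum_le_tsum (fun ρ => ?_) (hs.mul_left _)
    rw [ker_PK RH, wt]
    have h1 : 0 ≤ (mu ρ : ℝ) * PK b ((ρ : ℂ).im - t) := mul_nonneg (Nat.cast_nonneg _) (PK_nonneg hb _)
    have h2 := (hcos (D * ((ρ : ℂ).im - t))).2
    nlinarith

lemma YL_half : ∃ C : ℝ, 0 < C ∧ ∀ b t : ℝ, 0 < b → b ≤ 3 → 1 ≤ t →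
    |(YL (b + t * I)).re - 1 / 2 * Real.log t| ≤ C := by
  obtain ⟨C, hC0, hC⟩ := H370.DL.logDeriv_Gammaℝ_bound
  refine ⟨C + 3, by positivity, fun b t hb hb3 ht => ?_⟩
  set w : ℂ := b + t * I with hw
  have hre : w.re = b := by simp [hw]
  have him : w.im = t := by simp [hw]
  have hw1 : 1 ≤ ‖w‖ := by
    have := Complex.abs_im_le_norm w
    rw [him, abs_of_pos (by linarith)] at this
    linarith
  have b1 : ‖8 * w / (4 * w ^ 2 - 1)‖ ≤ 3 := by
    rw [norm_div]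
    have h3 : 3 * ‖w‖ ^ 2 ≤ ‖4 * w ^ 2 - 1‖ := by
      have h4 := norm_sub_norm_le (4 * w ^ 2) 1
      rw [norm_mul, norm_pow, norm_one, Complex.norm_ofNat] at h4
      nlinarith
    rw [div_le_iff₀ (by nlinarith), norm_mul, Complex.norm_ofNat]
    nlinarith
  have him2 : (1 / 2 + w).im = t := by simp [him]
  have hre2 : (1 / 2 + w).re = 1 / 2 + b := by simp [hre]
  have h3 := hC (1 / 2 + w) (by rw [hre2]; linarith) (by rw [hre2]; linarith)
    (by rw [him2, abs_of_pos (by linarith)]; exact ht)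
  rw [him2, abs_of_pos (by linarith : 0 < t)] at h3
  have e : (YL w).re - 1 / 2 * Real.log t = (8 * w / (4 * w ^ 2 - 1) +
      (logDeriv Gammaℝ (1 / 2 + w) - 1 / 2 * Real.log t)).re := by
    unfold Pool.Agent.Y23.YL
    simp only [Complex.add_re, Complex.sub_re]
    have : (1 / 2 * (Real.log t : ℂ)).re = 1 / 2 * Real.log t := by
      rw [show (1 / 2 * (Real.log t : ℂ)) = ((1 / 2 * Real.log t : ℝ) : ℂ) by push_cast; ring, Complex.ofReal_re]
    rw [this]; ring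
  rw [e]
  refine (Complex.abs_re_le_norm _).trans ((norm_add_le _ _).trans ?_)
  linarith

lemma zeta_ne (RH : RiemannHypothesis) {s : ℂ} (hs : 1 / 2 < s.re) : riemannZeta s ≠ 0 := by
  intro h
  have := RH s h (by
    rintro ⟨n, hn⟩
    rw [hn] at hs
    have h1 : (-2 * ((n : ℂ) + 1)).re = -2 * ((n : ℝ) + 1) := by simp
    rw [h1] at hs
    have : (0 : ℝ) ≤ n := Nat.cast_nonneg n
    linarith) (by
    rintro rfl
    exact riemannZeta_ne_zero_of_one_le_re (s := 1) (by simp) h)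
  linarith

/-- **bounds for the real part of `ζ'/ζ`** -/
theorem gz_bounds (RH : RiemannHypothesis) : ∃ C : ℝ, 0 < C ∧ ∀ D b t : ℝ, 1 ≤ D → 0 < b → b ≤ 3 → 1 ≤ t →
    (gz (1 / 2 + (b + t * I))).re ≤ Real.log t / (Real.exp (b * D) - 1) +
      C * (D * Real.exp (D / 2)) * (1 + 2 / (Real.exp (b * D) - 1)) ∧
    -(Real.log t / (Real.exp (b * D) + 1)) - C * (D * Real.exp (D / 2)) ≤ (gz (1 / 2 + (b + t * I))).re := by
  obtain ⟨C1, hC1, h1⟩ := QQ_eval
  obtain ⟨C2, hC2, h2⟩ := YL_half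
  refine ⟨C1 + C2, by positivity, fun D b t hD hb hb3 ht => ?_⟩
  obtain ⟨q1, q2⟩ := abs_le.1 (h1 D b t hD hb hb3 ht)
  obtain ⟨y1, y2⟩ := abs_le.1 (h2 b t hb hb3 ht)
  obtain ⟨c1, c2⟩ := QQ_compare RH (t := t) hD hb hb3
  have hz : 1 / 2 < (1 / 2 + (b + t * I) : ℂ).re := by simpa using hb
  have hRg : (b + t * I : ℂ) ∈ Pool.Agent.Y23.Rg := Pool.Agent.Y23.Rg_im (by
    have : (b + t * I : ℂ).im = t := by simp
    rw [this]; linarith)
  have hZ : (ZZ (b + t * I)).re = (YL (b + t * I)).re + (gz (1 / 2 + (b + t * I))).re := by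
    rw [Pool.Agent.Y23.ZZ_eq hRg (zeta_ne RH hz), Complex.add_re]; rfl
  set G := (gz (1 / 2 + (b + t * I))).re with hG
  set Z := (ZZ (b + t * I)).re with hZd
  set Y := (YL (b + t * I)).re with hY
  set Q := b * Real.exp (b * D) / 2 * QQ (tf (D / 2) b t) with hQ
  set E := D * Real.exp (D / 2) with hE
  set L := Real.log t with hL
  have hE1 : 1 ≤ E := by
    have := Real.one_le_exp (show 0 ≤ D / 2 by linarith)
    rw [hE]; nlinarith
  have hL0 : 0 ≤ L := Real.log_nonneg ht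
  have hx : 0 < b * D := by positivity
  rw [Real.cosh_eq] at c1 c2
  rw [Real.sinh_eq] at q1 q2
  rw [Real.exp_neg] at c1 c2 q1 q2
  set X := Real.exp (b * D) with hX
  have hX1 : 1 < X := Real.one_lt_exp_iff.2 hx
  have hX0 : 0 < X := by linarith
  have s1 : (X - X⁻¹) / 2 = (X - 1) * (X + 1) / (2 * X) := by field_simp; ring
  have s2 : (X + X⁻¹) / 2 - 1 = (X - 1) * (X - 1) / (2 * X) := by field_simp; ring
  have s3 : (X + X⁻¹) / 2 + 1 = (X + 1) * (X + 1) / (2 * X) := by field_simp; ring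
  rw [s1] at q1 q2
  rw [s2] at c1
  rw [s3] at c2
  have hp1 : 0 < (X - 1) / (2 * X) := div_pos (by linarith) (by linarith)
  have hp2 : 0 < (X + 1) / (2 * X) := div_pos (by linarith) (by linarith)
  constructor
  · have k1 : (X - 1) * Z ≤ (X + 1) * (1 / 2 * L + C1 * E) := by
      have a1 : (X - 1) / (2 * X) * ((X - 1) * Z) ≤ (X - 1) / (2 * X) * ((X + 1) * (1 / 2 * L + C1 * E)) := by
        calc (X - 1) / (2 * X) * ((X - 1) * Z) = (X - 1) * (X - 1) / (2 * X) * Z := by ring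
          _ ≤ Q := c1
          _ ≤ 1 / 2 * ((X - 1) * (X + 1) / (2 * X)) * L + C1 * E * ((X - 1) * (X + 1) / (2 * X)) := by linarith
          _ = (X - 1) / (2 * X) * ((X + 1) * (1 / 2 * L + C1 * E)) := by ring
      exact le_of_mul_le_mul_left a1 hp1
    have k2 : Z ≤ (1 + 2 / (X - 1)) * (1 / 2 * L + C1 * E) := by
      have e : 1 + 2 / (X - 1) = (X + 1) / (X - 1) := by
        have : X - 1 ≠ 0 := by linarith
        field_simp; ring
      rw [e, div_mul_eq_mul_div, le_div_iff₀ (by linarith)]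
      linarith
    have k3 : 0 < 2 / (X - 1) := div_pos (by norm_num) (by linarith)
    have e4 : L / (X - 1) = (2 / (X - 1)) * (1 / 2 * L) := by ring
    rw [e4]
    have k5 : C2 ≤ C2 * E * (1 + 2 / (X - 1)) := by
      have : 1 ≤ E * (1 + 2 / (X - 1)) := by nlinarith
      nlinarith
    linarith
  · have k1 : (X - 1) * (1 / 2 * L - C1 * E) ≤ (X + 1) * Z := by
      have a1 : (X + 1) / (2 * X) * ((X - 1) * (1 / 2 * L - C1 * E)) ≤ (X + 1) / (2 * X) * ((X + 1) * Z) := by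
        calc (X + 1) / (2 * X) * ((X - 1) * (1 / 2 * L - C1 * E)) =
              1 / 2 * ((X - 1) * (X + 1) / (2 * X)) * L - C1 * E * ((X - 1) * (X + 1) / (2 * X)) := by ring
          _ ≤ Q := by linarith
          _ ≤ (X + 1) * (X + 1) / (2 * X) * Z := c2
          _ = (X + 1) / (2 * X) * ((X + 1) * Z) := by ring
      exact le_of_mul_le_mul_left a1 hp2
    have k2 : (1 - 2 / (X + 1)) * (1 / 2 * L - C1 * E) ≤ Z := by
      have e : 1 - 2 / (X + 1) = (X - 1) / (X + 1) := by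
        have : X + 1 ≠ 0 := by linarith
        field_simp; ring
      rw [e, div_mul_eq_mul_div, div_le_iff₀ (by linarith)]
      linarith
    have k3 : 0 < 2 / (X + 1) := div_pos (by norm_num) (by linarith)
    have e4 : L / (X + 1) = (2 / (X + 1)) * (1 / 2 * L) := by ring
    rw [e4]
    have k5 : 0 ≤ 2 / (X + 1) * (C1 * E) := by positivity
    have k6 : C2 ≤ C2 * E := by nlinarith
    linarith

end Pool.Agent.Q31.SN
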