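import Pool.Agent.Q31.SN.Crude

set_option autoImplicit false

/-! Bose and Fermi integrals. -/

open Set Filter Topology MeasureTheory

namespace Pool.Agent.Q31.SN

lemma base_int (m : ℕ) {c : ℝ} (hc : 0 < c) :
    IntegrableOn (fun u : ℝ => u ^ m / (m.factorial : ℝ) * Real.exp (-(c * u))) (Ioi 0) ∧
    ∫ u : ℝ in Ioi 0, u ^ m / (m.factorial : ℝ) * Real.exp (-(c * u)) = 1 / c ^ (m + 1) := by
  have hk : (0 : ℝ) < (m : ℝ) + 1 := by positivity
  have key := Real.integral_rpow_mul_exp_neg_mul_Ioi hk hc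
  have hf : (0 : ℝ) < (m.factorial : ℝ) := by exact_mod_cast m.factorial_pos
  have e : ∫ u : ℝ in Ioi 0, u ^ m / (m.factorial : ℝ) * Real.exp (-(c * u)) = 1 / c ^ (m + 1) := by
    have h1 : ∀ u : ℝ, u ^ m / (m.factorial : ℝ) * Real.exp (-(c * u)) =
        (m.factorial : ℝ)⁻¹ * (u ^ (((m : ℝ) + 1) - 1) * Real.exp (-(c * u))) := by
      intro u
      rw [add_sub_cancel_right, Real.rpow_natCast]
      ring
    simp_rw [h1]
    rw [integral_const_mul, key, Real.Gamma_nat_eq_factorial, one_div, Real.inv_rpow hc.le]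
    have : c ^ ((m : ℝ) + 1) = c ^ (m + 1) := by
      rw [← Real.rpow_natCast c (m + 1)]; push_cast; rfl
    rw [this]
    field_simp
  refine ⟨?_, e⟩
  refine Integrable.of_integral_ne_zero ?_
  rw [e]
  positivity

/-- `ζ(r)` -/
noncomputable def zt (r : ℕ) : ℝ := ∑' n : ℕ, 1 / ((n : ℝ) + 1) ^ r

lemma zt_summable {r : ℕ} (hr : 2 ≤ r) : Summable (fun n : ℕ => 1 / ((n : ℝ) + 1) ^ r) := by
  have h := (summable_nat_add_iff 1).2 (Real.summable_one_div_nat_pow.2 (by omega : 1 < r))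
  simpa using h

lemma zt_pos {r : ℕ} (hr : 2 ≤ r) : 0 < zt r :=
  (zt_summable hr).tsum_pos (fun n => by positivity) 0 (by norm_num)

lemma zt_be {r : ℕ} (hr : 2 ≤ r) (hre : Even r) : zt r = be r * (2 ^ (r - 1) * Real.pi ^ r) := by
  obtain ⟨k, hk⟩ := hre
  have hk2 : r = 2 * k := by omega
  subst hk2
  have h := be_eq (k := k) (by omega)
  have h2 : HasSum (fun n : ℕ => 1 / ((n + 1 : ℕ) : ℝ) ^ (2 * k)) (be (2 * k) * (2 ^ (2 * k - 1) * Real.pi ^ (2 * k))) := by
    rw [hasSum_nat_add_iff (f := fun n : ℕ => 1 / (n : ℝ) ^ (2 * k)) 1]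
    have : (0 : ℝ) ^ (2 * k) = 0 := zero_pow (by omega)
    simpa [this] using h
  have h3 := h2.tsum_eq
  rw [← h3]
  unfold zt
  push_cast
  rfl

lemma bose {m : ℕ} (hm : 1 ≤ m) {D : ℝ} (hD : 0 < D) :
    IntegrableOn (fun u : ℝ => u ^ m / (m.factorial : ℝ) * (1 / (Real.exp (u * D) - 1))) (Ioi 0) ∧
    ∫ u : ℝ in Ioi 0, u ^ m / (m.factorial : ℝ) * (1 / (Real.exp (u * D) - 1)) = zt (m + 1) / D ^ (m + 1) := by
  have hf : (0 : ℝ) < (m.factorial : ℝ) := by exact_mod_cast m.factorial_pos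
  set F : ℕ → ℝ → ℝ := fun n u => u ^ m / (m.factorial : ℝ) * Real.exp (-((((n : ℝ) + 1) * D) * u)) with hF
  have hn : ∀ n : ℕ, 0 < ((n : ℝ) + 1) * D := fun n => by positivity
  have hint : ∀ n, Integrable (F n) (volume.restrict (Ioi 0)) := fun n => (base_int m (hn n)).1
  have hval : ∀ n, ∫ u : ℝ in Ioi 0, F n u = 1 / (((n : ℝ) + 1) * D) ^ (m + 1) := fun n => (base_int m (hn n)).2
  have hterm : ∀ n : ℕ, 1 / (((n : ℝ) + 1) * D) ^ (m + 1) = 1 / ((n : ℝ) + 1) ^ (m + 1) * (1 / D ^ (m + 1)) := by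
    intro n
    rw [mul_pow]; field_simp
  have hnorm : ∀ n, ∫ u : ℝ in Ioi 0, ‖F n u‖ = 1 / (((n : ℝ) + 1) * D) ^ (m + 1) := by
    intro n
    rw [← hval n]
    refine setIntegral_congr_fun measurableSet_Ioi fun u hu => ?_
    have hu0 : (0 : ℝ) < u := hu
    exact Real.norm_of_nonneg (by simp only [hF]; positivity)
  have hsum : Summable fun n => ∫ u : ℝ in Ioi 0, ‖F n u‖ := by
    simp_rw [hnorm, hterm]
    exact (zt_summable (by omega)).mul_right _
  have key := hasSum_integral_of_summable_integral_norm hint hsum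
  have hgeo : ∀ u : ℝ, 0 < u → ∑' n, F n u = u ^ m / (m.factorial : ℝ) * (1 / (Real.exp (u * D) - 1)) := by
    intro u hu
    have hx : 0 < u * D := by positivity
    have h1 : ∀ n : ℕ, F n u = u ^ m / (m.factorial : ℝ) * Real.exp (-(u * D)) * Real.exp (-(u * D)) ^ n := by
      intro n
      simp only [hF]
      have e : Real.exp (-((((n : ℝ) + 1) * D) * u)) = Real.exp (-(u * D)) * Real.exp (-(u * D)) ^ n := by
        rw [← Real.exp_nat_mul, ← Real.exp_add]
        congr 1; ring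
      rw [e]; ring
    simp_rw [h1]
    rw [tsum_mul_left, tsum_geometric_of_lt_one (Real.exp_pos _).le (Real.exp_lt_one_iff.2 (by linarith))]
    have h2 : Real.exp (u * D) * Real.exp (-(u * D)) = 1 := by rw [← Real.exp_add]; simp
    have h3 : 1 < Real.exp (u * D) := Real.one_lt_exp_iff.2 hx
    have h4 : Real.exp (-(u * D)) < 1 := Real.exp_lt_one_iff.2 (by linarith)
    have h5 : 1 - Real.exp (-(u * D)) ≠ 0 := by linarith
    have h6 : Real.exp (u * D) - 1 ≠ 0 := by linarith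
    rw [mul_assoc]
    congr 1
    rw [eq_div_iff h6, ← div_eq_mul_inv, div_mul_eq_mul_div, div_eq_iff h5]
    linear_combination h2
  have e : ∫ u : ℝ in Ioi 0, u ^ m / (m.factorial : ℝ) * (1 / (Real.exp (u * D) - 1)) = zt (m + 1) / D ^ (m + 1) := by
    have h1 : ∫ u : ℝ in Ioi 0, u ^ m / (m.factorial : ℝ) * (1 / (Real.exp (u * D) - 1)) =
        ∫ u : ℝ in Ioi 0, ∑' n, F n u :=
      setIntegral_congr_fun measurableSet_Ioi fun u hu => (hgeo u hu).symm
    rw [h1, ← key.tsum_eq]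
    simp_rw [hval, hterm]
    rw [tsum_mul_right, zt, mul_one_div]
  refine ⟨Integrable.of_integral_ne_zero ?_, e⟩
  rw [e]
  have := zt_pos (r := m + 1) (by omega)
  positivity

lemma fermi {m : ℕ} (hm : 1 ≤ m) {D : ℝ} (hD : 0 < D) :
    IntegrableOn (fun u : ℝ => u ^ m / (m.factorial : ℝ) * (1 / (Real.exp (u * D) + 1))) (Ioi 0) ∧
    ∫ u : ℝ in Ioi 0, u ^ m / (m.factorial : ℝ) * (1 / (Real.exp (u * D) + 1)) =
      (1 - 2 / 2 ^ (m + 1)) * zt (m + 1) / D ^ (m + 1) := by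
  obtain ⟨i1, v1⟩ := bose hm hD
  obtain ⟨i2, v2⟩ := bose hm (D := 2 * D) (by positivity)
  have hpt : ∀ u : ℝ, 0 < u → u ^ m / (m.factorial : ℝ) * (1 / (Real.exp (u * D) + 1)) =
      u ^ m / (m.factorial : ℝ) * (1 / (Real.exp (u * D) - 1)) -
        2 * (u ^ m / (m.factorial : ℝ) * (1 / (Real.exp (u * (2 * D)) - 1))) := by
    intro u hu
    have h3 : 1 < Real.exp (u * D) := Real.one_lt_exp_iff.2 (by positivity)
    have h4 : Real.exp (u * (2 * D)) = Real.exp (u * D) * Real.exp (u * D) := by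
      rw [← Real.exp_add]; congr 1; ring
    rw [h4]
    set X := Real.exp (u * D) with hX
    have e : 1 / (X + 1) = 1 / (X - 1) - 2 * (1 / (X * X - 1)) := by
      have h5 : X * X - 1 = (X - 1) * (X + 1) := by ring
      rw [h5]
      have h6 : X - 1 ≠ 0 := by linarith
      have h7 : X + 1 ≠ 0 := by linarith
      field_simp
      ring
    rw [e]; ring
  have hi : IntegrableOn (fun u : ℝ => u ^ m / (m.factorial : ℝ) * (1 / (Real.exp (u * D) - 1)) -
      2 * (u ^ m / (m.factorial : ℝ) * (1 / (Real.exp (u * (2 * D)) - 1)))) (Ioi 0) := i1.sub (i2.const_mul 2)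
  constructor
  · exact hi.congr_fun (fun u hu => (hpt u hu).symm) measurableSet_Ioi
  · rw [setIntegral_congr_fun measurableSet_Ioi (fun u hu => hpt u hu), integral_sub i1 (i2.const_mul 2),
      integral_const_mul, v1, v2, mul_pow]
    have : (2 : ℝ) ^ (m + 1) ≠ 0 := by positivity
    field_simp

end Pool.Agent.Q31.SN
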