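import Pool.Agent.Q31.SN.Env

set_option autoImplicit false

/-! The boundary values on the critical line and the recursion there. -/

open Complex Filter Topology Set MeasureTheory

namespace Pool.Agent.Q31.SN

lemma ord_countable : {t : ℝ | riemannZeta (1 / 2 + t * I) = 0}.Countable := by
  have hz : riemannZetaZeros.Countable := by
    have h2 : riemannZetaZeros = ⋃ m : ℕ, (Metric.closedBall (0:ℂ) m ∩ riemannZetaZeros) := by
      ext z
      simp only [Set.mem_iUnion, Set.mem_inter_iff, Metric.mem_closedBall, dist_zero_right]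
      constructor
      · intro hz
        obtain ⟨m, hm⟩ := exists_nat_ge ‖z‖
        exact ⟨m, hm, hz⟩
      · rintro ⟨m, -, hz⟩
        exact hz
    rw [h2]
    exact Set.countable_iUnion fun m => ((isCompact_closedBall (0:ℂ) m).inter_riemannZetaZeros_finite).countable
  have h3 : {t : ℝ | riemannZeta (1 / 2 + t * I) = 0} ⊆ (fun t : ℝ => (1 / 2 + t * I : ℂ)) ⁻¹' riemannZetaZeros := by
    intro t ht
    exact ht
  refine Set.Countable.mono h3 (hz.preimage_of_injOn fun t _ u _ htu => ?_)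
  have h4 := congrArg Complex.im htu
  simpa using h4

lemma ord_ae : ∀ᵐ t : ℝ, riemannZeta (1 / 2 + t * I) ≠ 0 := by
  have h2 := ord_countable.measure_zero volume
  filter_upwards [measure_eq_zero_iff_ae_notMem.mp h2] with t ht using ht

/-- continuity of `ζ'/ζ` along rays avoiding the singularities -/
lemma gz_ray {s : ℂ} (h : ∀ u : ℝ, 0 ≤ u → s + u ≠ 1 ∧ riemannZeta (s + u) ≠ 0) :
    ContinuousOn (fun u : ℝ => gz (s + u)) (Ici 0) ∧ ∃ K : ℝ, 0 ≤ K ∧ ∀ u : ℝ, 0 ≤ u → ‖gz (s + u)‖ ≤ K * Real.exp (-(u / 2)) := by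
  have hc : ContinuousOn (fun u : ℝ => gz (s + u)) (Ici 0) := by
    intro u hu
    obtain ⟨h1, h2⟩ := h u hu
    have h3 : AnalyticAt ℂ riemannZeta (s + u) := (differentiableOn_riemannZeta.analyticOnNhd isOpen_compl_singleton) _ h1
    have h4 : ContinuousAt gz (s + u) := (h3.deriv.div h3 h2).continuousAt
    have h5 : ContinuousAt (fun u : ℝ => s + (u : ℂ)) u := by fun_prop
    exact (ContinuousAt.comp (f := fun u : ℝ => s + (u : ℂ)) (x := u) h4 h5).continuousWithinAt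
  refine ⟨hc, ?_⟩
  obtain ⟨C, hC, hd⟩ := gz_decay
  set M := max 0 (2 - s.re) with hM
  have hM0 : 0 ≤ M := le_max_left _ _
  obtain ⟨K, hK⟩ := isCompact_Icc.exists_bound_of_continuousOn (hc.mono (Icc_subset_Ici_self : Icc 0 M ⊆ Ici 0))
  refine ⟨max K 0 * Real.exp (M / 2) + C * Real.exp (-(s.re / 2)), by positivity, fun u hu => ?_⟩
  have he := Real.exp_pos (-(u / 2))
  rcases le_total u M with hu1 | hu1
  · have h1 := hK u ⟨hu, hu1⟩
    have h2 : 1 ≤ Real.exp (M / 2) * Real.exp (-(u / 2)) := by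
      rw [← Real.exp_add]; exact Real.one_le_exp (by linarith)
    have h3 : K ≤ max K 0 := le_max_left _ _
    have h4 : 0 ≤ max K 0 := le_max_right _ _
    have h5 : 0 ≤ C * Real.exp (-(s.re / 2)) * Real.exp (-(u / 2)) := by positivity
    have h6 : max K 0 ≤ max K 0 * (Real.exp (M / 2) * Real.exp (-(u / 2))) := by nlinarith
    linarith
  · have h1 : 2 - s.re ≤ u := (le_max_right _ _).trans hu1
    have h2 := hd (s + u) (by simp; linarith)
    have h3 : Real.exp (-((s + (u : ℂ)).re / 2)) = Real.exp (-(s.re / 2)) * Real.exp (-(u / 2)) := by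
      rw [← Real.exp_add]; congr 1; simp; ring
    rw [h3] at h2
    have h4 : 0 ≤ max K 0 * Real.exp (M / 2) * Real.exp (-(u / 2)) := by positivity
    linarith

lemma gz_ray_int {s : ℂ} (h : ∀ u : ℝ, 0 ≤ u → s + u ≠ 1 ∧ riemannZeta (s + u) ≠ 0) :
    IntegrableOn (fun u : ℝ => gz (s + u)) (Ioi 0) := by
  obtain ⟨h1, K, hK, h2⟩ := gz_ray h
  refine (exp_half_int.1.const_mul K).mono' ((h1.mono Ioi_subset_Ici_self).aestronglyMeasurable measurableSet_Ioi) ?_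
  filter_upwards [ae_restrict_mem measurableSet_Ioi] with u hu using h2 u (le_of_lt hu)

lemma crit_ray (RH : RiemannHypothesis) {t : ℝ} (ht : 0 < t) (hz : riemannZeta (1 / 2 + t * I) ≠ 0) (u : ℝ) (hu : 0 ≤ u) :
    (1 / 2 + t * I : ℂ) + u ≠ 1 ∧ riemannZeta ((1 / 2 + t * I : ℂ) + u) ≠ 0 := by
  constructor
  · intro h
    have := congrArg Complex.im h
    simp at this
    exact ht.ne' this
  · rcases hu.eq_or_lt with h | h
    · rw [← h, Complex.ofReal_zero, add_zero]; exact hz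
    · exact zeta_ne RH (by simp; exact h)

lemma pt_zero (t : ℝ) : (1 / 2 + (((0 : ℝ) : ℂ) + t * I) : ℂ) = 1 / 2 + t * I := by simp

lemma pt_eta (η t : ℝ) : (1 / 2 + ((η : ℂ) + t * I) : ℂ) = (1 / 2 + t * I) + η := by ring

lemma fk_lim_gen {k : ℕ} {t : ℝ} (hint : IntegrableOn (fun u : ℝ => Wk gz k ((1 / 2 + t * I) + u)) (Ioi 0)) :
    Tendsto (fun η : ℝ => fk (k + 1) η t) (𝓝[>] 0) (𝓝 (fk (k + 1) 0 t)) := by
  have h1 := R_lim hint
  unfold fk
  rw [pt_zero]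
  have h2 : Tendsto (fun η : ℝ => I ^ (k + 1 + 1) * Wk gz (k + 1) (1 / 2 + ((η : ℂ) + t * I))) (𝓝[>] 0)
      (𝓝 (I ^ (k + 1 + 1) * Wk gz (k + 1) (1 / 2 + t * I))) := by
    refine Tendsto.const_mul _ ?_
    have e : (fun η : ℝ => Wk gz (k + 1) (1 / 2 + ((η : ℂ) + t * I))) = fun η : ℝ => R (Wk gz k) ((1 / 2 + t * I) + η) := by
      funext η
      rw [pt_eta]; rfl
    rw [e]
    exact h1
  have h3 := (Complex.continuous_im.tendsto _).comp h2
  exact h3.const_mul _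

lemma half_re (t : ℝ) : (1 / 2 + t * I : ℂ).re = 1 / 2 := by simp

lemma half_im (t : ℝ) : (1 / 2 + t * I : ℂ).im = t := by simp

/-- limits for the higher antiderivatives -/
lemma fk_lim (RH : RiemannHypothesis) (k : ℕ) {t : ℝ} (ht : 0 < t) :
    Tendsto (fun η : ℝ => fk (k + 2) η t) (𝓝[>] 0) (𝓝 (fk (k + 2) 0 t)) :=
  fk_lim_gen (k := k + 1) (Wk_int RH k (by rw [half_re]) (by rw [half_im]; exact ht))

/-- the limit for the argument -/
lemma fk_lim_one (RH : RiemannHypothesis) {t : ℝ} (ht : 0 < t) (hz : riemannZeta (1 / 2 + t * I) ≠ 0) :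
    Tendsto (fun η : ℝ => fk 1 η t) (𝓝[>] 0) (𝓝 (fk 1 0 t)) :=
  fk_lim_gen (k := 0) (gz_ray_int (crit_ray RH ht hz))

lemma fk_lim_all (RH : RiemannHypothesis) (k : ℕ) {t : ℝ} (ht : 0 < t) (hz : riemannZeta (1 / 2 + t * I) ≠ 0) :
    Tendsto (fun η : ℝ => fk (k + 1) η t) (𝓝[>] 0) (𝓝 (fk (k + 1) 0 t)) := by
  rcases k with _ | k
  · exact fk_lim_one RH ht hz
  · exact fk_lim RH k ht

/-- bounded, uniformly in the distance -/
lemma fk_bdd (RH : RiemannHypothesis) (T : ℝ) (k : ℕ) : ∃ C : ℝ, 0 ≤ C ∧ ∀ η t : ℝ, 0 < η → 0 < t → t ≤ T →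
    |fk (k + 1) η t| ≤ C := by
  have hpi := Real.pi_gt_three
  have hpi0 := Real.pi_pos
  have hpi1 : 1 / Real.pi ≤ 1 := by
    rw [div_le_one hpi0]; linarith
  rcases k with _ | k
  · obtain ⟨C, hC, h⟩ := V0_im RH T
    refine ⟨C, hC, fun η t hη ht hT => ?_⟩
    have h1 := h (1 / 2 + ((η : ℂ) + t * I)) (pt_Om hη ht) (by simpa using hT)
    unfold fk
    have e : (I ^ (0 + 1 + 1) * Wk gz (0 + 1) (1 / 2 + ((η : ℂ) + t * I))).im = -(Wk gz 1 (1 / 2 + ((η : ℂ) + t * I))).im := by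
      rw [zero_add, one_add_one_eq_two, I_sq]; simp
    rw [e, abs_mul, abs_neg, abs_of_pos (by positivity : 0 < 1 / Real.pi)]
    have := abs_nonneg (Wk gz 1 (1 / 2 + ((η : ℂ) + t * I))).im
    nlinarith
  · obtain ⟨C, hC, h⟩ := Wk_decay RH T k
    refine ⟨C, hC, fun η t hη ht hT => ?_⟩
    have h1 := h (1 / 2 + ((η : ℂ) + t * I)) (by simp; exact hη.le) (by simpa using ht) (by simpa using hT)
    unfold fk
    rw [abs_mul, abs_of_pos (by positivity : 0 < 1 / Real.pi)]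
    have h2 : |(I ^ (k + 1 + 1 + 1) * Wk gz (k + 1 + 1) (1 / 2 + ((η : ℂ) + t * I))).im| ≤ C := by
      refine (Complex.abs_im_le_norm _).trans ?_
      rw [norm_mul, norm_pow, Complex.norm_I, one_pow, one_mul]
      refine h1.trans ?_
      have : Real.exp (-((1 / 2 + ((η : ℂ) + t * I)).re / 2)) ≤ 1 := by
        refine Real.exp_le_one_iff.2 ?_
        simp
        linarith
      nlinarith
    have := abs_nonneg (I ^ (k + 1 + 1 + 1) * Wk gz (k + 1 + 1) (1 / 2 + ((η : ℂ) + t * I))).im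
    nlinarith

lemma fk_cont (RH : RiemannHypothesis) (k : ℕ) {η : ℝ} (hη : 0 < η) : ContinuousOn (fk (k + 1) η) (Ioi 0) :=
  fun _ ht => (fk_deriv RH hη ht k).continuousAt.continuousWithinAt

/-- integrability of the boundary functions -/
lemma fk0_int (RH : RiemannHypothesis) (k : ℕ) (T : ℝ) : IntegrableOn (fk (k + 1) 0) (Ioc 0 T) ∧
    ∃ C : ℝ, 0 ≤ C ∧ ∀ᵐ t : ℝ ∂volume.restrict (Ioc 0 T), |fk (k + 1) 0 t| ≤ C := by
  obtain ⟨C, hC, h⟩ := fk_bdd RH T k
  have hae : ∀ᵐ t : ℝ ∂volume.restrict (Ioc 0 T), riemannZeta (1 / 2 + t * I) ≠ 0 := ae_restrict_of_ae ord_ae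
  have hseq : Tendsto (fun n : ℕ => (1 : ℝ) / ((n : ℝ) + 1)) atTop (𝓝[>] 0) := by
    refine tendsto_nhdsWithin_iff.2 ⟨tendsto_one_div_add_atTop_nhds_zero_nat, Eventually.of_forall fun n => ?_⟩
    show (0 : ℝ) < 1 / ((n : ℝ) + 1)
    positivity
  have hlim : ∀ᵐ t : ℝ ∂volume.restrict (Ioc 0 T),
      Tendsto (fun n : ℕ => fk (k + 1) (1 / ((n : ℝ) + 1)) t) atTop (𝓝 (fk (k + 1) 0 t)) := by
    filter_upwards [hae, ae_restrict_mem measurableSet_Ioc] with t ht1 ht2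
    exact (fk_lim_all RH k ht2.1 ht1).comp hseq
  have hb : ∀ᵐ t : ℝ ∂volume.restrict (Ioc 0 T), |fk (k + 1) 0 t| ≤ C := by
    filter_upwards [hlim, ae_restrict_mem measurableSet_Ioc] with t ht1 ht2
    refine le_of_tendsto ht1.abs (Eventually.of_forall fun n => ?_)
    exact h _ t (by positivity) ht2.1 ht2.2
  have hm : AEStronglyMeasurable (fk (k + 1) 0) (volume.restrict (Ioc 0 T)) := by
    refine aestronglyMeasurable_of_tendsto_ae atTop (fun n : ℕ => ?_) hlim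
    refine ContinuousOn.aestronglyMeasurable ?_ measurableSet_Ioc
    exact (fk_cont RH k (by positivity)).mono fun t ht => ht.1
  refine ⟨⟨hm, ?_⟩, C, hC, hb⟩
  exact HasFiniteIntegral.of_bounded (C := C) (by
    filter_upwards [hb] with t ht
    rwa [Real.norm_eq_abs])

/-- the recursion on the critical line -/
lemma fk0_rec (RH : RiemannHypothesis) (k : ℕ) {t1 t2 : ℝ} (h1 : 0 < t1) (h12 : t1 ≤ t2) :
    fk (k + 2) 0 t2 - fk (k + 2) 0 t1 = ∫ τ : ℝ in t1..t2, fk (k + 1) 0 τ := by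
  obtain ⟨C, hC, h⟩ := fk_bdd RH t2 k
  have hsub : uIcc t1 t2 ⊆ Ioi 0 := by
    rw [uIcc_of_le h12]
    intro x hx; exact h1.trans_le hx.1
  have hFTC : ∀ η : ℝ, 0 < η → ∫ τ : ℝ in t1..t2, fk (k + 1) η τ = fk (k + 2) η t2 - fk (k + 2) η t1 := by
    intro η hη
    refine intervalIntegral.integral_eq_sub_of_hasDerivAt (fun τ hτ => fk_deriv RH hη (hsub hτ) (k + 1)) ?_
    exact ((fk_cont RH k hη).mono hsub).intervalIntegrable
  have hL : Tendsto (fun η : ℝ => ∫ τ : ℝ in t1..t2, fk (k + 1) η τ) (𝓝[>] 0) (𝓝 (∫ τ : ℝ in t1..t2, fk (k + 1) 0 τ)) := by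
    refine intervalIntegral.tendsto_integral_filter_of_dominated_convergence (fun _ => C) ?_ ?_ intervalIntegrable_const ?_
    · filter_upwards [self_mem_nhdsWithin] with η hη
      refine ContinuousOn.aestronglyMeasurable ?_ measurableSet_uIoc
      exact (fk_cont RH k hη).mono (uIoc_subset_uIcc.trans hsub)
    · filter_upwards [self_mem_nhdsWithin] with η hη
      refine Eventually.of_forall fun τ hτ => ?_
      rw [uIoc_of_le h12] at hτ
      rw [Real.norm_eq_abs]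
      exact h η τ hη (by linarith [hτ.1]) hτ.2
    · filter_upwards [ord_ae] with τ hτ1 hτ2
      rw [uIoc_of_le h12] at hτ2
      exact fk_lim_all RH k (by linarith [hτ2.1]) hτ1
  have hR : Tendsto (fun η : ℝ => fk (k + 2) η t2 - fk (k + 2) η t1) (𝓝[>] 0) (𝓝 (fk (k + 2) 0 t2 - fk (k + 2) 0 t1)) :=
    (fk_lim RH k (by linarith)).sub (fk_lim RH k h1)
  refine tendsto_nhds_unique (hR.congr' ?_) hL
  filter_upwards [self_mem_nhdsWithin] with η hη
  exact (hFTC η hη).symm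

/-- the recursion starting from `0` -/
lemma fk0_zero (RH : RiemannHypothesis) (k : ℕ) {d : ℝ} (hd : Tendsto (fk (k + 2) 0) (𝓝[>] 0) (𝓝 d)) {t : ℝ} (ht : 0 < t) :
    fk (k + 2) 0 t = (∫ τ : ℝ in (0 : ℝ)..t, fk (k + 1) 0 τ) + d := by
  have hint : IntervalIntegrable (fk (k + 1) 0) volume 0 t := by
    rw [intervalIntegrable_iff_integrableOn_Ioc_of_le ht.le]
    exact (fk0_int RH k t).1
  have h1 : Tendsto (fun t1 : ℝ => ∫ τ : ℝ in (0 : ℝ)..t1, fk (k + 1) 0 τ) (𝓝[>] 0) (𝓝 0) := by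
    have h6 := intervalIntegral.continuousOn_primitive_interval' hint left_mem_uIcc
    have h7 := h6 0 left_mem_uIcc
    rw [uIcc_of_le ht.le] at h7
    have h8 : Tendsto (fun η : ℝ => ∫ u : ℝ in (0 : ℝ)..η, fk (k + 1) 0 u) (𝓝[Icc 0 t] 0)
        (𝓝 (∫ u : ℝ in (0 : ℝ)..0, fk (k + 1) 0 u)) := h7
    rw [intervalIntegral.integral_same] at h8
    refine h8.mono_left ?_
    rw [← nhdsWithin_Ioc_eq_nhdsGT ht]
    exact nhdsWithin_mono _ Ioc_subset_Icc_self
  have h2 : Tendsto (fun t1 : ℝ => (∫ τ : ℝ in (0 : ℝ)..t, fk (k + 1) 0 τ) - ∫ τ : ℝ in (0 : ℝ)..t1, fk (k + 1) 0 τ)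
      (𝓝[>] 0) (𝓝 ((∫ τ : ℝ in (0 : ℝ)..t, fk (k + 1) 0 τ) - 0)) := tendsto_const_nhds.sub h1
  have h3 : Tendsto (fun t1 : ℝ => fk (k + 2) 0 t - fk (k + 2) 0 t1) (𝓝[>] 0) (𝓝 (fk (k + 2) 0 t - d)) :=
    tendsto_const_nhds.sub hd
  have h4 : (fun t1 : ℝ => fk (k + 2) 0 t - fk (k + 2) 0 t1) =ᶠ[𝓝[>] 0]
      fun t1 : ℝ => (∫ τ : ℝ in (0 : ℝ)..t, fk (k + 1) 0 τ) - ∫ τ : ℝ in (0 : ℝ)..t1, fk (k + 1) 0 τ := by
    rw [EventuallyEq, ← nhdsWithin_Ioc_eq_nhdsGT ht]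
    filter_upwards [self_mem_nhdsWithin] with t1 ht1
    rw [fk0_rec RH k ht1.1 ht1.2]
    have hi : IntervalIntegrable (fk (k + 1) 0) volume 0 t1 := by
      refine hint.mono_set ?_
      rw [uIcc_of_le ht.le, uIcc_of_le ht1.1.le]
      exact Icc_subset_Icc_right ht1.2
    exact (intervalIntegral.integral_interval_sub_left hint hi).symm
  have h5 := tendsto_nhds_unique (h3.congr' h4) h2
  linarith

end Pool.Agent.Q31.SN
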