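import Pool.Agent.Q31.SN.Bd

set_option autoImplicit false

/-! Bounds for the logarithm of zeta up to the critical line and the real axis. -/

open Complex Filter Topology Set MeasureTheory

namespace Pool.Agent.Q31.SN

lemma z1_ne (RH : RiemannHypothesis) {s : ℂ} (hs : 1 / 2 < s.re) : riemannZeta₁ s ≠ 0 := by
  by_cases h : s = 1
  · rw [h]; simp
  · intro h0
    have h1 := riemannZeta_eq_inv_sub_mul h
    rw [h0, mul_zero] at h1
    exact zeta_ne RH hs h1

lemma gz_eq (RH : RiemannHypothesis) {s : ℂ} (hs : s ∈ Om) :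
    gz s = deriv riemannZeta₁ s / riemannZeta₁ s - (s - 1)⁻¹ := by
  have h1 : s ≠ 1 := by rintro rfl; simpa using hs.2
  have h2 : s - 1 ≠ 0 := sub_ne_zero.2 h1
  have h3 := z1_ne RH hs.1
  unfold gz
  rw [deriv_riemannZeta_eq_neg_inv_sub_sq_mul_add h1, riemannZeta_eq_inv_sub_mul h1]
  field_simp
  ring

lemma sub_one_slit {s : ℂ} (hs : s ∈ Om) : s - 1 ∈ slitPlane := by
  right
  have := hs.2
  simp
  exact this.ne'

/-- `V₀ − Log(s−1)` -/
noncomputable def UU (s : ℂ) : ℂ := Wk gz 1 s - Complex.log (s - 1)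

lemma UU_deriv (RH : RiemannHypothesis) {s : ℂ} (hs : s ∈ Om) :
    HasDerivAt UU (-(deriv riemannZeta₁ s / riemannZeta₁ s)) s := by
  have h1 : HasDerivAt (Wk gz 1) (-gz s) s := R_deriv (Dk_gz RH) hs
  have h2 : HasDerivAt (fun s : ℂ => Complex.log (s - 1)) (1 / (s - 1)) s :=
    ((hasDerivAt_id s).sub_const 1).clog (sub_one_slit hs)
  have h3 := h1.sub h2
  have e : -gz s - 1 / (s - 1) = -(deriv riemannZeta₁ s / riemannZeta₁ s) := by
    rw [gz_eq RH hs, one_div]; ring
  rw [e] at h3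
  exact h3

lemma z1_not_ev (p : ℂ) : ¬ ∀ᶠ z in 𝓝 p, riemannZeta₁ z = 0 := by
  intro h
  have h1 : AnalyticOnNhd ℂ riemannZeta₁ univ :=
    (differentiable_riemannZeta₁.differentiableOn).analyticOnNhd isOpen_univ
  have h2 := h1.eqOn_zero_of_preconnected_of_eventuallyEq_zero isPreconnected_univ (mem_univ p) h
  have h3 := h2 (mem_univ 1)
  simp at h3

lemma Om_convex : Convex ℝ Om := by
  have h1 : Convex ℝ {s : ℂ | 1 / 2 < s.re} := convex_halfSpace_re_gt _
  have h2 : Convex ℝ {s : ℂ | 0 < s.im} := convex_halfSpace_im_gt _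
  exact h1.inter h2

/-- the local lemma -/
lemma loc (RH : RiemannHypothesis) {p : ℂ} (hp : 1 / 2 ≤ p.re) : ∃ r : ℝ, 0 < r ∧ ∃ C : ℝ, 0 ≤ C ∧
    ∀ s ∈ Om, ‖s - p‖ < r → |(UU s).im| ≤ C ∧ |(UU s).re| ≤ C * (1 + |Real.log (s.re - 1 / 2)|) := by
  have han : AnalyticAt ℂ riemannZeta₁ p :=
    (differentiable_riemannZeta₁.differentiableOn.analyticOnNhd isOpen_univ) p (mem_univ p)
  obtain ⟨n, g, hg, hg0, hev⟩ := han.exists_eventuallyEq_pow_smul_nonzero_iff.2 (z1_not_ev p)
  have hG : AnalyticAt ℂ (fun z => deriv g z / g z) p := hg.deriv.div hg hg0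
  have e1 : ∀ᶠ z in 𝓝 p, ‖deriv g z / g z‖ < ‖deriv g p / g p‖ + 1 :=
    hG.continuousAt.norm.eventually (gt_mem_nhds (by simp))
  have e2 : ∀ᶠ z in 𝓝 p, g z ≠ 0 := hg.continuousAt.eventually_ne hg0
  have e3 : ∀ᶠ z in 𝓝 p, AnalyticAt ℂ g z := hg.eventually_analyticAt
  have e4 := hev.eventually_nhds
  obtain ⟨r0, hr0, hball⟩ := Metric.eventually_nhds_iff.1 (e1.and (e2.and (e3.and e4)))
  set r := min r0 1 with hr
  have hrpos : 0 < r := lt_min hr0 one_pos
  set M := ‖deriv g p / g p‖ + 1 with hM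
  have hM0 : 0 ≤ M := by positivity
  have hnp : n ≠ 0 → p.re = 1 / 2 := by
    intro hn
    by_contra hne
    have h1 : 1 / 2 < p.re := lt_of_le_of_ne hp (Ne.symm hne)
    apply z1_ne RH h1
    have h2 := hev.self_of_nhds
    rw [h2]
    simp [hn]
  -- the corrected function
  set F : ℂ → ℂ := fun s => UU s + n * Complex.log (s - p) with hF
  set W : Set ℂ := Om ∩ Metric.ball p r with hW
  have hWc : Convex ℝ W := Om_convex.inter (convex_ball p r)
  have hder : ∀ s ∈ W, HasDerivWithinAt F (-(deriv g s / g s)) W s := by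
    intro s hs
    have hsb : dist s p < r0 := (Metric.mem_ball.1 hs.2).trans_le (min_le_left _ _)
    obtain ⟨_, b2, b3, b4⟩ := hball hsb
    have h1 := UU_deriv RH hs.1
    have hz1 := z1_ne RH hs.1.1
    have heq : riemannZeta₁ s = (s - p) ^ n • g s := b4.self_of_nhds
    have hderiv : deriv riemannZeta₁ s = n * (s - p) ^ (n - 1) * g s + (s - p) ^ n * deriv g s := by
      have h2 : riemannZeta₁ =ᶠ[𝓝 s] fun z => (z - p) ^ n * g z := by
        filter_upwards [b4] with z hz
        rw [hz, smul_eq_mul]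
      rw [h2.deriv_eq]
      have h3 : HasDerivAt (fun z : ℂ => (z - p) ^ n) (n * (s - p) ^ (n - 1)) s := by
        have := ((hasDerivAt_id s).sub_const p).fun_pow n
        simpa using this
      exact (h3.mul b3.differentiableAt.hasDerivAt).deriv
    rw [smul_eq_mul] at heq
    rcases Nat.eq_zero_or_pos n with hn | hn
    · subst hn
      have e5 : F = UU := by funext z; simp [hF]
      rw [e5]
      have e6 : -(deriv g s / g s) = -(deriv riemannZeta₁ s / riemannZeta₁ s) := by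
        rw [hderiv, heq]; simp
      rw [e6]
      exact h1.hasDerivWithinAt
    · have hpr := hnp hn.ne'
      have hslit : s - p ∈ slitPlane := by
        left
        have := hs.1.1
        simp [hpr]
        linarith
      have hsp : s - p ≠ 0 := slitPlane_ne_zero hslit
      have h2 : HasDerivAt (fun s : ℂ => (n : ℂ) * Complex.log (s - p)) (n * (1 / (s - p))) s :=
        (((hasDerivAt_id s).sub_const p).clog hslit).const_mul _
      have h3 := h1.add h2
      have e6 : -(deriv riemannZeta₁ s / riemannZeta₁ s) + n * (1 / (s - p)) = -(deriv g s / g s) := by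
        rw [hderiv, heq]
        obtain ⟨m, rfl⟩ : ∃ m, n = m + 1 := ⟨n - 1, by omega⟩
        rw [Nat.add_sub_cancel]
        have : (s - p) ^ m ≠ 0 := pow_ne_zero _ hsp
        rw [pow_succ]
        field_simp
        ring
      rw [e6] at h3
      exact h3.hasDerivWithinAt
  have hbd : ∀ s ∈ W, ‖-(deriv g s / g s)‖ ≤ M := by
    intro s hs
    rw [norm_neg]
    exact (hball ((Metric.mem_ball.1 hs.2).trans_le (min_le_left _ _))).1.le
  have hFb : ∃ C0 : ℝ, 0 ≤ C0 ∧ ∀ s ∈ W, ‖F s‖ ≤ C0 := by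
    rcases W.eq_empty_or_nonempty with h | ⟨s0, hs0⟩
    · exact ⟨0, le_rfl, fun s hs => by rw [h] at hs; exact absurd hs (notMem_empty s)⟩
    · refine ⟨‖F s0‖ + M * 2, by positivity, fun s hs => ?_⟩
      have h1 := hWc.norm_image_sub_le_of_norm_hasDerivWithin_le hder hbd hs0 hs
      have h2 : ‖s - s0‖ ≤ 2 := by
        have a1 := Metric.mem_ball.1 hs.2
        have a2 := Metric.mem_ball.1 hs0.2
        rw [← dist_eq_norm]
        have a3 := dist_triangle_right s s0 p
        have a4 : r ≤ 1 := min_le_right _ _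
        linarith
      have h3 : F s = F s0 + (F s - F s0) := by ring
      rw [h3]
      refine (norm_add_le _ _).trans ?_
      have := mul_le_mul_of_nonneg_left h2 hM0
      linarith
  obtain ⟨C0, hC0, hFC⟩ := hFb
  refine ⟨r, hrpos, C0 + n * Real.pi, by positivity, fun s hs hsr => ?_⟩
  have hsW : s ∈ W := ⟨hs, by rw [Metric.mem_ball, dist_eq_norm]; exact hsr⟩
  have h1 := hFC s hsW
  have e5 : UU s = F s - n * Complex.log (s - p) := by simp [hF]
  have e6 : (UU s).im = (F s).im - n * (s - p).arg := by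
    rw [e5]
    simp [Complex.log_im]
  have e7 : (UU s).re = (F s).re - n * Real.log ‖s - p‖ := by
    rw [e5]
    simp [Complex.log_re]
  have hn0 : (0 : ℝ) ≤ n := Nat.cast_nonneg n
  have him := (Complex.abs_im_le_norm _).trans h1
  have hre := (Complex.abs_re_le_norm _).trans h1
  constructor
  · rw [e6]
    refine (abs_sub _ _).trans ?_
    rw [abs_mul, abs_of_nonneg hn0]
    have := mul_le_mul_of_nonneg_left (Complex.abs_arg_le_pi (s - p)) hn0
    linarith
  · rw [e7]
    refine (abs_sub _ _).trans ?_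
    rw [abs_mul, abs_of_nonneg hn0]
    have h4 : (n : ℝ) * |Real.log ‖s - p‖| ≤ n * |Real.log (s.re - 1 / 2)| := by
      rcases Nat.eq_zero_or_pos n with hn | hn
      · subst hn; simp
      · refine mul_le_mul_of_nonneg_left ?_ hn0
        have hpr := hnp hn.ne'
        have h5 : s.re - 1 / 2 ≤ ‖s - p‖ := by
          have := Complex.re_le_norm (s - p)
          simp [hpr] at this
          linarith
        have h6 : 0 < s.re - 1 / 2 := by linarith [hs.1]
        have h7 : ‖s - p‖ < 1 := hsr.trans_le (min_le_right _ _)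
        have h8 := Real.log_le_log h6 h5
        have h9 : Real.log ‖s - p‖ ≤ 0 := Real.log_nonpos (norm_nonneg _) h7.le
        rw [abs_of_nonpos h9, abs_of_nonpos (h8.trans h9)]
        linarith
    have hpi : (1 : ℝ) ≤ Real.pi := by linarith [Real.pi_gt_three]
    have h10 : 0 ≤ |Real.log (s.re - 1 / 2)| := abs_nonneg _
    have h11 : n * |Real.log (s.re - 1 / 2)| ≤ n * Real.pi * |Real.log (s.re - 1 / 2)| := by
      refine mul_le_mul_of_nonneg_right ?_ h10
      nlinarith
    have h12 : 0 ≤ C0 * |Real.log (s.re - 1 / 2)| := by positivity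
    have h13 : 0 ≤ (n : ℝ) * Real.pi := by positivity
    nlinarith

/-- the uniform version -/
lemma strip (RH : RiemannHypothesis) (T : ℝ) : ∃ C : ℝ, 0 ≤ C ∧ ∀ s ∈ Om, s.re ≤ 3 → s.im ≤ T →
    |(UU s).im| ≤ C ∧ |(UU s).re| ≤ C * (1 + |Real.log (s.re - 1 / 2)|) := by
  have hK : IsCompact (Icc (1 / 2 : ℝ) 3 ×ℂ Icc 0 T) := isCompact_Icc.reProdIm isCompact_Icc
  have key := hK.induction_on (p := fun A : Set ℂ => ∃ C : ℝ, 0 ≤ C ∧ ∀ s ∈ Om, s ∈ A →
    |(UU s).im| ≤ C ∧ |(UU s).re| ≤ C * (1 + |Real.log (s.re - 1 / 2)|))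
    ⟨0, le_rfl, fun s _ hs => absurd hs (notMem_empty s)⟩
    (fun A B hAB ⟨C, hC, h⟩ => ⟨C, hC, fun s hs hsA => h s hs (hAB hsA)⟩)
    (fun A B ⟨C1, hC1, h1⟩ ⟨C2, hC2, h2⟩ => ⟨C1 + C2, by positivity, fun s hs hsAB => by
      have ha : 0 ≤ |Real.log (s.re - 1 / 2)| := abs_nonneg _
      rcases hsAB with h | h
      · obtain ⟨a, b⟩ := h1 s hs h
        exact ⟨by linarith, by nlinarith⟩
      · obtain ⟨a, b⟩ := h2 s hs h
        exact ⟨by linarith, by nlinarith⟩⟩)
    (fun p hp => by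
      rw [Complex.mem_reProdIm] at hp
      obtain ⟨r, hr, C, hC, h⟩ := loc RH hp.1.1
      refine ⟨Metric.ball p r, mem_nhdsWithin_of_mem_nhds (Metric.ball_mem_nhds p hr), C, hC, fun s hs hsb => ?_⟩
      exact h s hs (by rw [← dist_eq_norm]; exact Metric.mem_ball.1 hsb))
  obtain ⟨C, hC, h⟩ := key
  refine ⟨C, hC, fun s hs h1 h2 => h s hs ?_⟩
  rw [Complex.mem_reProdIm]
  exact ⟨⟨hs.1.le, h1⟩, ⟨hs.2.le, h2⟩⟩

end Pool.Agent.Q31.SN
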