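import Pool.Agent.Q31.SN.Bd

set_option autoImplicit false

/-! The sharp bounds for the even antiderivatives at distance `η` from the critical line. -/

open Complex Filter Topology Set MeasureTheory

namespace Pool.Agent.Q31.SN

lemma pow_exp_tendsto (p : ℕ) {δ : ℝ} (hδ : 0 < δ) :
    Tendsto (fun y : ℝ => y ^ p * Real.exp (-(δ * y))) atTop (𝓝 0) := by
  have h1 : Tendsto (fun y : ℝ => δ * y) atTop atTop := tendsto_id.const_mul_atTop hδ
  have h2 := ((Real.tendsto_pow_mul_exp_neg_atTop_nhds_zero p).comp h1).const_mul ((1 / δ) ^ p)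
  rw [mul_zero] at h2
  refine h2.congr fun y => ?_
  simp only [Function.comp]
  rw [mul_pow, ← mul_assoc, ← mul_assoc, ← mul_pow, one_div_mul_cancel hδ.ne', one_pow, one_mul]

lemma loglog_tendsto : Tendsto (fun t : ℝ => Real.log (Real.log t)) atTop atTop :=
  Real.tendsto_log_atTop.comp Real.tendsto_log_atTop

/-- `A_n^+` and `A_n^-` -/
noncomputable def Ap (n : ℕ) : ℝ := -(Real.pi ^ n * bm (n + 1)) / (2 * ((n + 1).factorial : ℝ))

noncomputable def Am (n : ℕ) : ℝ := Real.pi ^ n * bM (n + 1) / (2 * ((n + 1).factorial : ℝ))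

/-- `Λ_n(t)` -/
noncomputable def La (n : ℕ) (t : ℝ) : ℝ := Real.log t / Real.log (Real.log t) ^ (n + 1)

/-- the bound with a factor `κ` -/
lemma main_kappa (RH : RiemannHypothesis) {n : ℕ} (hn : Even n) (hn2 : 2 ≤ n) {δ : ℝ} (hδ : 0 < δ) (hδ1 : δ ≤ 1 / 2) :
    ∃ T0 : ℝ, ∀ t : ℝ, T0 ≤ t → ∀ η : ℝ, 0 < η → η ≤ 1 →
      fk (n + 1) η t ≤ ((1 - δ) ^ (n + 4))⁻¹ * Ap n * La n t ∧
      -(((1 - δ) ^ (n + 4))⁻¹ * Am n * La n t) ≤ fk (n + 1) η t := by
  set r := n + 2 with hr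
  have hre : Even r := hn.add even_two
  have hr4 : 4 ≤ r := by omega
  have hm : Odd (n + 1) := hn.add_one
  obtain ⟨Rr, hR, hcmp⟩ := final_compare hr4 hre hδ (by linarith : δ ≤ 1)
  obtain ⟨C1, hC1, hb⟩ := fk_bounds RH hm
  obtain ⟨C2, hC2, hlow⟩ := fk_low RH
  rw [show n + 1 + 1 = r by omega] at hb
  have hbe := be_pos (r := r) (by omega) hre
  have hzb := zt_be (r := r) (by omega) hre
  have hd1 : 0 < 1 - δ := by linarith
  have hd2 : 1 - δ < 1 := by linarith
  set C := C1 + C2 with hC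
  -- the small parameter
  set q : ℝ := 1 - 2 / 2 ^ r with hq
  have hq0 : 7 / 8 ≤ q := by
    have h16 : (16 : ℝ) ≤ 2 ^ r := by
      calc (16 : ℝ) = 2 ^ 4 := by norm_num
        _ ≤ 2 ^ r := pow_le_pow_right₀ (by norm_num) hr4
    have : (2 : ℝ) / 2 ^ r ≤ 1 / 8 := by
      rw [div_le_div_iff₀ (by positivity) (by norm_num)]; linarith
    rw [hq]; linarith
  have hq1 : q ≤ 1 := by
    have : (0 : ℝ) < 2 / 2 ^ r := by positivity
    rw [hq]; linarith
  -- ν
  obtain ⟨ν, hν, hν1, hν2, hν3⟩ : ∃ ν : ℝ, 0 < ν ∧ (1 + ν + 2 * ν) * (1 - δ) ^ (r + 1) ≤ 1 ∧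
      (1 + 2 * ν) * (be r * (1 - δ) ^ 2) + ν * (1 - δ) ^ (r + 2) < be r ∧
      (1 + ν) * (q * be r * (1 - δ) ^ 2) + ν * (1 - δ) ^ (r + 2) < q * be r := by
    have hpw : (1 - δ) ^ (r + 1) < 1 := pow_lt_one₀ hd1.le hd2 (by omega)
    have hpw2 : (1 - δ) ^ 2 < 1 := pow_lt_one₀ hd1.le hd2 (by norm_num)
    have c1 : Tendsto (fun ν : ℝ => (1 + ν + 2 * ν) * (1 - δ) ^ (r + 1)) (𝓝[>] 0) (𝓝 ((1 + 0 + 2 * 0) * (1 - δ) ^ (r + 1))) :=
      ((by fun_prop : Continuous fun ν : ℝ => (1 + ν + 2 * ν) * (1 - δ) ^ (r + 1)).tendsto 0).mono_left nhdsWithin_le_nhds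
    have c2 : Tendsto (fun ν : ℝ => (1 + 2 * ν) * (be r * (1 - δ) ^ 2) + ν * (1 - δ) ^ (r + 2)) (𝓝[>] 0)
        (𝓝 ((1 + 2 * 0) * (be r * (1 - δ) ^ 2) + 0 * (1 - δ) ^ (r + 2))) :=
      ((by fun_prop : Continuous fun ν : ℝ => (1 + 2 * ν) * (be r * (1 - δ) ^ 2) + ν * (1 - δ) ^ (r + 2)).tendsto 0).mono_left nhdsWithin_le_nhds
    have c3 : Tendsto (fun ν : ℝ => (1 + ν) * (q * be r * (1 - δ) ^ 2) + ν * (1 - δ) ^ (r + 2)) (𝓝[>] 0)
        (𝓝 ((1 + 0) * (q * be r * (1 - δ) ^ 2) + 0 * (1 - δ) ^ (r + 2))) :=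
      ((by fun_prop : Continuous fun ν : ℝ => (1 + ν) * (q * be r * (1 - δ) ^ 2) + ν * (1 - δ) ^ (r + 2)).tendsto 0).mono_left nhdsWithin_le_nhds
    have d1 := c1.eventually (gt_mem_nhds (show (1 + 0 + 2 * 0) * (1 - δ) ^ (r + 1) < 1 by linarith))
    have d2 := c2.eventually (gt_mem_nhds (show (1 + 2 * 0) * (be r * (1 - δ) ^ 2) + 0 * (1 - δ) ^ (r + 2) < be r by nlinarith))
    have hqb : 0 < q * be r := mul_pos (by linarith) hbe
    have d3 := c3.eventually (gt_mem_nhds (show (1 + 0) * (q * be r * (1 - δ) ^ 2) + 0 * (1 - δ) ^ (r + 2) < q * be r by nlinarith))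
    have d0 : ∀ᶠ ν : ℝ in 𝓝[>] 0, ν ∈ Ioi (0 : ℝ) := self_mem_nhdsWithin
    obtain ⟨ν, hν0, h1, h2, h3⟩ := (d0.and (d1.and (d2.and d3))).exists
    exact ⟨ν, hν0, h1.le, h2, h3⟩
  -- eventual facts
  have ev1 : ∀ᶠ t : ℝ in atTop, 1 ≤ (2 * (1 - δ)) * Real.log (Real.log t) := by
    have := loglog_tendsto.const_mul_atTop (show 0 < 2 * (1 - δ) by linarith)
    exact this.eventually_ge_atTop 1
  have ev2 : ∀ᶠ t : ℝ in atTop, 1 ≤ Real.log (Real.log t) := loglog_tendsto.eventually_ge_atTop 1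
  have ev3 : ∀ᶠ t : ℝ in atTop, Real.log 2 / ν ≤ Real.log t := Real.tendsto_log_atTop.eventually_ge_atTop _
  have ev4 : ∀ᶠ t : ℝ in atTop, C * (2 * (1 - δ)) * (2 / Real.pi ^ r + 1) *
      (Real.log (Real.log t) ^ (r + 1) * Real.exp (-(δ * Real.log (Real.log t)))) < ν := by
    have h1 := ((pow_exp_tendsto (r + 1) hδ).comp loglog_tendsto).const_mul (C * (2 * (1 - δ)) * (2 / Real.pi ^ r + 1))
    rw [mul_zero] at h1
    exact h1.eventually (gt_mem_nhds hν)
  obtain ⟨T0, hT0⟩ := eventually_atTop.1 (ev1.and (ev2.and (ev3.and (ev4.and (eventually_ge_atTop (max 4 (8 * Rr)))))))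
  refine ⟨T0, fun t0 ht0 η hη hη1 => ?_⟩
  obtain ⟨e1, e2, e3, e4, e5⟩ := hT0 t0 ht0
  have ht4 : 4 ≤ t0 := (le_max_left _ _).trans e5
  have ht8 : 8 * Rr ≤ t0 := (le_max_right _ _).trans e5
  set ll := Real.log (Real.log t0) with hll
  set L0 := Real.log t0 with hL0
  set D := (2 * (1 - δ)) * ll with hD
  set E := D * Real.exp (D / 2) with hE
  set h := Real.pi / ll with hh
  set κ := ((1 - δ) ^ (r + 2))⁻¹ with hκ
  set c := κ * L0 / (2 * Real.pi) with hc
  have hpi := Real.pi_pos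
  have hll0 : 0 < ll := by linarith
  have hL00 : 0 < L0 := by
    by_contra hcon
    push Not at hcon
    have : L0 = 0 ∨ L0 < 0 := by rcases hcon.lt_or_eq with h | h; right; exact h; left; exact h
    have hlog4 : 0 < Real.log t0 := Real.log_pos (by linarith)
    linarith
  have hκ0 : 0 < κ := by positivity
  have hc0 : 0 < c := by positivity
  have hh0 : 0 < h := by positivity
  have hh4 : h ≤ 4 := by
    rw [hh, div_le_iff₀ hll0]
    have := Real.pi_lt_d2
    nlinarith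
  have hexpll : Real.exp ll = L0 := Real.exp_log hL00
  have hE0 : 0 < E := by positivity
  -- size of E
  have hEs : C * E * (2 / Real.pi ^ r + 1) * ll ^ r ≤ ν * L0 := by
    have e : E = 2 * (1 - δ) * ll * (L0 * Real.exp (-(δ * ll))) := by
      rw [hE, hD, ← hexpll, ← Real.exp_add]
      congr 2; ring
    rw [e]
    have : C * (2 * (1 - δ) * ll * (L0 * Real.exp (-(δ * ll)))) * (2 / Real.pi ^ r + 1) * ll ^ r =
        (C * (2 * (1 - δ)) * (2 / Real.pi ^ r + 1) * (ll ^ (r + 1) * Real.exp (-(δ * ll)))) * L0 := by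
      rw [pow_succ]; ring
    rw [this]
    exact mul_le_mul_of_nonneg_right e4.le hL00.le
  have hpr : 0 < Real.pi ^ r := by positivity
  have hllr : 1 ≤ ll ^ r := one_le_pow₀ e2
  have hEa : C * E * (2 / Real.pi ^ r) * ll ^ r ≤ ν * L0 := by
    have : 0 ≤ C * E * ll ^ r := by positivity
    nlinarith
  have hEb : C * E ≤ ν * L0 := by
    have h1 : 0 ≤ C * E * (2 / Real.pi ^ r) * ll ^ r := by positivity
    have h2 : C * E ≤ C * E * ll ^ r := by
      have : 0 ≤ C * E := by positivity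
      nlinarith
    nlinarith
  -- the window
  have hwin : ∀ x : ℝ, |x| < Rr → t0 / 2 ≤ t0 + h * x ∧ t0 + h * x ≤ 2 * t0 := by
    intro x hx
    have h1 : |h * x| ≤ 4 * Rr := by
      rw [abs_mul, abs_of_pos hh0]
      exact mul_le_mul hh4 hx.le (abs_nonneg _) (by norm_num)
    obtain ⟨h2, h3⟩ := abs_le.1 h1
    constructor <;> linarith
  have hlogx : ∀ x : ℝ, |x| < Rr → 0 ≤ Real.log (t0 + h * x) ∧ Real.log (t0 + h * x) ≤ (1 + ν) * L0 := by
    intro x hx
    obtain ⟨h1, h2⟩ := hwin x hx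
    refine ⟨Real.log_nonneg (by linarith), ?_⟩
    have h3 := Real.log_le_log (by linarith) h2
    rw [Real.log_mul (by norm_num) (by linarith)] at h3
    rw [div_le_iff₀ hν] at e3
    linarith
  set F : ℕ → ℝ → ℝ := fun k x => h ^ k * fk (r - k) η (t0 + h * x) / (c * h ^ r) with hF
  have hchr : 0 < c * h ^ r := by positivity
  have key := hcmp F ?_ ?_ ?_
  · obtain ⟨k1, k2⟩ := key
    have eF : F 1 0 = fk (n + 1) η t0 / (c * h ^ (n + 1)) := by
      simp only [hF]
      rw [show r - 1 = n + 1 by omega, mul_zero, add_zero, pow_one, hr, pow_succ h (n + 1)]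
      have : h ≠ 0 := hh0.ne'
      field_simp
    have hr1 : r - 1 = n + 1 := by omega
    rw [eF, hr1] at k1 k2
    have hcn : 0 < c * h ^ (n + 1) := by positivity
    rw [div_le_iff₀ hcn] at k1
    rw [le_div_iff₀ hcn] at k2
    have ec : c * h ^ (n + 1) = κ * (Real.pi ^ n / 2) * La n t0 := by
      rw [hc, hh, La, div_pow, ← hll, ← hL0, pow_succ Real.pi n]
      field_simp
    constructor
    · refine k1.trans (le_of_eq ?_)
      rw [ec, Ap]
      ring
    · refine le_trans (le_of_eq ?_) k2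
      rw [ec, Am]
      ring
  · -- derivatives
    intro k hk x hx
    obtain ⟨h1, h2⟩ := hwin x hx
    have e6 : r - k = (r - (k + 1)) + 1 := by omega
    have h3 : HasDerivAt (fk (r - k) η) (fk (r - (k + 1)) η (t0 + h * x)) (t0 + h * x) := by
      rw [e6]; exact fk_deriv RH hη (by linarith) _
    have h4 : HasDerivAt (fun x : ℝ => t0 + h * x) h x := by
      have := ((hasDerivAt_id x).const_mul h).const_add t0
      simpa using this
    have h5 := ((h3.comp x h4).const_mul (h ^ k)).div_const (c * h ^ r)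
    have e7 : F (k + 1) x = h ^ k * (fk (r - (k + 1)) η (t0 + h * x) * h) / (c * h ^ r) := by
      simp only [hF]
      rw [pow_succ h k]; ring
    rw [e7]
    exact h5
  · -- lower bound for the top derivative
    intro x hx
    obtain ⟨h1, h2⟩ := hwin x hx
    obtain ⟨h3, h4⟩ := hlogx x hx
    have h5 := hlow D η (t0 + h * x) e1 hη hη1 (by linarith)
    have e8 : F r x = Real.pi * fk 0 η (t0 + h * x) / (Real.pi * c) := by
      simp only [hF]
      rw [Nat.sub_self]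
      have : h ^ r ≠ 0 := by positivity
      field_simp
    rw [e8, le_div_iff₀ (by positivity)]
    refine le_trans ?_ h5
    have hC2E : C2 * (D * Real.exp (D / 2)) ≤ ν * L0 := by
      refine le_trans ?_ hEb
      rw [← hE]
      refine mul_le_mul_of_nonneg_right ?_ hE0.le
      rw [hC]; linarith
    have e9 : Real.pi * c = κ * L0 / 2 := by rw [hc]; field_simp
    rw [e9]
    have h6 : (1 + ν + 2 * ν) ≤ (1 - δ) * κ := by
      have : (1 - δ) * κ = ((1 - δ) ^ (r + 1))⁻¹ := by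
        rw [hκ, pow_succ (1 - δ) (r + 1)]
        have : (1 - δ) ^ (r + 1) ≠ 0 := by positivity
        field_simp
      rw [this, le_inv_comm₀ (by positivity) (by positivity), inv_eq_one_div, le_div_iff₀ (by positivity)]
      linarith
    have h7 : (1 + ν + 2 * ν) * L0 ≤ (1 - δ) * κ * L0 := mul_le_mul_of_nonneg_right h6 hL00.le
    nlinarith
  · -- range
    intro x hx
    obtain ⟨h1, h2⟩ := hwin x hx
    obtain ⟨h3, h4⟩ := hlogx x hx
    obtain ⟨b1, b2⟩ := hb D η (t0 + h * x) e1 hη hη1 (by linarith)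
    rw [← hE] at b1 b2
    have hC1E : C1 * E ≤ C * E := mul_le_mul_of_nonneg_right (by rw [hC]; linarith) hE0.le
    have e8 : (-1 : ℝ) ^ (r / 2) * F 0 x = Real.pi * ((-1) ^ (r / 2) * fk r η (t0 + h * x)) / (Real.pi * (c * h ^ r)) := by
      simp only [hF]
      rw [pow_zero, one_mul, Nat.sub_zero]
      field_simp
    have e9 : Real.pi * (c * h ^ r) = κ * L0 / 2 * (Real.pi ^ r / ll ^ r) := by
      rw [hc, hh, div_pow]
      have : Real.pi ≠ 0 := hpi.ne'
      calc Real.pi * (κ * L0 / (2 * Real.pi) * (Real.pi ^ r / ll ^ r)) =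
            (Real.pi / Real.pi) * (κ * L0 / 2 * (Real.pi ^ r / ll ^ r)) := by ring
        _ = _ := by rw [div_self this, one_mul]
    have hpch : 0 < Real.pi * (c * h ^ r) := by positivity
    have hz : zt r / D ^ r = be r / 2 * (Real.pi ^ r / ll ^ r) / (1 - δ) ^ r := by
      rw [hzb, hD, mul_pow, mul_pow]
      have : (2 : ℝ) ^ r = 2 ^ (r - 1) * 2 := by
        rw [← pow_succ]; congr 1
      rw [this]
      have : (1 - δ) ^ r ≠ 0 := by positivity
      field_simp
    have hκe : κ * (1 - δ) ^ (r + 2) = 1 := by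
      rw [hκ]; exact inv_mul_cancel₀ (by positivity)
    -- the error in terms of the main unit
    have herr : C * E ≤ ν * (L0 / 2) * (Real.pi ^ r / ll ^ r) := by
      have h5 : C * E * (2 / Real.pi ^ r) * ll ^ r * (Real.pi ^ r / ll ^ r / 2) ≤ ν * L0 * (Real.pi ^ r / ll ^ r / 2) :=
        mul_le_mul_of_nonneg_right hEa (by positivity)
      have h6 : C * E * (2 / Real.pi ^ r) * ll ^ r * (Real.pi ^ r / ll ^ r / 2) = C * E := by
        have : ll ^ r ≠ 0 := by positivity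
        field_simp
      rw [h6] at h5
      linarith
    set P := Real.pi ^ r / ll ^ r with hP
    have hP0 : 0 < P := by positivity
    have hdr : 0 < (1 - δ) ^ r := by positivity
    rw [e8]
    constructor
    · rw [lt_div_iff₀ hpch, e9]
      have h5 : Real.log (t0 + h * x) * (q * zt r / D ^ r) ≤ (1 + ν) * L0 * (q * (be r / 2 * P / (1 - δ) ^ r)) := by
        rw [mul_div_assoc, hz]
        exact mul_le_mul_of_nonneg_right h4 (by positivity)
      have h6 : (1 + ν) * L0 * (q * (be r / 2 * P / (1 - δ) ^ r)) =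
          κ * L0 / 2 * P * ((1 + ν) * (q * be r * (1 - δ) ^ 2)) := by
        rw [hκ, pow_add (1 - δ) r 2]
        have : (1 - δ) ^ 2 ≠ 0 := by positivity
        field_simp
      have h7 : ν * (L0 / 2) * P = κ * L0 / 2 * P * (ν * (1 - δ) ^ (r + 2)) := by
        calc ν * (L0 / 2) * P = ν * (L0 / 2) * P * 1 := by ring
          _ = ν * (L0 / 2) * P * (κ * (1 - δ) ^ (r + 2)) := by rw [hκe]
          _ = _ := by ring
      have h8 : κ * L0 / 2 * P * ((1 + ν) * (q * be r * (1 - δ) ^ 2) + ν * (1 - δ) ^ (r + 2)) <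
          κ * L0 / 2 * P * (q * be r) := mul_lt_mul_of_pos_left hν3 (by positivity)
      linarith
    · rw [div_lt_iff₀ hpch, e9]
      have h5 : (Real.log (t0 + h * x) + C1 * E) * (zt r / D ^ r) ≤ (1 + 2 * ν) * L0 * (be r / 2 * P / (1 - δ) ^ r) := by
        rw [hz]
        refine mul_le_mul_of_nonneg_right ?_ (by positivity)
        linarith
      have h6 : (1 + 2 * ν) * L0 * (be r / 2 * P / (1 - δ) ^ r) =
          κ * L0 / 2 * P * ((1 + 2 * ν) * (be r * (1 - δ) ^ 2)) := by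
        rw [hκ, pow_add (1 - δ) r 2]
        have : (1 - δ) ^ 2 ≠ 0 := by positivity
        field_simp
      have h7 : ν * (L0 / 2) * P = κ * L0 / 2 * P * (ν * (1 - δ) ^ (r + 2)) := by
        calc ν * (L0 / 2) * P = ν * (L0 / 2) * P * 1 := by ring
          _ = ν * (L0 / 2) * P * (κ * (1 - δ) ^ (r + 2)) := by rw [hκe]
          _ = _ := by ring
      have h8 : κ * L0 / 2 * P * ((1 + 2 * ν) * (be r * (1 - δ) ^ 2) + ν * (1 - δ) ^ (r + 2)) <
          κ * L0 / 2 * P * (be r) := mul_lt_mul_of_pos_left hν2 (by positivity)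
      linarith

end Pool.Agent.Q31.SN
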