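import Pool.Agent.Y23.We6
import Pool.Agent.H24R2.JP.Had
import Pool.Agent.H24R2.JP.Grow

set_option autoImplicit false

/-! The real part of the logarithmic derivative of xi as a sum over the zeros, under RH. -/

open Complex Filter Topology Set Metric Polynomial
open scoped ComplexConjugate
open Pool.Agent.H24R2.JP (XX FF)
open Pool.Agent.Y23 (ZZ Zt mu IsZ)

namespace Pool.Agent.Q31.SN

lemma FF0_ne : FF 0 ≠ 0 := by
  have h := Pool.Agent.Y23.XX_zero_ne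
  rw [← Pool.Agent.H24R2.JP.B1h.FF_sq 0] at h
  simpa using h

lemma approx (r δ : ℝ) (hr : 0 < r) (hδ : 0 < δ) (hδ1 : δ ≤ 1) (N0 : ℕ) :
    ∃ (N : ℕ) (P : ℝ[X]) (G : ℂ → ℂ), N0 ≤ N ∧ Differentiable ℂ G ∧ G 0 ≠ 0 ∧
      (∀ w, FF w = aeval w P * G w) ∧ (∀ w, ‖w‖ ≤ (N : ℝ) + 1 → G w ≠ 0) ∧
      ∀ w, ‖w‖ ≤ r → ‖G w / G 0 - 1‖ ≤ 2 * δ := by
  obtain ⟨hF, hsq, hsym, -⟩ := Pool.Agent.H24R2.JP.b1
  obtain ⟨K, hb⟩ := Pool.Agent.H24R2.JP.grow Pool.Agent.H24R2.JP.b1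
  have h0 := FF0_ne
  set K' : ℝ := max K 0 with hK'
  have hK0 : 0 ≤ K' := le_max_right _ _
  have hbr : ∀ r : ℝ, ∀ w : ℂ, ‖w‖ ≤ r → ‖FF w‖ ≤ Real.exp (K' * (1 + r) ^ (3/4 : ℝ)) := by
    intro r w hw
    refine (hb w).trans (Real.exp_le_exp.2 ?_)
    calc K * (1 + ‖w‖) ^ (3/4 : ℝ) ≤ K' * (1 + ‖w‖) ^ (3/4 : ℝ) :=
          mul_le_mul_of_nonneg_right (le_max_left _ _)
            (Real.rpow_nonneg (by linarith [norm_nonneg w]) _)
      _ ≤ K' * (1 + r) ^ (3/4 : ℝ) :=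
          mul_le_mul_of_nonneg_left (Real.rpow_le_rpow (by linarith [norm_nonneg w])
            (by linarith) (by norm_num)) hK0
  set c : ℝ := |Real.log ‖FF 0‖| with hc
  obtain ⟨N, hN0, hNr, hNδ⟩ := ((eventually_ge_atTop N0).and
    (Pool.Agent.H24R2.JP.had_lim (K := K') (r := r) (c := c) hK0 hr (abs_nonneg _) hδ)).exists
  have hρ : 0 < (N : ℝ) + 1 := by positivity
  obtain ⟨n, hn⟩ := exists_nat_ge
    (∑ᶠ u, (MeromorphicOn.divisor FF (closedBall 0 ((N : ℝ) + 1)) u : ℝ) * 1)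
  obtain ⟨P, G, hG, hG0, hGb, hFG, hnz⟩ := Pool.Agent.H24R2.JP.had_split (M := K' * (1 + 2 * ((N : ℝ) + 1)) ^
    (3/4 : ℝ)) hρ n FF hF h0 hsym (fun w hw => hbr _ w (by simpa using hw)) hn
  obtain ⟨L, hA, hL⟩ := Pool.Agent.H24R2.JP.had_base hG hρ (fun u hu => hnz u (ball_subset_closedBall hu))
    (fun w hw => hGb w (ball_subset_closedBall (ball_subset_ball (by linarith) hw)))
  have hG00 : G 0 ≠ 0 := by rw [hG0]; exact h0
  refine ⟨N, P, G, hN0, hG, hG00, hFG, fun w hw => hnz w (by simpa using hw), fun w hw => ?_⟩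
  obtain ⟨h1, h2⟩ := hL w (by linarith)
  have h3 : ‖L w‖ ≤ δ := by
    refine h2.trans (le_trans ?_ hNδ.le)
    have e1 : K' * (1 + 2 * ((N : ℝ) + 1)) ^ (3/4 : ℝ) - Real.log ‖G 0‖ ≤
        K' * (1 + 2 * ((N : ℝ) + 1)) ^ (3/4 : ℝ) + c := by
      rw [hG0]
      have := neg_abs_le (Real.log ‖FF 0‖)
      linarith
    have e2 : ‖w‖ / ((N : ℝ) + 1 - ‖w‖) ≤ r / ((N : ℝ) + 1 - r) := by
      rw [div_le_div_iff₀ (by linarith) (by linarith)]
      nlinarith [norm_nonneg w]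
    have e3 : 0 ≤ ‖w‖ / ((N : ℝ) + 1 - ‖w‖) := div_nonneg (norm_nonneg _) (by linarith)
    exact mul_le_mul (by linarith) e2 e3 (by linarith)
  rw [h1, mul_div_assoc, mul_comm, div_mul_cancel₀ _ hG00]
  have := norm_exp_sub_one_le (x := L w) (h3.trans hδ1)
  linarith

/-- the polynomial part in the variable `z` -/
lemma approx2 (z : ℂ) (hz : XX z ≠ 0) (δ : ℝ) (hδ : 0 < δ) (hδ1 : δ ≤ 1) (N0 : ℕ) :
    ∃ Q : ℂ[X], Q ≠ 0 ∧ (∀ w ∈ Q.roots, XX w = 0) ∧ (∀ w, Q.roots.count w ≤ analyticOrderNatAt XX w) ∧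
      (∀ w, XX w = 0 → ‖w‖ ^ 2 ≤ N0 → Q.roots.count w = analyticOrderNatAt XX w) ∧
      ‖(Q.roots.map fun w => 1 / (z - w)).sum - ZZ z‖ ≤ δ := by
  obtain ⟨N, P, G, hN, hG, hG0, hFG, hnz, hsm⟩ := approx ((‖z‖ + 1) ^ 2) (δ / 4) (by positivity)
    (by positivity) (by linarith) N0
  set Q : ℂ[X] := (P.map (algebraMap ℝ ℂ)).comp (Polynomial.X ^ 2) with hQ
  set H : ℂ → ℂ := fun w => G (w ^ 2) with hH
  have hHd : Differentiable ℂ H := hG.comp (by fun_prop)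
  have hQe : ∀ w, Q.eval w = aeval (w ^ 2) P := by
    intro w
    rw [hQ, eval_comp, eval_pow, eval_X, eval_map_algebraMap]
  have hXX : ∀ w, XX w = Q.eval w * H w := by
    intro w
    rw [← Pool.Agent.H24R2.JP.B1h.FF_sq w, hFG, hQe]
  have hQ0 : Q ≠ 0 := by
    intro h
    apply hz
    rw [hXX, h, eval_zero, zero_mul]
  -- multiplicities
  have hmult : ∀ w, ∃ Q1 : ℂ[X], Q = (Polynomial.X - Polynomial.C w) ^ (Q.roots.count w) * Q1 ∧ Q1.eval w ≠ 0 := by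
    intro w
    rw [count_roots]
    obtain ⟨Q1, h1, h2⟩ := exists_eq_pow_rootMultiplicity_mul_and_not_dvd Q hQ0 w
    exact ⟨Q1, h1, fun h => h2 (dvd_iff_isRoot.2 h)⟩
  have hXd : ∀ w, AnalyticAt ℂ XX w := fun w => Pool.Agent.Y23.XX_an w
  have hcount : ∀ w, ∃ g : ℂ → ℂ, AnalyticAt ℂ g w ∧ (∀ᶠ u in 𝓝 w, XX u = (u - w) ^ (Q.roots.count w) • g u) ∧
      (H w ≠ 0 → g w ≠ 0) := by
    intro w
    obtain ⟨Q1, h1, h2⟩ := hmult w
    refine ⟨fun u => Q1.eval u * H u, ?_, Eventually.of_forall fun u => ?_, fun h => mul_ne_zero h2 h⟩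
    · exact ((Polynomial.differentiable Q1).mul hHd).analyticAt w
    · have e1 : Q.eval u = (u - w) ^ (Q.roots.count w) * Q1.eval u := by
        conv_lhs => rw [h1]
        rw [eval_mul, eval_pow, eval_sub, eval_X, eval_C]
      rw [hXX, e1, smul_eq_mul]
      ring
  refine ⟨Q, hQ0, fun w hw => ?_, fun w => ?_, fun w hw hwN => ?_, ?_⟩
  · rw [hXX, (mem_roots hQ0).1 hw, zero_mul]
  · obtain ⟨g, h1, h2, -⟩ := hcount w
    have h3 : ((Q.roots.count w : ℕ) : ℕ∞) ≤ analyticOrderAt XX w :=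
      (natCast_le_analyticOrderAt (hXd w)).2 ⟨g, h1, h2⟩
    have h4 := Pool.Agent.Y23.XX_ne_top w
    unfold analyticOrderNatAt
    rw [← ENat.toNat_natCast (Q.roots.count w)]
    exact ENat.toNat_le_toNat h3 h4
  · obtain ⟨g, h1, h2, h3⟩ := hcount w
    have hHw : H w ≠ 0 := by
      apply hnz
      rw [norm_pow]
      have : (N0 : ℝ) ≤ N := by exact_mod_cast hN
      linarith
    have h4 : analyticOrderAt XX w = (Q.roots.count w : ℕ) :=
      (hXd w).analyticOrderAt_eq_natCast.2 ⟨g, h1, h3 hHw, h2⟩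
    unfold analyticOrderNatAt
    rw [h4, ENat.toNat_natCast]
  · have hQz : Q.eval z ≠ 0 := by
      intro h; apply hz; rw [hXX, h, zero_mul]
    have hHz : H z ≠ 0 := by
      intro h; apply hz; rw [hXX, h, mul_zero]
    rw [← (IsAlgClosed.splits Q).eval_derivative_div_eval_of_ne_zero hQz]
    have hd : deriv XX z = Q.derivative.eval z * H z + Q.eval z * deriv H z := by
      have h1 : HasDerivAt (fun w => Q.eval w * H w) (Q.derivative.eval z * H z + Q.eval z * deriv H z) z :=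
        (Q.hasDerivAt z).mul (hHd z).hasDerivAt
      have h2 : XX = fun w => Q.eval w * H w := funext hXX
      rw [h2]; exact h1.deriv
    have e : Q.derivative.eval z / Q.eval z - ZZ z = -(deriv H z / H z) := by
      unfold Pool.Agent.Y23.ZZ
      rw [hd, hXX z]
      field_simp
      ring
    rw [e, norm_neg]
    -- Cauchy estimate
    have hsm2 : ∀ w, ‖w - z‖ ≤ 1 → ‖H w / G 0 - 1‖ ≤ δ / 2 := by
      intro w hw
      have h1 : ‖w‖ ≤ ‖z‖ + 1 := by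
        have := norm_add_le (w - z) z
        rw [sub_add_cancel] at this
        linarith
      have h2 := hsm (w ^ 2) (by
        rw [norm_pow]
        exact pow_le_pow_left₀ (norm_nonneg _) h1 2)
      show ‖G (w ^ 2) / G 0 - 1‖ ≤ δ / 2
      linarith
    have hdiff : Differentiable ℂ fun w => H w / G 0 - 1 := (hHd.div_const _).sub_const _
    have h1 : ‖deriv (fun w => H w / G 0 - 1) z‖ ≤ δ / 2 / 1 :=
      norm_deriv_le_of_forall_mem_sphere_norm_le one_pos hdiff.diffContOnCl (fun w hw => by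
        refine hsm2 w ?_
        rw [mem_sphere_iff_norm] at hw
        exact hw.le)
    have h2 : deriv (fun w => H w / G 0 - 1) z = deriv H z / G 0 := by
      have : HasDerivAt (fun w => H w / G 0 - 1) (deriv H z / G 0) z :=
        ((hHd z).hasDerivAt.div_const _).sub_const _
      exact this.deriv
    rw [h2, div_one] at h1
    have h3 : 1 / 2 ≤ ‖H z / G 0‖ := by
      have h4 := hsm2 z (by simp)
      have h5 := norm_sub_norm_le (1 : ℂ) (1 - H z / G 0)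
      rw [norm_one, norm_sub_rev 1 (H z / G 0)] at h5
      have e6 : (1 : ℂ) - (1 - H z / G 0) = H z / G 0 := by ring
      rw [e6] at h5
      linarith
    have e7 : deriv H z / H z = (deriv H z / G 0) / (H z / G 0) := by
      field_simp
    rw [e7, norm_div]
    rw [div_le_iff₀ (by linarith)]
    nlinarith [norm_nonneg (deriv H z / G 0)]

/-- the kernel -/
noncomputable def ker (z : ℂ) (s : ℂ) : ℝ := (1 / (z - (s - 1 / 2))).re

lemma re_of_RH (RH : RiemannHypothesis) {s : ℂ} (h : IsZ s) : s.re = 1 / 2 := by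
  refine RH s h.1 ?_ ?_
  · rintro ⟨n, hn⟩
    have h1 := h.2.1
    rw [hn] at h1
    have : (-2 * ((n : ℂ) + 1)).re = -2 * ((n : ℝ) + 1) := by simp
    rw [this] at h1
    have : (0 : ℝ) ≤ n := Nat.cast_nonneg n
    linarith
  · rintro rfl
    have := h.2.2
    simp at this

lemma ker_eq (RH : RiemannHypothesis) {z s : ℂ} (h : IsZ s) :
    ker z s = z.re / (z.re ^ 2 + (z.im - s.im) ^ 2) := by
  have hs := re_of_RH RH h
  unfold ker
  have e : z - (s - 1 / 2) = ⟨z.re, z.im - s.im⟩ := by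
    apply Complex.ext
    · simp [hs]
    · simp
  rw [e, one_div, Complex.inv_re, Complex.normSq_mk]
  ring

lemma ker_nonneg (RH : RiemannHypothesis) {z s : ℂ} (hz : 0 < z.re) (h : IsZ s) : 0 ≤ ker z s := by
  rw [ker_eq RH h]
  positivity

lemma XX_ne_of_re_pos (RH : RiemannHypothesis) {z : ℂ} (hz : 0 < z.re) : XX z ≠ 0 := by
  intro h
  have h1 : IsZ (z + 1 / 2) := by
    rw [Pool.Agent.Y23.isZ_iff]
    simpa using h
  have := re_of_RH RH h1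
  simp at this
  linarith

lemma mu_pos_zero {w : ℂ} (h : XX w = 0) : IsZ (w + 1 / 2) ∧ mu (w + 1 / 2) = analyticOrderNatAt XX w := by
  have h1 : IsZ (w + 1 / 2) := by
    rw [Pool.Agent.Y23.isZ_iff]
    simpa using h
  refine ⟨h1, ?_⟩
  have := Pool.Agent.Y23.mu_eq h1.2.1 h1.2.2
  rw [this, add_sub_cancel_right]

lemma zt_of {w : ℂ} (h : XX w = 0) : riemannZeta (w + 1 / 2) = 0 ∧ 0 < (w + 1 / 2).re ∧ (w + 1 / 2).re < 1 :=
  (mu_pos_zero h).1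

/-- **the partial fraction formula** -/
theorem pf (RH : RiemannHypothesis) {z : ℂ} (hz : 0 < z.re) :
    Summable (fun ρ : Zt => (mu ρ : ℝ) * ker z ρ) ∧ (ZZ z).re = ∑' ρ : Zt, (mu ρ : ℝ) * ker z ρ := by
  have hXz := XX_ne_of_re_pos RH hz
  have hnn : ∀ ρ : Zt, 0 ≤ (mu ρ : ℝ) * ker z ρ := fun ρ =>
    mul_nonneg (Nat.cast_nonneg _) (ker_nonneg RH hz ρ.2)
  -- finite sums
  have key : ∀ δ : ℝ, 0 < δ → δ ≤ 1 → ∀ N0 : ℕ, ∃ R : Finset Zt, ∃ c : Zt → ℕ, (∀ ρ, c ρ ≤ mu ρ) ∧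
      (∀ ρ : Zt, ‖(ρ : ℂ) - 1 / 2‖ ^ 2 ≤ N0 → ρ ∈ R ∧ c ρ = mu ρ) ∧
      |∑ ρ ∈ R, (c ρ : ℝ) * ker z ρ - (ZZ z).re| ≤ δ := by
    intro δ hδ hδ1 N0
    obtain ⟨Q, hQ0, h1, h2, h3, h4⟩ := approx2 z hXz δ hδ hδ1 N0
    classical
    let ι0 : {x : ℂ // x ∈ Q.roots.toFinset} → Zt := fun w =>
      ⟨(w : ℂ) + 1 / 2, zt_of (h1 w (Multiset.mem_toFinset.1 w.2))⟩
    have hinj : Function.Injective ι0 := by
      intro a b hab
      have h5 : (a : ℂ) + 1 / 2 = (b : ℂ) + 1 / 2 := congrArg Subtype.val hab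
      exact Subtype.ext (add_right_cancel h5)
    set R : Finset Zt := Q.roots.toFinset.attach.map ⟨ι0, hinj⟩ with hR
    refine ⟨R, fun ρ => Q.roots.count ((ρ : ℂ) - 1 / 2), fun ρ => ?_, fun ρ hρ => ?_, ?_⟩
    · have hρX : XX ((ρ : ℂ) - 1 / 2) = 0 := (Pool.Agent.Y23.isZ_iff _).1 ρ.2
      rw [Pool.Agent.Y23.mu_eq ρ.2.2.1 ρ.2.2.2]
      exact h2 _
    · have hρX : XX ((ρ : ℂ) - 1 / 2) = 0 := (Pool.Agent.Y23.isZ_iff _).1 ρ.2
      have h5 := h3 _ hρX hρ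
      have h6 : Q.roots.count ((ρ : ℂ) - 1 / 2) = mu ρ := by
        rw [h5, Pool.Agent.Y23.mu_eq ρ.2.2.1 ρ.2.2.2]
      refine ⟨?_, h6⟩
      have h7 : 1 ≤ mu ρ := Pool.Agent.Y23.mu_pos ρ.2
      rw [← h6] at h7
      have h8 : ((ρ : ℂ) - 1 / 2) ∈ Q.roots := Multiset.one_le_count_iff_mem.1 h7
      rw [hR, Finset.mem_map]
      refine ⟨⟨(ρ : ℂ) - 1 / 2, Multiset.mem_toFinset.2 h8⟩, Finset.mem_attach _ _, ?_⟩
      apply Subtype.ext
      show (ρ : ℂ) - 1 / 2 + 1 / 2 = ρ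
      ring
    · have e1 : ∑ ρ ∈ R, ((Q.roots.count ((ρ : ℂ) - 1 / 2) : ℕ) : ℝ) * ker z ρ =
          ((Q.roots.map fun w => 1 / (z - w)).sum).re := by
        rw [hR, Finset.sum_map, Finset.sum_multiset_map_count]
        have e2 : ∑ w ∈ Q.roots.toFinset.attach, ((Q.roots.count ((((⟨ι0, hinj⟩ : _ ↪ Zt) w : Zt) : ℂ) - 1 / 2) : ℕ) : ℝ) *
            ker z (((⟨ι0, hinj⟩ : _ ↪ Zt) w : Zt) : ℂ) = ∑ w ∈ Q.roots.toFinset.attach,
            (fun w : ℂ => ((Q.roots.count (w + 1 / 2 - 1 / 2) : ℕ) : ℝ) * ker z (w + 1 / 2)) (w : ℂ) := rfl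
        rw [e2, Finset.sum_attach Q.roots.toFinset (fun w : ℂ =>
          ((Q.roots.count (w + 1 / 2 - 1 / 2) : ℕ) : ℝ) * ker z (w + 1 / 2)), Complex.re_sum]
        refine Finset.sum_congr rfl fun w _ => ?_
        unfold ker
        rw [add_sub_cancel_right, nsmul_eq_mul, Complex.mul_re]
        simp
      rw [e1, ← Complex.sub_re]
      exact (Complex.abs_re_le_norm _).trans h4
  -- partial sums are bounded
  have hle : ∀ A : Finset Zt, ∑ ρ ∈ A, (mu ρ : ℝ) * ker z ρ ≤ (ZZ z).re := by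
    intro A
    refine le_of_forall_pos_le_add fun δ hδ => ?_
    obtain ⟨N0, hN0⟩ := exists_nat_ge (∑ ρ ∈ A, ‖(ρ : ℂ) - 1 / 2‖ ^ 2)
    obtain ⟨R, c, h1, h2, h3⟩ := key (min δ 1) (lt_min hδ one_pos) (min_le_right _ _) N0
    have h4 : ∀ ρ ∈ A, ρ ∈ R ∧ c ρ = mu ρ := fun ρ hρ => h2 ρ
      ((Finset.single_le_sum (f := fun ρ : Zt => ‖(ρ : ℂ) - 1 / 2‖ ^ 2) (fun i _ => by positivity) hρ).trans hN0)
    have h5 : ∑ ρ ∈ A, (mu ρ : ℝ) * ker z ρ ≤ ∑ ρ ∈ R, (c ρ : ℝ) * ker z ρ := by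
      calc ∑ ρ ∈ A, (mu ρ : ℝ) * ker z ρ = ∑ ρ ∈ A, (c ρ : ℝ) * ker z ρ :=
            Finset.sum_congr rfl fun ρ hρ => by rw [(h4 ρ hρ).2]
        _ ≤ ∑ ρ ∈ R, (c ρ : ℝ) * ker z ρ :=
            Finset.sum_le_sum_of_subset_of_nonneg (fun ρ hρ => (h4 ρ hρ).1)
              (fun ρ _ _ => mul_nonneg (Nat.cast_nonneg _) (ker_nonneg RH hz ρ.2))
    have h6 := (abs_le.1 h3).2
    have := min_le_left δ 1
    linarith
  have hsum : Summable (fun ρ : Zt => (mu ρ : ℝ) * ker z ρ) := summable_of_sum_le hnn hle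
  refine ⟨hsum, le_antisymm ?_ (hsum.tsum_le_of_sum_le hle)⟩
  refine le_of_forall_pos_le_add fun δ hδ => ?_
  obtain ⟨R, c, h1, h2, h3⟩ := key (min δ 1) (lt_min hδ one_pos) (min_le_right _ _) 0
  have h5 : ∑ ρ ∈ R, (c ρ : ℝ) * ker z ρ ≤ ∑' ρ : Zt, (mu ρ : ℝ) * ker z ρ := by
    refine le_trans (Finset.sum_le_sum fun ρ _ => ?_) (hsum.sum_le_tsum R fun ρ _ => hnn ρ)
    exact mul_le_mul_of_nonneg_right (by exact_mod_cast h1 ρ) (ker_nonneg RH hz ρ.2)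
  have h6 := (abs_le.1 h3).1
  have := min_le_left δ 1
  linarith

end Pool.Agent.Q31.SN
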