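import Pool.Agent.Q31.SN.Lim

set_option autoImplicit false

/-! The exponential identity and the behaviour near the real axis. -/

open Complex Filter Topology Set MeasureTheory
open scoped ComplexConjugate

namespace Pool.Agent.Q31.SN

lemma z1_conj (s : ℂ) : riemannZeta₁ (conj s) = conj (riemannZeta₁ s) := by
  have key : ∀ s : ℂ, s ≠ 1 → riemannZeta₁ s = (s - 1) * riemannZeta s := by
    intro s hs
    have h := riemannZeta_eq_inv_sub_mul hs
    have h1 : s - 1 ≠ 0 := sub_ne_zero.2 hs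
    rw [h, mul_inv_cancel_left₀ h1]
  by_cases h : s = 1
  · rw [h]; simp
  · have h1 : conj s ≠ 1 := by
      intro h2
      apply h
      have := congrArg conj h2
      simpa using this
    rw [key s h, key _ h1, riemannZeta_conj, map_mul, map_sub, map_one]

lemma real_of_conj {f : ℂ → ℂ} (h : ∀ s, f (conj s) = conj (f s)) (x : ℝ) : (f x).im = 0 := by
  have h1 := h x
  rw [Complex.conj_ofReal] at h1
  exact Complex.conj_eq_iff_im.1 h1.symm

lemma deriv_conj_of {f : ℂ → ℂ} (h : ∀ s, f (conj s) = conj (f s)) (s : ℂ) : deriv f (conj s) = conj (deriv f s) := by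
  have e : f = conj ∘ f ∘ conj := by
    funext z
    simp only [Function.comp]
    rw [h, Complex.conj_conj]
  have h1 : deriv f = conj ∘ deriv f ∘ conj := by
    conv_lhs => rw [e]
    exact deriv_conj_conj
  have h2 := congrFun h1 (conj s)
  simp only [Function.comp, Complex.conj_conj] at h2
  exact h2

lemma gz_conj (s : ℂ) : gz (conj s) = conj (gz s) := by
  unfold gz
  rw [deriv_conj_of riemannZeta_conj, riemannZeta_conj, map_div₀]

/-- `ζ₁'/ζ₁` -/
noncomputable def G1 (s : ℂ) : ℂ := deriv riemannZeta₁ s / riemannZeta₁ s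

lemma G1_conj (s : ℂ) : G1 (conj s) = conj (G1 s) := by
  unfold G1
  rw [deriv_conj_of z1_conj, z1_conj, map_div₀]

lemma G1_cont (RH : RiemannHypothesis) : ContinuousOn G1 {s : ℂ | 1 / 2 < s.re} := by
  intro s hs
  have h1 : Continuous (deriv riemannZeta₁) := differentiable_riemannZeta₁.deriv.continuous
  exact (h1.continuousAt.div differentiable_riemannZeta₁.continuous.continuousAt (z1_ne RH hs)).continuousWithinAt

/-- a point near the real axis -/
lemma rpt_Om {σ τ : ℝ} (h1 : 1 / 2 < σ) (h2 : 0 < τ) : (σ + τ * I : ℂ) ∈ Om := by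
  constructor
  · simpa using h1
  · simpa using h2

lemma two_ray {σ : ℝ} (hσ : 2 ≤ σ) {τ : ℝ} (u : ℝ) (hu : 0 ≤ u) :
    (σ + τ * I : ℂ) + u ≠ 1 ∧ riemannZeta ((σ + τ * I : ℂ) + u) ≠ 0 := by
  have hre : ((σ + τ * I : ℂ) + u).re = σ + u := by simp
  constructor
  · intro h
    rw [h] at hre
    simp at hre
    linarith
  · exact riemannZeta_ne_zero_of_one_le_re (by rw [hre]; linarith)

/-- continuity down to the real axis in the region of absolute convergence -/
lemma V0_real_lim {σ : ℝ} (hσ : 2 ≤ σ) :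
    Tendsto (fun τ : ℝ => Wk gz 1 (σ + τ * I)) (𝓝 0) (𝓝 (Wk gz 1 σ)) := by
  obtain ⟨C, hC, hd⟩ := gz_decay
  show Tendsto (fun τ : ℝ => ∫ u : ℝ in Ioi 0, gz ((σ + τ * I : ℂ) + u)) (𝓝 0) (𝓝 (∫ u : ℝ in Ioi 0, gz ((σ : ℂ) + u)))
  refine tendsto_integral_filter_of_dominated_convergence (fun u : ℝ => C * Real.exp (-(u / 2))) ?_ ?_
    (exp_half_int.1.const_mul C) ?_
  · refine Eventually.of_forall fun τ => ?_
    exact ((gz_ray (two_ray hσ)).1.mono Ioi_subset_Ici_self).aestronglyMeasurable measurableSet_Ioi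
  · refine Eventually.of_forall fun τ => ?_
    filter_upwards [ae_restrict_mem measurableSet_Ioi] with u hu
    have hu0 : (0 : ℝ) < u := hu
    have h1 := hd ((σ + τ * I : ℂ) + u) (by simp; linarith)
    refine h1.trans (mul_le_mul_of_nonneg_left (Real.exp_le_exp.2 ?_) hC.le)
    simp
    linarith
  · filter_upwards [ae_restrict_mem measurableSet_Ioi] with u hu
    have hu0 : (0 : ℝ) < u := hu
    obtain ⟨h1, h2⟩ := two_ray hσ (τ := 0) u hu0.le
    have e : ((σ + ((0 : ℝ) : ℂ) * I : ℂ) + u) = (σ : ℂ) + u := by simp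
    rw [e] at h1 h2
    have h3 : AnalyticAt ℂ riemannZeta ((σ : ℂ) + u) :=
      (differentiableOn_riemannZeta.analyticOnNhd isOpen_compl_singleton) _ h1
    have h4 : ContinuousAt gz ((σ : ℂ) + u) := (h3.deriv.div h3 h2).continuousAt
    have h5 : Tendsto (fun τ : ℝ => (σ + τ * I : ℂ) + u) (𝓝 0) (𝓝 ((σ : ℂ) + u)) := by
      have : ContinuousAt (fun τ : ℝ => (σ + τ * I : ℂ) + u) 0 := by fun_prop
      have h6 := this.tendsto
      rw [e] at h6
      exact h6
    exact h4.tendsto.comp h5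

lemma V0_real_im {σ : ℝ} (hσ : 2 ≤ σ) : (Wk gz 1 σ).im = 0 := by
  show (∫ u : ℝ in Ioi 0, gz ((σ : ℂ) + u)).im = 0
  have h0 : ∀ u : ℝ, 0 ≤ u → (σ : ℂ) + u ≠ 1 ∧ riemannZeta ((σ : ℂ) + u) ≠ 0 := by
    intro u hu
    have := two_ray hσ (τ := 0) u hu
    simpa using this
  have h1 := integral_im (gz_ray_int h0)
  have h2 : (∫ u : ℝ in Ioi 0, gz ((σ : ℂ) + u)).im = ∫ u : ℝ in Ioi 0, (gz ((σ : ℂ) + u)).im := h1.symm
  rw [h2]
  have h3 : ∀ u : ℝ, (gz ((σ : ℂ) + u)).im = 0 := by
    intro u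
    have := real_of_conj gz_conj (σ + u)
    rw [Complex.ofReal_add] at this
    exact this
  simp_rw [h3]
  simp

/-- **the exponential identity** -/
theorem exp_V0 (RH : RiemannHypothesis) {s : ℂ} (hs : s ∈ Om) : Complex.exp (-Wk gz 1 s) = riemannZeta s := by
  set E : ℂ → ℂ := fun s => riemannZeta s * Complex.exp (Wk gz 1 s) with hE
  have hne1 : ∀ z ∈ Om, z ≠ 1 := by
    rintro z hz rfl
    simpa using hz.2
  have hder : ∀ z ∈ Om, HasDerivAt E 0 z := by
    intro z hz
    have h1 : HasDerivAt riemannZeta (deriv riemannZeta z) z := (differentiableAt_riemannZeta (hne1 z hz)).hasDerivAt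
    have h2 : HasDerivAt (Wk gz 1) (-gz z) z := R_deriv (Dk_gz RH) hz
    have h3 := h1.mul h2.cexp
    have e : deriv riemannZeta z * Complex.exp (Wk gz 1 z) + riemannZeta z * (Complex.exp (Wk gz 1 z) * -gz z) = 0 := by
      unfold gz
      have := zeta_ne RH hz.1
      field_simp
      ring
    rw [e] at h3
    exact h3
  have hconst : ∀ z ∈ Om, ∀ w ∈ Om, E z = E w := by
    intro z hz w hw
    refine Om_open.is_const_of_deriv_eq_zero Om_convex.isPreconnected
      (fun x hx => (hder x hx).differentiableAt.differentiableWithinAt) (fun x hx => ?_) hz hw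
    rw [(hder x hx).deriv]; rfl
  -- values on the real axis
  have hreal : ∀ σ : ℝ, 2 ≤ σ → riemannZeta σ * Complex.exp (Wk gz 1 σ) = E s := by
    intro σ hσ
    have h1 : Tendsto (fun τ : ℝ => E (σ + τ * I)) (𝓝[>] 0) (𝓝 (riemannZeta σ * Complex.exp (Wk gz 1 σ))) := by
      have h2 : Tendsto (fun τ : ℝ => (σ + τ * I : ℂ)) (𝓝[>] 0) (𝓝 (σ : ℂ)) := by
        have : ContinuousAt (fun τ : ℝ => (σ + τ * I : ℂ)) 0 := by fun_prop
        have h3 := this.tendsto
        simp only [Complex.ofReal_zero, zero_mul, add_zero] at h3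
        exact h3.mono_left nhdsWithin_le_nhds
      have hne : (σ : ℂ) ≠ 1 := by
        intro h
        have := congrArg Complex.re h
        simp at this
        linarith
      have h3 : Tendsto (fun τ : ℝ => riemannZeta (σ + τ * I)) (𝓝[>] 0) (𝓝 (riemannZeta σ)) :=
        (differentiableAt_riemannZeta hne).continuousAt.tendsto.comp h2
      have h4 : Tendsto (fun τ : ℝ => Complex.exp (Wk gz 1 (σ + τ * I))) (𝓝[>] 0) (𝓝 (Complex.exp (Wk gz 1 σ))) :=
        (Complex.continuous_exp.tendsto _).comp ((V0_real_lim hσ).mono_left nhdsWithin_le_nhds)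
      exact h3.mul h4
    refine tendsto_nhds_unique h1 (tendsto_const_nhds.congr' ?_)
    filter_upwards [self_mem_nhdsWithin] with τ hτ
    exact hconst s hs _ (rpt_Om (by linarith) hτ)
  -- limit at infinity
  have hlim : Tendsto (fun σ : ℝ => riemannZeta σ * Complex.exp (Wk gz 1 σ)) atTop (𝓝 (1 * Complex.exp 0)) := by
    have h1 : Tendsto (fun σ : ℝ => riemannZeta σ) atTop (𝓝 1) := by
      have h2 := LSeries.tendsto_atTop (f := 1) (by rw [LSeries.abscissaOfAbsConv_one]; exact EReal.coe_lt_top 1)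
      simp only [Pi.one_apply] at h2
      refine h2.congr' ?_
      filter_upwards [eventually_gt_atTop 1] with σ hσ
      exact LSeries_one_eq_riemannZeta (by simpa using hσ)
    have h3 : Tendsto (fun σ : ℝ => Wk gz 1 σ) atTop (𝓝 0) := by
      obtain ⟨C, hC, h⟩ := V0_far
      rw [tendsto_zero_iff_norm_tendsto_zero]
      have h4 := tendsto_exp_half.const_mul C
      rw [mul_zero] at h4
      refine squeeze_zero' (Eventually.of_forall fun u => norm_nonneg _) ?_ h4
      filter_upwards [eventually_ge_atTop 2] with σ hσ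
      have := h (σ : ℂ) (by simpa using hσ)
      simpa using this
    exact h1.mul ((Complex.continuous_exp.tendsto _).comp h3)
  rw [Complex.exp_zero, mul_one] at hlim
  have hE1 : E s = 1 := by
    refine tendsto_nhds_unique (tendsto_const_nhds.congr' ?_) hlim
    filter_upwards [eventually_ge_atTop 2] with σ hσ
    exact (hreal σ hσ).symm
  have h5 : riemannZeta s * Complex.exp (Wk gz 1 s) = 1 := hE1
  rw [Complex.exp_neg]
  exact (eq_inv_of_mul_eq_one_left h5).symm

lemma V0_re (RH : RiemannHypothesis) {s : ℂ} (hs : s ∈ Om) : (Wk gz 1 s).re = -Real.log ‖riemannZeta s‖ := by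
  rw [← exp_V0 RH hs, Complex.norm_exp, Real.log_exp]
  simp

/-- the imaginary part of `U` near the real axis -/
lemma UU_im_lim (RH : RiemannHypothesis) {σ : ℝ} (hσ : 1 / 2 < σ) :
    Tendsto (fun τ : ℝ => (UU (σ + τ * I)).im) (𝓝[>] 0) (𝓝 0) := by
  -- at `2`
  have h2 : Tendsto (fun τ : ℝ => (UU (((2 : ℝ) : ℂ) + τ * I)).im) (𝓝[>] 0) (𝓝 0) := by
    have h3 := (V0_real_lim (le_refl (2 : ℝ))).mono_left (nhdsWithin_le_nhds (s := Ioi 0))
    have h4 : Tendsto (fun τ : ℝ => Complex.log ((((2 : ℝ) : ℂ) + τ * I) - 1)) (𝓝[>] 0) (𝓝 (Complex.log (((2 : ℝ) : ℂ) - 1))) := by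
      have h5 : ContinuousAt (fun τ : ℝ => Complex.log ((((2 : ℝ) : ℂ) + τ * I) - 1)) 0 := by
        refine ContinuousAt.clog (by fun_prop) ?_
        left
        norm_num
      have h6 := h5.tendsto
      simp only [Complex.ofReal_zero, zero_mul, add_zero] at h6
      exact h6.mono_left nhdsWithin_le_nhds
    have h7 := (Complex.continuous_im.tendsto _).comp (h3.sub h4)
    have e : (Wk gz 1 ((2 : ℝ) : ℂ) - Complex.log (((2 : ℝ) : ℂ) - 1)).im = 0 := by
      rw [Complex.sub_im, V0_real_im le_rfl]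
      have : (((2 : ℝ) : ℂ) - 1) = 1 := by norm_num
      rw [this]; simp
    rw [e] at h7
    exact h7
  -- the horizontal integral
  set a := min σ 2 with ha
  set b := max σ 2 with hb
  have ha2 : 1 / 2 < a := lt_min hσ (by norm_num)
  have hKc : IsCompact (Icc a b ×ℂ Icc (0 : ℝ) 1) := isCompact_Icc.reProdIm isCompact_Icc
  have hKs : Icc a b ×ℂ Icc (0 : ℝ) 1 ⊆ {s : ℂ | 1 / 2 < s.re} := by
    intro s hs
    rw [Complex.mem_reProdIm] at hs
    exact ha2.trans_le hs.1.1
  obtain ⟨K, hK⟩ := hKc.exists_bound_of_continuousOn ((G1_cont RH).mono hKs)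
  have huIcc : uIcc σ 2 = Icc a b := rfl
  have hcx : ∀ τ : ℝ, ContinuousOn (fun x : ℝ => G1 ((x : ℂ) + τ * I)) (uIcc σ 2) := by
    intro τ
    refine (G1_cont RH).comp (by fun_prop) fun x hx => ?_
    rw [huIcc] at hx
    show 1 / 2 < ((x : ℂ) + τ * I).re
    simp
    have := hx.1
    linarith
  have h3 : Tendsto (fun τ : ℝ => ∫ x : ℝ in σ..2, G1 ((x : ℂ) + τ * I)) (𝓝[>] 0) (𝓝 (∫ x : ℝ in σ..2, G1 ((x : ℂ)))) := by
    refine intervalIntegral.tendsto_integral_filter_of_dominated_convergence (fun _ => K) ?_ ?_ intervalIntegrable_const ?_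
    · refine Eventually.of_forall fun τ => ?_
      exact ((hcx τ).mono uIoc_subset_uIcc).aestronglyMeasurable measurableSet_uIoc
    · rw [← nhdsWithin_Ioc_eq_nhdsGT zero_lt_one]
      filter_upwards [self_mem_nhdsWithin] with τ hτ
      refine Eventually.of_forall fun x hx => hK _ ?_
      have hx2 := uIoc_subset_uIcc hx
      rw [huIcc] at hx2
      rw [Complex.mem_reProdIm]
      refine ⟨by simpa using hx2, ?_⟩
      simpa using ⟨hτ.1.le, hτ.2⟩
    · refine Eventually.of_forall fun x hx => ?_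
      have hx2 := uIoc_subset_uIcc hx
      rw [huIcc] at hx2
      have h4 : ContinuousAt G1 (x : ℂ) := (G1_cont RH).continuousAt
        ((isOpen_lt continuous_const continuous_re).mem_nhds (by show 1 / 2 < (x : ℂ).re; simp; have := hx2.1; linarith))
      have h5 : Tendsto (fun τ : ℝ => ((x : ℂ) + τ * I)) (𝓝[>] 0) (𝓝 (x : ℂ)) := by
        have : ContinuousAt (fun τ : ℝ => ((x : ℂ) + τ * I)) 0 := by fun_prop
        have h6 := this.tendsto
        simp only [Complex.ofReal_zero, zero_mul, add_zero] at h6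
        exact h6.mono_left nhdsWithin_le_nhds
      exact h4.tendsto.comp h5
  have h4 : (∫ x : ℝ in σ..2, G1 ((x : ℂ))).im = 0 := by
    have h5 : ∀ x : ℝ, G1 x = ((G1 x).re : ℂ) := fun x => by
      apply Complex.ext
      · simp
      · simp [real_of_conj G1_conj x]
    have h6 : ∫ x : ℝ in σ..2, G1 (x : ℂ) = ∫ x : ℝ in σ..2, (((G1 x).re : ℝ) : ℂ) := by
      congr 1; funext x; exact h5 x
    rw [h6, intervalIntegral.integral_ofReal, Complex.ofReal_im]
  have h5 : Tendsto (fun τ : ℝ => (∫ x : ℝ in σ..2, G1 ((x : ℂ) + τ * I)).im) (𝓝[>] 0) (𝓝 0) := by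
    have := (Complex.continuous_im.tendsto _).comp h3
    rw [h4] at this
    exact this
  have h6 := h2.add h5
  rw [add_zero] at h6
  refine h6.congr' ?_
  filter_upwards [self_mem_nhdsWithin] with τ hτ
  have h7 : ∫ x : ℝ in σ..2, -G1 ((x : ℂ) + τ * I) = UU (((2 : ℝ) : ℂ) + τ * I) - UU ((σ : ℂ) + τ * I) := by
    refine intervalIntegral.integral_eq_sub_of_hasDerivAt (f := fun x : ℝ => UU ((x : ℂ) + τ * I)) (fun x hx => ?_)
      (hcx τ).neg.intervalIntegrable
    rw [huIcc] at hx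
    have h8 : HasDerivAt UU (-G1 ((x : ℂ) + τ * I)) ((x : ℂ) + τ * I) :=
      UU_deriv RH (rpt_Om (ha2.trans_le hx.1) hτ)
    have h9 : HasDerivAt (fun x : ℝ => ((x : ℂ) + τ * I)) 1 x := by
      have := (Complex.ofRealCLM.hasDerivAt (x := x)).add_const (τ * I : ℂ)
      simpa using this
    have h10 := HasDerivAt.comp (𝕜' := ℂ) x h8 h9
    rw [mul_one] at h10
    exact h10
  rw [intervalIntegral.integral_neg] at h7
  have h8 : UU ((σ : ℂ) + τ * I) = UU (((2 : ℝ) : ℂ) + τ * I) + ∫ x : ℝ in σ..2, G1 ((x : ℂ) + τ * I) := by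
    linear_combination h7
  rw [h8, Complex.add_im]

end Pool.Agent.Q31.SN
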