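import Pool.Agent.Q31.SN.PF

set_option autoImplicit false

/-! The test function. -/

open Complex Filter Topology Set MeasureTheory
open scoped ComplexConjugate
open Pool.Agent.Y23 (TT Fa Hd N2 QQ GG DG Lg Zt mu IsZ)

namespace Pool.Agent.Q31.SN

/-- the test function `exp(-b (x + a) - i t x)` on `[-a, a]` -/
noncomputable def tf (a b t : ℝ) (x : ℝ) : ℂ :=
  (Icc (-a) a).indicator (fun x : ℝ => cexp (-(b + t * I) * x - b * a)) x

/-- the Poisson kernel -/
noncomputable def PK (b y : ℝ) : ℝ := b / (b ^ 2 + y ^ 2)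

lemma tf_norm {a b t x : ℝ} (hx : x ∈ Icc (-a) a) : ‖tf a b t x‖ = Real.exp (-(b * (x + a))) := by
  unfold tf
  rw [indicator_of_mem hx, Complex.norm_exp]
  congr 1
  simp
  ring

lemma tf_zero {a b t x : ℝ} (hx : x ∉ Icc (-a) a) : tf a b t x = 0 := by
  unfold tf
  rw [indicator_of_notMem hx]

lemma tf_Fa (a b t : ℝ) : Fa a (tf a b t) := by
  refine ⟨?_, fun x hx => tf_zero fun h => ?_⟩
  · have hc : Continuous (fun x : ℝ => cexp (-(b + t * I) * x - b * a)) := by fun_prop
    obtain ⟨C, hC⟩ := (isCompact_Icc (a := -a) (b := a)).exists_bound_of_continuousOn hc.continuousOn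
    have h1 : MemLp (fun x : ℝ => cexp (-(b + t * I) * x - b * a)) 2 (volume.restrict (Icc (-a) a)) := by
      refine MemLp.of_bound hc.aestronglyMeasurable C ?_
      exact ae_restrict_of_forall_mem measurableSet_Icc fun x hx => hC x hx
    exact (memLp_indicator_iff_restrict measurableSet_Icc).2 h1
  · rw [mem_Icc, ← abs_le] at h
    linarith

lemma TT_tf {a b t : ℝ} (ha : 0 ≤ a) {w : ℂ} (hw : w - (b + t * I) ≠ 0) :
    TT (tf a b t) w = cexp (-(b * a)) *
      ((cexp ((w - (b + t * I)) * a) - cexp (-((w - (b + t * I)) * a))) / (w - (b + t * I))) := by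
  unfold TT
  have e1 : (fun x : ℝ => tf a b t x * cexp (w * x)) =
      (Icc (-a) a).indicator (fun x : ℝ => cexp (-(b * a)) * cexp ((w - (b + t * I)) * x)) := by
    funext x
    by_cases hx : x ∈ Icc (-a) a
    · unfold tf
      rw [indicator_of_mem hx, indicator_of_mem hx, ← Complex.exp_add, ← Complex.exp_add]
      congr 1; ring
    · rw [tf_zero hx, zero_mul, indicator_of_notMem hx]
  rw [e1, integral_indicator measurableSet_Icc, integral_Icc_eq_integral_Ioc,
    ← intervalIntegral.integral_of_le (by linarith), intervalIntegral.integral_const_mul,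
    integral_exp_mul_complex hw]
  congr 3
  push_cast; ring

lemma normSq_sinh (z : ℂ) : ‖cexp z - cexp (-z)‖ ^ 2 = 2 * Real.cosh (2 * z.re) - 2 * Real.cos (2 * z.im) := by
  rw [← Complex.normSq_eq_norm_sq, Complex.normSq_apply]
  simp only [Complex.sub_re, Complex.sub_im, Complex.exp_re, Complex.exp_im, Complex.neg_re,
    Complex.neg_im, Real.cos_neg, Real.sin_neg]
  rw [Real.cosh_eq, Real.cos_two_mul]
  have e1 : Real.exp (2 * z.re) = Real.exp z.re * Real.exp z.re := by rw [← Real.exp_add]; ring_nf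
  have e2 : Real.exp (-(2 * z.re)) = Real.exp (-z.re) * Real.exp (-z.re) := by
    rw [← Real.exp_add]; ring_nf
  have e3 : Real.exp z.re * Real.exp (-z.re) = 1 := by rw [← Real.exp_add]; simp
  have e4 : Real.sin z.im ^ 2 = 1 - Real.cos z.im ^ 2 := by
    have := Real.sin_sq_add_cos_sq z.im; linarith
  rw [e1, e2]
  linear_combination (Real.exp z.re ^ 2 + Real.exp (-z.re) ^ 2 + 2 * Real.exp z.re * Real.exp (-z.re)) * e4 +
    (2 - 4 * Real.cos z.im ^ 2) * e3

/-- the square of the transform on the line -/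
lemma TT_line {D b t : ℝ} (hD : 0 ≤ D) (hb : 0 < b) (v : ℝ) :
    b * Real.exp (b * D) / 2 * ‖TT (tf (D / 2) b t) (v * I)‖ ^ 2 =
      (Real.cosh (b * D) - Real.cos (D * (v - t))) * PK b (v - t) := by
  have hw : (v * I - (b + t * I) : ℂ) ≠ 0 := by
    intro h
    have := congrArg Complex.re h
    simp at this
    linarith
  rw [TT_tf (by linarith) hw, norm_mul, norm_div, mul_pow, div_pow, normSq_sinh, Complex.norm_exp]
  have e1 : (v * I - (b + t * I) : ℂ) = ⟨-b, v - t⟩ := by
    apply Complex.ext <;> simp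
  rw [e1]
  have e2 : ‖(⟨-b, v - t⟩ : ℂ)‖ ^ 2 = b ^ 2 + (v - t) ^ 2 := by
    rw [← Complex.normSq_eq_norm_sq, Complex.normSq_mk]; ring
  rw [e2]
  have e3 : ((⟨-b, v - t⟩ : ℂ) * ((D / 2 : ℝ) : ℂ)).re = -b * (D / 2) := by simp
  have e4 : ((⟨-b, v - t⟩ : ℂ) * ((D / 2 : ℝ) : ℂ)).im = (v - t) * (D / 2) := by simp
  rw [e3, e4]
  have e5 : (-(b * ((D / 2 : ℝ) : ℂ)) : ℂ).re = -(b * (D / 2)) := by
    rw [← Complex.ofReal_mul, ← Complex.ofReal_neg, Complex.ofReal_re]
  rw [e5]
  have e6 : Real.exp (-(b * (D / 2))) ^ 2 = Real.exp (-(b * D)) := by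
    rw [← Real.exp_nat_mul]; congr 1; push_cast; ring
  have e7 : Real.cosh (2 * (-b * (D / 2))) = Real.cosh (b * D) := by
    rw [← Real.cosh_neg]; congr 1; ring
  have e8 : (2 * ((v - t) * (D / 2)) : ℝ) = D * (v - t) := by ring
  rw [e6, e7, e8, PK, Real.exp_neg]
  have h1 : Real.exp (b * D) ≠ 0 := (Real.exp_pos _).ne'
  have h2 : b ^ 2 + (v - t) ^ 2 ≠ 0 := by positivity
  field_simp

/-- bound for the transform at real points -/
lemma TT_real_bd {D b t : ℝ} (hD : 0 ≤ D) (hb : 0 < b) (ht : 0 < t) {x : ℝ} (hx : |x| = 1 / 2) :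
    ‖TT (tf (D / 2) b t) x‖ ≤ 2 * Real.exp (D / 4) / t := by
  have hw : (x - (b + t * I) : ℂ) ≠ 0 := by
    intro h
    have := congrArg Complex.im h
    simp at this
    linarith
  rw [TT_tf (by linarith) hw, norm_mul, norm_div, Complex.norm_exp]
  have e5 : (-(b * ((D / 2 : ℝ) : ℂ)) : ℂ).re = -(b * (D / 2)) := by
    rw [← Complex.ofReal_mul, ← Complex.ofReal_neg, Complex.ofReal_re]
  rw [e5]
  have h1 : t ≤ ‖(x - (b + t * I) : ℂ)‖ := by
    have := Complex.abs_im_le_norm (x - (b + t * I) : ℂ)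
    simp at this
    rwa [abs_of_pos ht] at this
  have hz : ((x - (b + t * I) : ℂ) * ((D / 2 : ℝ) : ℂ)).re = (x - b) * (D / 2) := by simp
  have hxb : |(x - b) * (D / 2)| ≤ (1 / 2 + b) * (D / 2) := by
    rw [abs_mul, abs_of_nonneg (by linarith : 0 ≤ D / 2)]
    refine mul_le_mul_of_nonneg_right ?_ (by linarith)
    have := abs_sub x b
    rw [hx, abs_of_pos hb] at this
    exact this
  obtain ⟨h2, h3⟩ := abs_le.1 hxb
  have h4 : ‖cexp ((x - (b + t * I) : ℂ) * ((D / 2 : ℝ) : ℂ)) - cexp (-((x - (b + t * I) : ℂ) * ((D / 2 : ℝ) : ℂ)))‖ ≤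
      2 * Real.exp ((1 / 2 + b) * (D / 2)) := by
    refine (norm_sub_le _ _).trans ?_
    rw [Complex.norm_exp, Complex.norm_exp, Complex.neg_re, hz]
    have h5 := Real.exp_le_exp.2 h3
    have h6 : Real.exp (-((x - b) * (D / 2))) ≤ Real.exp ((1 / 2 + b) * (D / 2)) :=
      Real.exp_le_exp.2 (by linarith)
    linarith
  calc Real.exp (-(b * (D / 2))) * (‖cexp ((x - (b + t * I) : ℂ) * ((D / 2 : ℝ) : ℂ)) -
        cexp (-((x - (b + t * I) : ℂ) * ((D / 2 : ℝ) : ℂ)))‖ / ‖(x - (b + t * I) : ℂ)‖)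
      ≤ Real.exp (-(b * (D / 2))) * (2 * Real.exp ((1 / 2 + b) * (D / 2)) / t) := by
        apply mul_le_mul_of_nonneg_left _ (Real.exp_pos _).le
        exact div_le_div₀ (by positivity) h4 ht h1
    _ = 2 * (Real.exp (-(b * (D / 2))) * Real.exp ((1 / 2 + b) * (D / 2))) / t := by ring
    _ = 2 * Real.exp (D / 4) / t := by
        rw [← Real.exp_add]; congr 3; ring

/-- the L² norm -/
lemma N2_tf {D b t : ℝ} (hD : 0 ≤ D) (hb : 0 < b) :
    b * Real.exp (b * D) * N2 (tf (D / 2) b t) = Real.sinh (b * D) := by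
  unfold Pool.Agent.Y23.N2
  have e1 : (fun x : ℝ => ‖tf (D / 2) b t x‖ ^ 2) =
      (Icc (-(D / 2)) (D / 2)).indicator (fun x : ℝ => Real.exp (-(b * D)) * Real.exp (-(2 * b) * x)) := by
    funext x
    by_cases hx : x ∈ Icc (-(D / 2)) (D / 2)
    · rw [tf_norm hx, indicator_of_mem hx, ← Real.exp_nat_mul, ← Real.exp_add]
      congr 1; push_cast; ring
    · rw [tf_zero hx, indicator_of_notMem hx, norm_zero]; norm_num
  rw [e1, integral_indicator measurableSet_Icc, integral_Icc_eq_integral_Ioc,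
    ← intervalIntegral.integral_of_le (by linarith), intervalIntegral.integral_const_mul]
  have h2 : ∫ x in (-(D / 2))..(D / 2), Real.exp (-(2 * b) * x) =
      (Real.exp (b * D) - Real.exp (-(b * D))) / (2 * b) := by
    have hd : ∀ x : ℝ, HasDerivAt (fun x : ℝ => -(Real.exp (-(2 * b) * x) / (2 * b))) (Real.exp (-(2 * b) * x)) x := by
      intro x
      have h3 : HasDerivAt (fun x : ℝ => Real.exp (-(2 * b) * x)) (Real.exp (-(2 * b) * x) * (-(2 * b) * 1)) x :=
        ((hasDerivAt_id x).const_mul (-(2 * b))).exp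
      have h4 := (h3.div_const (2 * b)).neg
      have e : Real.exp (-(2 * b) * x) = -(Real.exp (-(2 * b) * x) * (-(2 * b) * 1) / (2 * b)) := by
        have h2b : (2 * b) ≠ 0 := by positivity
        rw [mul_one, mul_neg, neg_div, neg_neg, mul_div_assoc, div_self h2b, mul_one]
      exact e ▸ h4
    rw [intervalIntegral.integral_eq_sub_of_hasDerivAt (fun x _ => hd x)
      ((by fun_prop : Continuous fun x : ℝ => Real.exp (-(2 * b) * x)).intervalIntegrable _ _)]
    have e5 : -(2 * b) * (D / 2) = -(b * D) := by ring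
    have e6 : -(2 * b) * (-(D / 2)) = b * D := by ring
    rw [e5, e6]
    ring
  rw [h2, Real.sinh_eq]
  have h5 : Real.exp (b * D) * Real.exp (-(b * D)) = 1 := by rw [← Real.exp_add]; simp
  have : b * Real.exp (b * D) * (Real.exp (-(b * D)) * ((Real.exp (b * D) - Real.exp (-(b * D))) / (2 * b))) =
      (Real.exp (b * D) * Real.exp (-(b * D))) * ((Real.exp (b * D) - Real.exp (-(b * D))) / 2) := by
    field_simp
  rw [this, h5, one_mul]

/-- the correlations are at most the L² norm -/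
lemma corr_tf {a b t : ℝ} (hb : 0 < b) {L : ℝ} (hL : 0 ≤ L) :
    |(∫ x : ℝ, tf a b t (x + L) * conj (tf a b t x)).re| ≤ N2 (tf a b t) := by
  refine (Complex.abs_re_le_norm _).trans ((norm_integral_le_integral_norm _).trans ?_)
  unfold Pool.Agent.Y23.N2
  refine integral_mono_of_nonneg (Eventually.of_forall fun x => norm_nonneg _) (tf_Fa a b t).sq_int
    (Eventually.of_forall fun x => ?_)
  show ‖tf a b t (x + L) * conj (tf a b t x)‖ ≤ ‖tf a b t x‖ ^ 2
  rw [norm_mul, RCLike.norm_conj, sq]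
  by_cases hx : x ∈ Icc (-a) a
  · refine mul_le_mul_of_nonneg_right ?_ (norm_nonneg _)
    by_cases hx2 : x + L ∈ Icc (-a) a
    · rw [tf_norm hx, tf_norm hx2]
      apply Real.exp_le_exp.2
      nlinarith
    · rw [tf_zero hx2, norm_zero]; exact norm_nonneg _
  · rw [tf_zero hx, norm_zero]; simp

end Pool.Agent.Q31.SN
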