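import Pool.Agent.Q31.SN.Tf

set_option autoImplicit false

/-! Evaluation of the quadratic form at the test function. -/

open Complex Filter Topology Set MeasureTheory
open scoped ComplexConjugate
open Pool.Agent.Y23 (TT Fa Hd N2 QQ GG DG Lg Zt mu IsZ ZZ YL)

namespace Pool.Agent.Q31.SN

lemma PK_nonneg {b : ℝ} (hb : 0 < b) (y : ℝ) : 0 ≤ PK b y := by unfold PK; positivity

lemma PK_cont {b : ℝ} (hb : 0 < b) : Continuous (PK b) := by
  unfold PK
  refine continuous_const.div (by fun_prop) fun y => ?_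
  positivity

lemma Lg_le_sqrt (u : ℝ) : Lg u ≤ 4 * (1 + |u|) ^ (1 / 2 : ℝ) := by
  unfold Pool.Agent.Y23.Lg
  have h0 : 0 ≤ |u| := abs_nonneg u
  have h1 := Real.log_le_rpow_div (x := 3 + |u|) (by positivity) (show (0 : ℝ) < 1 / 2 by norm_num)
  have h2 : (3 + |u|) ^ (1 / 2 : ℝ) ≤ 2 * (1 + |u|) ^ (1 / 2 : ℝ) := by
    calc (3 + |u|) ^ (1 / 2 : ℝ) ≤ (4 * (1 + |u|)) ^ (1 / 2 : ℝ) :=
          Real.rpow_le_rpow (by positivity) (by linarith) (by norm_num)
      _ = 4 ^ (1 / 2 : ℝ) * (1 + |u|) ^ (1 / 2 : ℝ) := Real.mul_rpow (by norm_num) (by positivity)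
      _ = 2 * (1 + |u|) ^ (1 / 2 : ℝ) := by
          rw [show (4 : ℝ) = 2 ^ (2 : ℝ) by norm_num, ← Real.rpow_mul (by norm_num)]; norm_num
  have h3 : (3 + |u|) ^ (1 / 2 : ℝ) / (1 / 2) = 2 * (3 + |u|) ^ (1 / 2 : ℝ) := by ring
  linarith

lemma Lg_int : Integrable (fun u : ℝ => Lg u / (1 + u ^ 2)) := by
  have h1 : Integrable (fun u : ℝ => 8 * (1 + ‖u‖) ^ (-(3 / 2) : ℝ)) :=
    (integrable_one_add_norm (E := ℝ) (r := 3 / 2) (by simp; norm_num)).const_mul 8
  refine h1.mono' ?_ (Eventually.of_forall fun u => ?_)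
  · refine (Pool.Agent.Y23.Lg_cont.div (by fun_prop) fun u => ?_).aestronglyMeasurable
    positivity
  · rw [Real.norm_of_nonneg (div_nonneg (Pool.Agent.Y23.Lg_pos u).le (by positivity)), Real.norm_eq_abs,
      div_le_iff₀ (by positivity)]
    have h2 := Lg_le_sqrt u
    have h0 : 0 ≤ |u| := abs_nonneg u
    have h3 : (1 + |u|) ^ 2 ≤ 2 * (1 + u ^ 2) := by
      have := sq_abs u
      nlinarith [sq_nonneg (1 - |u|)]
    have h4 : (1 + |u|) ^ (1 / 2 : ℝ) = (1 + |u|) ^ (-(3 / 2) : ℝ) * (1 + |u|) ^ 2 := by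
      rw [← Real.rpow_natCast (1 + |u|) 2, ← Real.rpow_add (by positivity)]
      norm_num
    have h5 : 0 ≤ (1 + |u|) ^ (-(3 / 2) : ℝ) := by positivity
    rw [h4] at h2
    nlinarith

/-- the constant -/
noncomputable def JJ0 : ℝ := ∫ u : ℝ, Lg u / (1 + u ^ 2)

lemma JJ0_nonneg : 0 ≤ JJ0 := integral_nonneg fun u =>
  div_nonneg (Pool.Agent.Y23.Lg_pos u).le (by positivity)

lemma Lg_scale {b : ℝ} (hb : 0 < b) (hb3 : b ≤ 3) (u : ℝ) : Lg (b * u) ≤ 2 * Lg u := by
  unfold Pool.Agent.Y23.Lg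
  have h0 : 0 ≤ |u| := abs_nonneg u
  rw [abs_mul, abs_of_pos hb]
  have h1 : 3 + b * |u| ≤ (3 + |u|) ^ 2 := by nlinarith
  have h2 := Real.log_le_log (by positivity) h1
  rw [Real.log_pow] at h2
  exact_mod_cast h2

lemma int_Lg_PK {b : ℝ} (hb : 0 < b) (hb3 : b ≤ 3) :
    Integrable (fun y : ℝ => Lg y * PK b y) ∧ ∫ y : ℝ, Lg y * PK b y ≤ 2 * JJ0 := by
  have e1 : ∀ u : ℝ, Lg (b * u) * PK b (b * u) = b⁻¹ * (Lg (b * u) / (1 + u ^ 2)) := by
    intro u
    unfold PK
    have : b ^ 2 + (b * u) ^ 2 = b ^ 2 * (1 + u ^ 2) := by ring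
    rw [this]
    have h1 : (1 + u ^ 2) ≠ 0 := by positivity
    field_simp
  have hint : Integrable (fun u : ℝ => Lg (b * u) / (1 + u ^ 2)) := by
    refine (Lg_int.const_mul 2).mono' ?_ (Eventually.of_forall fun u => ?_)
    · refine Continuous.aestronglyMeasurable ?_
      exact (Pool.Agent.Y23.Lg_cont.comp (by fun_prop)).div (by fun_prop) fun u => by positivity
    · rw [Real.norm_of_nonneg (div_nonneg (Pool.Agent.Y23.Lg_pos _).le (by positivity)), ← mul_div_assoc]
      exact div_le_div_of_nonneg_right (Lg_scale hb hb3 u) (by positivity)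
  have hint2 : Integrable (fun u : ℝ => Lg (b * u) * PK b (b * u)) := by
    simp_rw [e1]; exact hint.const_mul _
  constructor
  · exact (integrable_comp_mul_left_iff (fun y : ℝ => Lg y * PK b y) hb.ne').1 hint2
  · have h2 := Measure.integral_comp_mul_left (fun y : ℝ => Lg y * PK b y) b
    simp_rw [e1] at h2
    rw [integral_const_mul, abs_of_pos (inv_pos.2 hb), smul_eq_mul] at h2
    have h3 : ∫ y : ℝ, Lg y * PK b y = ∫ u : ℝ, Lg (b * u) / (1 + u ^ 2) :=
      (mul_left_cancel₀ (inv_pos.2 hb).ne' h2).symm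
    rw [h3]
    unfold JJ0
    rw [← integral_const_mul]
    refine integral_mono hint (Lg_int.const_mul 2) fun u => ?_
    show Lg (b * u) / (1 + u ^ 2) ≤ 2 * (Lg u / (1 + u ^ 2))
    rw [← mul_div_assoc]
    exact div_le_div_of_nonneg_right (Lg_scale hb hb3 u) (by positivity)

/-- the weight -/
noncomputable def wt (D b y : ℝ) : ℝ := (Real.cosh (b * D) - Real.cos (D * y)) * PK b y

lemma wt_nonneg {D b : ℝ} (hb : 0 < b) (y : ℝ) : 0 ≤ wt D b y := by
  refine mul_nonneg ?_ (PK_nonneg hb y)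
  have := Real.one_le_cosh (b * D)
  have := Real.cos_le_one (D * y)
  linarith

lemma wt_cont {D b : ℝ} (hb : 0 < b) : Continuous (wt D b) := by
  unfold wt
  exact Continuous.mul (by fun_prop) (PK_cont hb)

lemma one_sub_cos (u : ℝ) : (1 - Real.cos u) * (1 + u ^ 2) ≤ 4 * u ^ 2 := by
  have h1 := Real.one_sub_sq_div_two_le_cos (x := u)
  have h2 := Real.neg_one_le_cos u
  rcases le_total (u ^ 2) 1 with h | h
  · nlinarith [sq_nonneg u]
  · nlinarith [sq_nonneg u]

lemma wt_le {D b : ℝ} (hD : 1 ≤ D) (hb : 0 < b) (y : ℝ) :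
    wt D b y ≤ (Real.cosh (b * D) - 1) * PK b y + 4 * (b * D) * PK (1 / D) y := by
  have h1 : (1 - Real.cos (D * y)) * PK b y ≤ 4 * (b * D) * PK (1 / D) y := by
    unfold PK
    have h2 := one_sub_cos (D * y)
    have e : 4 * (b * D) * (1 / D / ((1 / D) ^ 2 + y ^ 2)) = 4 * b * D ^ 2 / (1 + (D * y) ^ 2) := by
      have : (1 / D) ^ 2 + y ^ 2 = (1 + (D * y) ^ 2) / D ^ 2 := by field_simp
      rw [this]
      have h3 : 1 + (D * y) ^ 2 ≠ 0 := by positivity
      field_simp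
    rw [e, ← mul_div_assoc, div_le_div_iff₀ (by positivity) (by positivity)]
    nlinarith [sq_nonneg y, sq_nonneg b, mul_pos hb (pow_pos (by linarith : 0 < D) 2), pow_pos hb 3]
  unfold wt
  linarith

lemma cosh_sub_one_le {x : ℝ} (hx : 0 ≤ x) : Real.cosh x - 1 ≤ Real.sinh x := by
  rw [Real.cosh_eq, Real.sinh_eq]
  have : Real.exp (-x) ≤ 1 := Real.exp_le_one_iff.2 (by linarith)
  linarith

lemma int_Lg_wt {D b : ℝ} (hD : 1 ≤ D) (hb : 0 < b) (hb3 : b ≤ 3) :
    Integrable (fun y : ℝ => Lg y * wt D b y) ∧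
      ∫ y : ℝ, Lg y * wt D b y ≤ 10 * JJ0 * Real.sinh (b * D) := by
  have hbD : 0 < b * D := by positivity
  obtain ⟨i1, j1⟩ := int_Lg_PK hb hb3
  have h1D : 1 / D ≤ 3 := by rw [div_le_iff₀ (by linarith)]; linarith
  obtain ⟨i2, j2⟩ := int_Lg_PK (b := 1 / D) (by positivity) h1D
  have hle : ∀ y : ℝ, Lg y * wt D b y ≤ (Real.cosh (b * D) - 1) * (Lg y * PK b y) +
      4 * (b * D) * (Lg y * PK (1 / D) y) := by
    intro y
    have := mul_le_mul_of_nonneg_left (wt_le hD hb y) (Pool.Agent.Y23.Lg_pos y).le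
    linarith
  have hint : Integrable (fun y : ℝ => (Real.cosh (b * D) - 1) * (Lg y * PK b y) +
      4 * (b * D) * (Lg y * PK (1 / D) y)) := (i1.const_mul _).add (i2.const_mul _)
  have hint2 : Integrable (fun y : ℝ => Lg y * wt D b y) := by
    refine hint.mono' (Pool.Agent.Y23.Lg_cont.mul (wt_cont hb)).aestronglyMeasurable
      (Eventually.of_forall fun y => ?_)
    rw [Real.norm_of_nonneg (mul_nonneg (Pool.Agent.Y23.Lg_pos y).le (wt_nonneg hb y))]
    exact hle y
  refine ⟨hint2, (integral_mono hint2 hint hle).trans ?_⟩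
  rw [integral_add (i1.const_mul _) (i2.const_mul _), integral_const_mul, integral_const_mul]
  have h1 := cosh_sub_one_le hbD.le
  have h2 := Real.one_le_cosh (b * D)
  have h3 : b * D ≤ Real.sinh (b * D) := Real.self_le_sinh_iff.2 hbD.le
  have h4 := JJ0_nonneg
  have h5 : (Real.cosh (b * D) - 1) * (∫ y : ℝ, Lg y * PK b y) ≤ (Real.cosh (b * D) - 1) * (2 * JJ0) :=
    mul_le_mul_of_nonneg_left j1 (by linarith)
  have h6 : 4 * (b * D) * (∫ y : ℝ, Lg y * PK (1 / D) y) ≤ 4 * (b * D) * (2 * JJ0) :=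
    mul_le_mul_of_nonneg_left j2 (by positivity)
  have h7 : (Real.cosh (b * D) - 1) * (2 * JJ0) ≤ Real.sinh (b * D) * (2 * JJ0) :=
    mul_le_mul_of_nonneg_right h1 (by linarith)
  have h8 : 4 * (b * D) * (2 * JJ0) ≤ 4 * Real.sinh (b * D) * (2 * JJ0) :=
    mul_le_mul_of_nonneg_right (by linarith) (by linarith)
  linarith

/-- the archimedean density -/
lemma DG_log : ∃ C : ℝ, 0 < C ∧ ∀ t : ℝ, 1 ≤ t → ∀ v : ℝ, |DG v - Real.log t| ≤ C * Lg (v - t) := by
  obtain ⟨C, hC0, hC⟩ := H370.DL.logDeriv_Gammaℝ_bound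
  obtain ⟨K, hK⟩ := (isCompact_Icc (a := (-1 : ℝ)) (b := 1)).exists_bound_of_continuousOn
    Pool.Agent.Y23.DG_cont.continuousOn
  have hY : ∀ v : ℝ, 1 ≤ |v| → ‖YL ⟨0, v⟩ - 1 / 2 * Real.log |v|‖ ≤ C + 3 := by
    intro v hv
    have hw : 1 ≤ ‖(⟨0, v⟩ : ℂ)‖ := hv.trans (Complex.abs_im_le_norm (⟨0, v⟩ : ℂ))
    unfold Pool.Agent.Y23.YL
    have b1 : ‖8 * (⟨0, v⟩ : ℂ) / (4 * (⟨0, v⟩ : ℂ) ^ 2 - 1)‖ ≤ 3 := by
      rw [norm_div]
      have h3 : 3 * ‖(⟨0, v⟩ : ℂ)‖ ^ 2 ≤ ‖4 * (⟨0, v⟩ : ℂ) ^ 2 - 1‖ := by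
        have h4 := norm_sub_norm_le (4 * (⟨0, v⟩ : ℂ) ^ 2) 1
        rw [norm_mul, norm_pow, norm_one, Complex.norm_ofNat] at h4
        nlinarith
      rw [div_le_iff₀ (by nlinarith), norm_mul, Complex.norm_ofNat]
      nlinarith
    have him : (1 / 2 + (⟨0, v⟩ : ℂ)).im = v := by simp
    have hre : (1 / 2 + (⟨0, v⟩ : ℂ)).re = 1 / 2 := by simp
    have h3 := hC (1 / 2 + ⟨0, v⟩) (by rw [hre]; norm_num) (by rw [hre]; norm_num) (by rw [him]; exact hv)
    rw [him] at h3
    have e : 8 * (⟨0, v⟩ : ℂ) / (4 * (⟨0, v⟩ : ℂ) ^ 2 - 1) + logDeriv Gammaℝ (1 / 2 + ⟨0, v⟩) -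
        1 / 2 * Real.log |v| = 8 * (⟨0, v⟩ : ℂ) / (4 * (⟨0, v⟩ : ℂ) ^ 2 - 1) +
        (logDeriv Gammaℝ (1 / 2 + ⟨0, v⟩) - 1 / 2 * Real.log |v|) := by ring
    rw [e]
    refine (norm_add_le _ _).trans ?_
    linarith
  refine ⟨2 * (C + 3) + |K| + 1, by positivity, fun t ht v => ?_⟩
  have hL := Pool.Agent.Y23.one_le_Lg (v - t)
  have hvt : 0 ≤ |v - t| := abs_nonneg _
  have hsmall : Real.log (1 + |v - t|) ≤ Lg (v - t) := by
    unfold Pool.Agent.Y23.Lg
    exact Real.log_le_log (by positivity) (by linarith)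
  have ht1 : |t| = t := abs_of_pos (by linarith)
  rcases le_total 1 |v| with h | h
  · have h1 : |DG v - Real.log (|v|)| ≤ 2 * (C + 3) := by
      have e : ((DG v - Real.log |v| : ℝ) : ℂ) = (YL ⟨0, v⟩ - 1 / 2 * Real.log |v|) +
          (YL ⟨0, -v⟩ - 1 / 2 * Real.log |-v|) := by
        rw [abs_neg]
        push_cast
        rw [← Pool.Agent.Y23.DG_eq]
        ring
      have h2 := (norm_add_le (YL ⟨0, v⟩ - 1 / 2 * Real.log |v|) (YL ⟨0, -v⟩ - 1 / 2 * Real.log |-v|)).trans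
        (add_le_add (hY v h) (hY (-v) (by rw [abs_neg]; exact h)))
      rw [← e, Complex.norm_real, Real.norm_eq_abs] at h2
      linarith
    have h2 : |Real.log (|v|) - Real.log t| ≤ Lg (v - t) := by
      have a1 : |v| ≤ t * (1 + |v - t|) := by
        have := abs_add_le t (v - t)
        rw [add_sub_cancel, ht1] at this
        nlinarith
      have a2 : t ≤ |v| * (1 + |v - t|) := by
        have := abs_sub_abs_le_abs_sub t v
        rw [ht1, abs_sub_comm] at this
        nlinarith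
      have c1 := Real.log_le_log (by linarith) a1
      have c2 := Real.log_le_log (by linarith) a2
      rw [Real.log_mul (by linarith) (by positivity)] at c1
      rw [Real.log_mul (by linarith) (by positivity)] at c2
      rw [abs_le]; constructor <;> linarith
    have h3 := abs_sub_le (DG v) (Real.log (|v|)) (Real.log t)
    have h4 : 0 ≤ |K| := abs_nonneg K
    nlinarith
  · have h1 : |DG v| ≤ |K| := by
      have := hK v (abs_le.1 h)
      rw [Real.norm_eq_abs] at this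
      exact this.trans (le_abs_self K)
    have h2 : |Real.log t| ≤ Lg (v - t) := by
      rw [abs_of_nonneg (Real.log_nonneg ht)]
      refine le_trans (Real.log_le_log (by linarith) ?_) hsmall
      have := abs_sub_abs_le_abs_sub t v
      rw [ht1, abs_sub_comm] at this
      linarith
    have h3 := abs_sub (DG v) (Real.log t)
    have h4 : 0 ≤ |K| := abs_nonneg K
    nlinarith

lemma sum_inv_sqrt (N : ℕ) : ∑ n ∈ Finset.Icc 1 N, 1 / Real.sqrt n ≤ 2 * Real.sqrt N := by
  induction N with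
  | zero => simp
  | succ N ih =>
    rw [Finset.sum_Icc_succ_top (by omega)]
    have h1 : 0 ≤ Real.sqrt N := Real.sqrt_nonneg _
    have h2 : 0 < Real.sqrt ((N + 1 : ℕ) : ℝ) := Real.sqrt_pos.2 (by positivity)
    have h3 := Real.sq_sqrt (show (0 : ℝ) ≤ N by positivity)
    have h4 := Real.sq_sqrt (show (0 : ℝ) ≤ ((N + 1 : ℕ) : ℝ) by positivity)
    have h5 : 1 / Real.sqrt ((N + 1 : ℕ) : ℝ) ≤ 2 * Real.sqrt ((N + 1 : ℕ) : ℝ) - 2 * Real.sqrt N := by
      rw [div_le_iff₀ h2]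
      push_cast at h4 ⊢
      push_cast at h2
      nlinarith [sq_nonneg (Real.sqrt ((N : ℝ) + 1) - Real.sqrt N)]
    linarith

lemma prime_sum {D : ℝ} (hD : 0 ≤ D) : ∑ n ∈ Finset.Icc 1 ⌊Real.exp D⌋₊,
    ArithmeticFunction.vonMangoldt n / Real.sqrt n ≤ 2 * D * Real.exp (D / 2) := by
  have h1 : ∀ n ∈ Finset.Icc 1 ⌊Real.exp D⌋₊, ArithmeticFunction.vonMangoldt n / Real.sqrt n ≤
      D * (1 / Real.sqrt n) := by
    intro n hn
    rw [Finset.mem_Icc] at hn
    have hn0 : (0 : ℝ) < n := by exact_mod_cast hn.1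
    have h2 : (n : ℝ) ≤ Real.exp D := (Nat.le_floor_iff (Real.exp_pos D).le).1 hn.2
    have h3 : ArithmeticFunction.vonMangoldt n ≤ D := by
      refine ArithmeticFunction.vonMangoldt_le_log.trans ?_
      rw [Real.log_le_iff_le_exp hn0]; exact h2
    rw [mul_one_div]
    exact div_le_div_of_nonneg_right h3 (Real.sqrt_nonneg _)
  refine (Finset.sum_le_sum h1).trans ?_
  rw [← Finset.mul_sum]
  have h2 := sum_inv_sqrt ⌊Real.exp D⌋₊
  have h3 : Real.sqrt ⌊Real.exp D⌋₊ ≤ Real.exp (D / 2) := by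
    rw [Real.sqrt_le_left (Real.exp_pos _).le, ← Real.exp_nat_mul]
    refine (Nat.floor_le (Real.exp_pos D).le).trans (le_of_eq ?_)
    congr 1; push_cast; ring
  nlinarith

lemma b_exp_le {b D : ℝ} (hb : 0 < b) (hD : 1 ≤ D) : b * Real.exp (b * D) ≤ (1 + 2 * b) * Real.sinh (b * D) := by
  rw [Real.sinh_eq]
  have h1 : 1 + 2 * b ≤ Real.exp (b * D) * Real.exp (b * D) := by
    rw [← Real.exp_add]
    have := Real.add_one_le_exp (b * D + b * D)
    nlinarith
  have h2 : Real.exp (b * D) * Real.exp (-(b * D)) = 1 := by rw [← Real.exp_add]; simp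
  have h3 : 0 < Real.exp (-(b * D)) := Real.exp_pos _
  have h4 : (1 + 2 * b) * Real.exp (-(b * D)) ≤ Real.exp (b * D) := by
    calc (1 + 2 * b) * Real.exp (-(b * D)) ≤ (Real.exp (b * D) * Real.exp (b * D)) * Real.exp (-(b * D)) :=
          mul_le_mul_of_nonneg_right h1 h3.le
      _ = Real.exp (b * D) := by rw [mul_assoc, h2, mul_one]
  linarith

lemma tf_Hd {D b t : ℝ} (hD : 1 ≤ D) (hb : 0 < b) (hb3 : b ≤ 3) : Hd (D / 2) (tf (D / 2) b t) := by
  refine ⟨tf_Fa _ _ _, ?_⟩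
  have hκ : 0 < b * Real.exp (b * D) / 2 := by positivity
  have e : (fun v : ℝ => Lg v * ‖TT (tf (D / 2) b t) (v * I)‖ ^ 2) =
      fun v : ℝ => (b * Real.exp (b * D) / 2)⁻¹ * (Lg v * wt D b (v - t)) := by
    funext v
    have h := TT_line (D := D) (b := b) (t := t) (by linarith) hb v
    rw [wt, ← h]
    field_simp
  rw [e]
  refine Integrable.const_mul ?_ _
  have h1 := ((int_Lg_wt hD hb hb3).1.comp_sub_right t).const_mul (2 * Lg t)
  refine h1.mono' ((Pool.Agent.Y23.Lg_cont.mul ((wt_cont hb).comp (by fun_prop))).aestronglyMeasurable)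
    (Eventually.of_forall fun v => ?_)
  rw [Real.norm_of_nonneg (mul_nonneg (Pool.Agent.Y23.Lg_pos v).le (wt_nonneg hb _)), ← mul_assoc]
  refine mul_le_mul_of_nonneg_right ?_ (wt_nonneg hb _)
  -- Lg v ≤ 2 Lg t Lg (v - t)
  have h2 : Lg v ≤ Lg t + Lg (v - t) := by
    unfold Pool.Agent.Y23.Lg
    rw [← Real.log_mul (by positivity) (by positivity)]
    refine Real.log_le_log (by positivity) ?_
    have := abs_add_le t (v - t)
    rw [add_sub_cancel] at this
    have h3 := abs_nonneg t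
    have h4 := abs_nonneg (v - t)
    nlinarith [mul_nonneg h3 h4]
  have h3 := Pool.Agent.Y23.one_le_Lg t
  have h4 := Pool.Agent.Y23.one_le_Lg (v - t)
  nlinarith

/-- **evaluation of the quadratic form** -/
theorem QQ_eval : ∃ C : ℝ, 0 < C ∧ ∀ D b t : ℝ, 1 ≤ D → 0 < b → b ≤ 3 → 1 ≤ t →
    |b * Real.exp (b * D) / 2 * QQ (tf (D / 2) b t) - 1 / 2 * Real.sinh (b * D) * Real.log t| ≤
      C * (D * Real.exp (D / 2)) * Real.sinh (b * D) := by
  obtain ⟨C, hC0, hC⟩ := DG_log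
  refine ⟨28 + C * 10 * JJ0 + 2, by have := JJ0_nonneg; positivity, fun D b t hD hb hb3 ht => ?_⟩
  have hJ := JJ0_nonneg
  have hw := Pool.Agent.Y23.weil (a := D / 2) (by linarith) (tf_Hd (t := t) hD hb hb3)
  have e2 : 2 * (D / 2) = D := by ring
  rw [e2] at hw
  have hκ : 0 < b * Real.exp (b * D) / 2 := by positivity
  have hsinh : 0 < Real.sinh (b * D) := Real.sinh_pos_iff.2 (by positivity)
  have hexp : 1 ≤ Real.exp (D / 2) := Real.one_le_exp (by linarith)
  -- archimedean part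
  have i0 : Integrable (fun v : ℝ => wt D b (v - t)) := by
    have h1 : Integrable (fun y : ℝ => wt D b y) := by
      refine (int_Lg_wt hD hb hb3).1.mono' (wt_cont hb).aestronglyMeasurable (Eventually.of_forall fun y => ?_)
      rw [Real.norm_of_nonneg (wt_nonneg hb y)]
      have := Pool.Agent.Y23.one_le_Lg y
      nlinarith [wt_nonneg (D := D) hb y]
    exact h1.comp_sub_right t
  have i1 := (int_Lg_wt hD hb hb3).1.comp_sub_right t
  have i2 : Integrable (fun v : ℝ => (DG v - Real.log t) * wt D b (v - t)) := by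
    refine (i1.const_mul C).mono' (((Pool.Agent.Y23.DG_cont.sub continuous_const).mul
      ((wt_cont hb).comp (by fun_prop))).aestronglyMeasurable) (Eventually.of_forall fun v => ?_)
    rw [norm_mul, Real.norm_eq_abs, Real.norm_of_nonneg (wt_nonneg hb _), ← mul_assoc]
    exact mul_le_mul_of_nonneg_right (hC t ht v) (wt_nonneg hb _)
  have hwt : ∀ v : ℝ, b * Real.exp (b * D) / 2 * ‖TT (tf (D / 2) b t) (v * I)‖ ^ 2 = wt D b (v - t) :=
    fun v => TT_line (by linarith) hb v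
  have htot : ∫ v : ℝ, wt D b (v - t) = Real.pi * Real.sinh (b * D) := by
    simp_rw [← hwt]
    rw [integral_const_mul, Pool.Agent.Y23.plancherel (tf_Fa _ _ _), ← N2_tf (D := D) (t := t) (by linarith) hb]
    ring
  have harch : b * Real.exp (b * D) / 2 * (1 / (2 * Real.pi) * ∫ v : ℝ, DG v * ‖TT (tf (D / 2) b t) (v * I)‖ ^ 2) =
      1 / 2 * Real.sinh (b * D) * Real.log t + 1 / (2 * Real.pi) * ∫ v : ℝ, (DG v - Real.log t) * wt D b (v - t) := by
    have h1 : b * Real.exp (b * D) / 2 * (1 / (2 * Real.pi) * ∫ v : ℝ, DG v * ‖TT (tf (D / 2) b t) (v * I)‖ ^ 2) =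
        1 / (2 * Real.pi) * ∫ v : ℝ, DG v * wt D b (v - t) := by
      have : ∫ v : ℝ, DG v * wt D b (v - t) = b * Real.exp (b * D) / 2 *
          ∫ v : ℝ, DG v * ‖TT (tf (D / 2) b t) (v * I)‖ ^ 2 := by
        rw [← integral_const_mul]
        refine integral_congr_ae (Eventually.of_forall fun v => ?_)
        simp only
        rw [← hwt]; ring
      rw [this]; ring
    rw [h1]
    have h2 : ∫ v : ℝ, DG v * wt D b (v - t) = Real.log t * (∫ v : ℝ, wt D b (v - t)) +
        ∫ v : ℝ, (DG v - Real.log t) * wt D b (v - t) := by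
      rw [← integral_const_mul, ← integral_add (i0.const_mul _) i2]
      refine integral_congr_ae (Eventually.of_forall fun v => ?_)
      simp only
      ring
    rw [h2, htot]
    have hpi := Real.pi_pos.ne'
    field_simp
  have herr : |1 / (2 * Real.pi) * ∫ v : ℝ, (DG v - Real.log t) * wt D b (v - t)| ≤
      C * 10 * JJ0 * Real.sinh (b * D) := by
    have h1 : |∫ v : ℝ, (DG v - Real.log t) * wt D b (v - t)| ≤ C * (10 * JJ0 * Real.sinh (b * D)) := by
      rw [← Real.norm_eq_abs]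
      refine (norm_integral_le_of_norm_le (i1.const_mul C) (Eventually.of_forall fun v => ?_)).trans ?_
      · rw [norm_mul, Real.norm_eq_abs, Real.norm_of_nonneg (wt_nonneg hb _), ← mul_assoc]
        exact mul_le_mul_of_nonneg_right (hC t ht v) (wt_nonneg hb _)
      · rw [integral_const_mul]
        refine mul_le_mul_of_nonneg_left ?_ hC0.le
        rw [integral_sub_right_eq_self (fun v => Lg v * wt D b v) t]
        exact (int_Lg_wt hD hb hb3).2
    rw [abs_mul, abs_of_pos (by positivity)]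
    have h2 : 1 / (2 * Real.pi) ≤ 1 := by
      rw [div_le_one (by positivity)]
      have := Real.pi_gt_three
      linarith
    have h3 := abs_nonneg (∫ v : ℝ, (DG v - Real.log t) * wt D b (v - t))
    nlinarith
  -- pole part
  have hpole : |b * Real.exp (b * D) / 2 * (2 * (TT (tf (D / 2) b t) (1 / 2) *
      conj (TT (tf (D / 2) b t) (-(1 / 2)))).re)| ≤ 28 * Real.exp (D / 2) * Real.sinh (b * D) := by
    have h1 := TT_real_bd (D := D) (b := b) (t := t) (by linarith) hb (by linarith) (x := 1 / 2) (by rw [abs_of_pos]; norm_num)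
    have h2 := TT_real_bd (D := D) (b := b) (t := t) (by linarith) hb (by linarith) (x := -(1 / 2)) (by rw [abs_neg, abs_of_pos]; norm_num)
    push_cast at h1 h2
    have h3 : |(TT (tf (D / 2) b t) (1 / 2) * conj (TT (tf (D / 2) b t) (-(1 / 2)))).re| ≤
        (2 * Real.exp (D / 4)) * (2 * Real.exp (D / 4)) := by
      refine (Complex.abs_re_le_norm _).trans ?_
      rw [norm_mul, RCLike.norm_conj]
      have h4 : 2 * Real.exp (D / 4) / t ≤ 2 * Real.exp (D / 4) := by
        rw [div_le_iff₀ (by linarith)]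
        have := Real.exp_pos (D / 4)
        nlinarith
      exact mul_le_mul (h1.trans h4) (h2.trans h4) (norm_nonneg _) (by positivity)
    have h4 : (2 * Real.exp (D / 4)) * (2 * Real.exp (D / 4)) = 4 * Real.exp (D / 2) := by
      have : Real.exp (D / 2) = Real.exp (D / 4) * Real.exp (D / 4) := by
        rw [← Real.exp_add]; congr 1; ring
      rw [this]; ring
    rw [h4] at h3
    rw [abs_mul, abs_of_pos hκ, abs_mul, abs_of_pos (by norm_num : (0 : ℝ) < 2)]
    have h5 := b_exp_le hb hD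
    calc b * Real.exp (b * D) / 2 * (2 * |(TT (tf (D / 2) b t) (1 / 2) * conj (TT (tf (D / 2) b t) (-(1 / 2)))).re|)
        ≤ b * Real.exp (b * D) / 2 * (2 * (4 * Real.exp (D / 2))) := by
          refine mul_le_mul_of_nonneg_left ?_ hκ.le
          linarith
      _ = (b * Real.exp (b * D)) * (4 * Real.exp (D / 2)) := by ring
      _ ≤ ((1 + 2 * b) * Real.sinh (b * D)) * (4 * Real.exp (D / 2)) :=
          mul_le_mul_of_nonneg_right h5 (by positivity)
      _ ≤ (7 * Real.sinh (b * D)) * (4 * Real.exp (D / 2)) := by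
          refine mul_le_mul_of_nonneg_right ?_ (by positivity)
          exact mul_le_mul_of_nonneg_right (by linarith) hsinh.le
      _ = 28 * Real.exp (D / 2) * Real.sinh (b * D) := by ring
  -- prime part
  have hprime : |b * Real.exp (b * D) / 2 * (2 * ∑ n ∈ Finset.Icc 1 ⌊Real.exp D⌋₊,
      ArithmeticFunction.vonMangoldt n / Real.sqrt n *
        (∫ x : ℝ, tf (D / 2) b t (x + Real.log n) * conj (tf (D / 2) b t x)).re)| ≤
      2 * D * Real.exp (D / 2) * Real.sinh (b * D) := by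
    have h1 : |∑ n ∈ Finset.Icc 1 ⌊Real.exp D⌋₊, ArithmeticFunction.vonMangoldt n / Real.sqrt n *
        (∫ x : ℝ, tf (D / 2) b t (x + Real.log n) * conj (tf (D / 2) b t x)).re| ≤
        2 * D * Real.exp (D / 2) * N2 (tf (D / 2) b t) := by
      refine (Finset.abs_sum_le_sum_abs _ _).trans ?_
      have h2 : ∀ n ∈ Finset.Icc 1 ⌊Real.exp D⌋₊, |ArithmeticFunction.vonMangoldt n / Real.sqrt n *
          (∫ x : ℝ, tf (D / 2) b t (x + Real.log n) * conj (tf (D / 2) b t x)).re| ≤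
          ArithmeticFunction.vonMangoldt n / Real.sqrt n * N2 (tf (D / 2) b t) := by
        intro n hn
        rw [Finset.mem_Icc] at hn
        have h3 : 0 ≤ ArithmeticFunction.vonMangoldt n / Real.sqrt n :=
          div_nonneg ArithmeticFunction.vonMangoldt_nonneg (Real.sqrt_nonneg _)
        rw [abs_mul, abs_of_nonneg h3]
        exact mul_le_mul_of_nonneg_left (corr_tf hb (Real.log_nonneg (by exact_mod_cast hn.1))) h3
      refine (Finset.sum_le_sum h2).trans ?_
      rw [← Finset.sum_mul]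
      exact mul_le_mul_of_nonneg_right (prime_sum (by linarith)) (Pool.Agent.Y23.N2_nonneg _)
    have h2 := N2_tf (D := D) (t := t) (by linarith) hb
    rw [abs_mul, abs_of_pos hκ, abs_mul, abs_of_pos (by norm_num : (0 : ℝ) < 2)]
    calc b * Real.exp (b * D) / 2 * (2 * |∑ n ∈ Finset.Icc 1 ⌊Real.exp D⌋₊,
          ArithmeticFunction.vonMangoldt n / Real.sqrt n *
          (∫ x : ℝ, tf (D / 2) b t (x + Real.log n) * conj (tf (D / 2) b t x)).re|)
        ≤ b * Real.exp (b * D) / 2 * (2 * (2 * D * Real.exp (D / 2) * N2 (tf (D / 2) b t))) := by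
          refine mul_le_mul_of_nonneg_left ?_ hκ.le
          linarith
      _ = 2 * D * Real.exp (D / 2) * (b * Real.exp (b * D) * N2 (tf (D / 2) b t)) := by ring
      _ = 2 * D * Real.exp (D / 2) * Real.sinh (b * D) := by rw [h2]
  rw [hw]
  set P1 := 2 * (TT (tf (D / 2) b t) (1 / 2) * conj (TT (tf (D / 2) b t) (-(1 / 2)))).re with hP1
  set P2 := 1 / (2 * Real.pi) * ∫ v : ℝ, DG v * ‖TT (tf (D / 2) b t) (v * I)‖ ^ 2 with hP2
  set P3 := 2 * ∑ n ∈ Finset.Icc 1 ⌊Real.exp D⌋₊, ArithmeticFunction.vonMangoldt n / Real.sqrt n *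
        (∫ x : ℝ, tf (D / 2) b t (x + Real.log n) * conj (tf (D / 2) b t x)).re with hP3
  set E2 := 1 / (2 * Real.pi) * ∫ v : ℝ, (DG v - Real.log t) * wt D b (v - t) with hE2
  have e : b * Real.exp (b * D) / 2 * (P1 + P2 - P3) - 1 / 2 * Real.sinh (b * D) * Real.log t =
      b * Real.exp (b * D) / 2 * P1 + E2 - b * Real.exp (b * D) / 2 * P3 := by
    have : b * Real.exp (b * D) / 2 * (P1 + P2 - P3) = b * Real.exp (b * D) / 2 * P1 +
        b * Real.exp (b * D) / 2 * P2 - b * Real.exp (b * D) / 2 * P3 := by ring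
    rw [this, harch]; ring
  rw [e]
  have t1 := abs_sub (b * Real.exp (b * D) / 2 * P1 + E2) (b * Real.exp (b * D) / 2 * P3)
  have t2 := abs_add_le (b * Real.exp (b * D) / 2 * P1) E2
  have hDe : 1 ≤ D * Real.exp (D / 2) := by nlinarith
  have u1 : 28 * Real.exp (D / 2) * Real.sinh (b * D) ≤ 28 * (D * Real.exp (D / 2)) * Real.sinh (b * D) := by
    refine mul_le_mul_of_nonneg_right ?_ hsinh.le
    nlinarith
  have u2 : C * 10 * JJ0 * Real.sinh (b * D) ≤ C * 10 * JJ0 * (D * Real.exp (D / 2)) * Real.sinh (b * D) := by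
    refine mul_le_mul_of_nonneg_right ?_ hsinh.le
    have : 0 ≤ C * 10 * JJ0 := by positivity
    nlinarith
  calc |b * Real.exp (b * D) / 2 * P1 + E2 - b * Real.exp (b * D) / 2 * P3|
      ≤ 28 * (D * Real.exp (D / 2)) * Real.sinh (b * D) + C * 10 * JJ0 * (D * Real.exp (D / 2)) * Real.sinh (b * D) +
        2 * D * Real.exp (D / 2) * Real.sinh (b * D) := by linarith
    _ = (28 + C * 10 * JJ0 + 2) * (D * Real.exp (D / 2)) * Real.sinh (b * D) := by ring

end Pool.Agent.Q31.SN
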