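import Pool.Agent.Q31.SN.Comp

set_option autoImplicit false

/-! The comparison lemma on a window: cut-off and periodisation. -/

open Set Filter Topology

namespace Pool.Agent.Q31.SN

/-- a smooth cut-off, with its derivatives -/
lemma cut (r : ℕ) : ∃ (W : ℕ → ℝ → ℝ) (C : ℝ), 0 ≤ C ∧ (∀ k x, HasDerivAt (W k) (W (k + 1) x) x) ∧
    (∀ k x, 1 / 4 < |x| → W k x = 0) ∧ (∀ x, 0 ≤ W 0 x ∧ W 0 x ≤ 1) ∧ W 0 0 = 1 ∧ W 1 0 = 0 ∧
    ∀ k ≤ r, ∀ x, |W k x| ≤ C := by
  let f : ContDiffBump (0 : ℝ) := ⟨1 / 8, 1 / 4, by norm_num, by norm_num⟩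
  have hd : ∀ k x, HasDerivAt (iteratedDeriv k f) (iteratedDeriv (k + 1) f x) x := by
    intro k x
    have hf2 : ContDiff ℝ ((k + 1 : ℕ) : WithTop ℕ∞) (f : ℝ → ℝ) := f.contDiff
    have h1 : Differentiable ℝ (iteratedDeriv k (f : ℝ → ℝ)) :=
      hf2.differentiable_iteratedDeriv k (by exact_mod_cast Nat.lt_succ_self k)
    rw [iteratedDeriv_succ]
    exact (h1 x).hasDerivAt
  have hz : ∀ k x, 1 / 4 < |x| → iteratedDeriv k (f : ℝ → ℝ) x = 0 := by
    intro k x hx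
    have h1 : (f : ℝ → ℝ) =ᶠ[𝓝 x] fun _ => (0 : ℝ) := by
      have h2 : ∀ᶠ z in 𝓝 x, 1 / 4 < |z| := (continuous_abs.tendsto x).eventually (lt_mem_nhds hx)
      filter_upwards [h2] with z hz
      exact f.zero_of_le_dist (by rw [Real.dist_eq, sub_zero]; exact hz.le)
    rw [h1.iteratedDeriv_eq k]
    simp
  have hb : ∀ k, ∃ C : ℝ, 0 ≤ C ∧ ∀ x, |iteratedDeriv k (f : ℝ → ℝ) x| ≤ C := by
    intro k
    have hc : Continuous (iteratedDeriv k (f : ℝ → ℝ)) :=
      continuous_iff_continuousAt.2 fun x => (hd k x).continuousAt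
    obtain ⟨C, hC⟩ := (isCompact_Icc (a := (-1 : ℝ)) (b := 1)).exists_bound_of_continuousOn hc.continuousOn
    refine ⟨max C 0, le_max_right _ _, fun x => ?_⟩
    by_cases hx : 1 / 4 < |x|
    · rw [hz k x hx, abs_zero]; exact le_max_right _ _
    · push Not at hx
      have h3 := hC x ⟨by linarith [(abs_le.1 hx).1], by linarith [(abs_le.1 hx).2]⟩
      exact (le_of_eq (Real.norm_eq_abs _).symm).trans (h3.trans (le_max_left _ _))
  choose C hC0 hC using hb
  refine ⟨fun k => iteratedDeriv k f, ∑ k ∈ Finset.range (r + 1), C k,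
    Finset.sum_nonneg fun k _ => hC0 k, hd, hz, fun x => ?_, ?_, ?_, fun k hk x => ?_⟩
  · show 0 ≤ iteratedDeriv 0 (f : ℝ → ℝ) x ∧ iteratedDeriv 0 (f : ℝ → ℝ) x ≤ 1
    rw [iteratedDeriv_zero]
    exact ⟨f.nonneg, f.le_one⟩
  · show iteratedDeriv 0 (f : ℝ → ℝ) 0 = 1
    rw [iteratedDeriv_zero]
    exact f.one_of_mem_closedBall (Metric.mem_closedBall_self (by norm_num [f]))
  · show iteratedDeriv 1 (f : ℝ → ℝ) 0 = 0
    have h1 : (f : ℝ → ℝ) =ᶠ[𝓝 0] fun _ => (1 : ℝ) := by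
      have h2 : Metric.ball (0 : ℝ) (1 / 8) ∈ 𝓝 (0 : ℝ) := Metric.ball_mem_nhds _ (by norm_num)
      filter_upwards [h2] with z hz
      exact f.one_of_mem_closedBall (Metric.ball_subset_closedBall hz)
    rw [h1.iteratedDeriv_eq 1]
    simp [iteratedDeriv_one]
  · exact (hC k x).trans (Finset.single_le_sum (f := C) (fun i _ => hC0 i)
      (Finset.mem_range.2 (by omega)))

/-- periodisation -/
lemma periodise {r N : ℕ} (hN : 0 < N) {g : ℕ → ℝ → ℝ}
    (hg : ∀ k < r, ∀ x, HasDerivAt (g k) (g (k + 1) x) x)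
    (hz : ∀ k ≤ r, ∀ x : ℝ, 3 * (N : ℝ) / 8 ≤ |x| → g k x = 0) :
    ∃ G : ℕ → ℝ → ℝ, (∀ k < r, ∀ x, HasDerivAt (G k) (G (k + 1) x) x) ∧
      (∀ k ≤ r, ∀ x, G k (x + N) = G k x) ∧ (∀ k x, ∃ y, G k x = g k y) ∧ ∀ k, G k 0 = g k 0 := by
  have hN0 : (0 : ℝ) < N := by exact_mod_cast hN
  have hloc : ∀ k ≤ r, ∀ y : ℝ, (fun z => g k (z - N * ⌊z / N + 1 / 2⌋)) =ᶠ[𝓝 y]
      fun z => g k (z - N * ⌊y / N + 1 / 2⌋) := by
    intro k hk y
    have h1 : Ioo (y - N / 8) (y + N / 8) ∈ 𝓝 y := Ioo_mem_nhds (by linarith) (by linarith)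
    filter_upwards [h1] with z hzz
    set a := ⌊y / N + 1 / 2⌋ with ha
    set b := ⌊z / N + 1 / 2⌋ with hb
    have a1 : (a : ℝ) ≤ y / N + 1 / 2 := Int.floor_le _
    have a2 : y / N + 1 / 2 < a + 1 := Int.lt_floor_add_one _
    have b1 : (b : ℝ) ≤ z / N + 1 / 2 := Int.floor_le _
    have b2 : z / N + 1 / 2 < b + 1 := Int.lt_floor_add_one _
    have a1' : (a : ℝ) * N ≤ y + N / 2 := by
      have := mul_le_mul_of_nonneg_right a1 hN0.le
      rw [add_mul, div_mul_cancel₀ _ hN0.ne'] at this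
      linarith
    have a2' : y + N / 2 < (a + 1) * N := by
      have := mul_lt_mul_of_pos_right a2 hN0
      rw [add_mul, div_mul_cancel₀ _ hN0.ne'] at this
      linarith
    have b1' : (b : ℝ) * N ≤ z + N / 2 := by
      have := mul_le_mul_of_nonneg_right b1 hN0.le
      rw [add_mul, div_mul_cancel₀ _ hN0.ne'] at this
      linarith
    have b2' : z + N / 2 < (b + 1) * N := by
      have := mul_lt_mul_of_pos_right b2 hN0
      rw [add_mul, div_mul_cancel₀ _ hN0.ne'] at this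
      linarith
    rcases lt_trichotomy a b with h | h | h
    · have h' : (a : ℝ) + 1 ≤ b := by exact_mod_cast h
      have h'' : ((a : ℝ) + 1) * N ≤ b * N := mul_le_mul_of_nonneg_right h' hN0.le
      rw [hz k hk, hz k hk]
      · rw [abs_of_nonneg (by linarith [hzz.1, hzz.2])]; linarith [hzz.1, hzz.2]
      · rw [abs_of_nonpos (by linarith [hzz.1, hzz.2])]; linarith [hzz.1, hzz.2]
    · rw [h]
    · have h' : (b : ℝ) + 1 ≤ a := by exact_mod_cast h
      have h'' : ((b : ℝ) + 1) * N ≤ a * N := mul_le_mul_of_nonneg_right h' hN0.le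
      rw [hz k hk, hz k hk]
      · rw [abs_of_nonpos (by linarith [hzz.1, hzz.2])]; linarith [hzz.1, hzz.2]
      · rw [abs_of_nonneg (by linarith [hzz.1, hzz.2])]; linarith [hzz.1, hzz.2]
  refine ⟨fun k z => g k (z - N * ⌊z / N + 1 / 2⌋), fun k hk x => ?_, fun k hk x => ?_,
    fun k x => ⟨_, rfl⟩, fun k => ?_⟩
  · have h1 := (hg k hk (x - N * ⌊x / N + 1 / 2⌋)).comp_sub_const x ((N : ℝ) * ⌊x / N + 1 / 2⌋)
    exact h1.congr_of_eventuallyEq (hloc k hk.le x)
  · show g k (x + N - N * ⌊(x + N) / N + 1 / 2⌋) = g k (x - N * ⌊x / N + 1 / 2⌋)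
    have e : (x + N) / N + 1 / 2 = x / N + 1 / 2 + ((1 : ℤ) : ℝ) := by
      field_simp; push_cast; ring
    rw [e, Int.floor_add_intCast]
    congr 1
    push_cast; ring
  · show g k (0 - N * ⌊(0 : ℝ) / N + 1 / 2⌋) = g k 0
    have e : ⌊(0 : ℝ) / N + 1 / 2⌋ = 0 := by
      rw [zero_div, zero_add, Int.floor_eq_zero_iff]
      norm_num
    rw [e]; simp

/-- **the comparison lemma on a window** -/
theorem window {r : ℕ} (hr : 4 ≤ r) (hre : Even r) {ε B : ℝ} (hε : 0 < ε) (hε1 : ε ≤ 1) (hB : 0 ≤ B) :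
    ∃ N : ℕ, 0 < N ∧ ∀ (F : ℕ → ℝ → ℝ) (p m M : ℝ), m < 0 → 0 < M →
      (∀ k : ℤ, -pb r (p + k) = m) → (∀ k : ℤ, -pb r (p + 1 / 2 + k) = M) →
      (∀ k < r, ∀ x : ℝ, |x| < (N : ℝ) / 2 → HasDerivAt (F k) (F (k + 1) x) x) →
      (∀ k < r, ∀ x : ℝ, |x| < (N : ℝ) / 2 → |F k x| ≤ B) →
      (∀ x : ℝ, |x| < (N : ℝ) / 2 → -(1 - ε) ≤ F r x) →
      (∀ x : ℝ, |x| < (N : ℝ) / 2 → m < F 0 x ∧ F 0 x < M) →
      (∃ y, F 1 0 ≤ -pb (r - 1) y) ∧ ∃ y, -pb (r - 1) y ≤ F 1 0 := by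
  obtain ⟨W, C, hC, hW, hWz, hW01, hW0, hW1, hWC⟩ := cut r
  obtain ⟨N, hN⟩ := exists_nat_gt (2 ^ r * (B * C) / ε)
  have hN0 : (0 : ℝ) < N := lt_of_le_of_lt (by positivity) hN
  have hNn : 0 < N := by exact_mod_cast hN0
  have hN1 : (1 : ℝ) ≤ N := by exact_mod_cast hNn
  refine ⟨N, hNn, fun F p m M hm0 hM0 hp hq hF hFB hlow hrange => ?_⟩
  -- the scaled cut-off
  set w : ℕ → ℝ → ℝ := fun k y => W k (y / N) / (N : ℝ) ^ k with hwdef
  have hw : ∀ k x, HasDerivAt (w k) (w (k + 1) x) x := by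
    intro k x
    have h1 : HasDerivAt (fun y : ℝ => W k (y / N)) (W (k + 1) (x / N) * (1 / N)) x :=
      (hW k (x / N)).comp x ((hasDerivAt_id x).div_const (N : ℝ))
    have h2 := h1.div_const ((N : ℝ) ^ k)
    have e : w (k + 1) x = W (k + 1) (x / N) * (1 / N) / (N : ℝ) ^ k := by
      show W (k + 1) (x / N) / (N : ℝ) ^ (k + 1) = _
      rw [pow_succ]; field_simp
    rw [e]; exact h2
  have hwz : ∀ k (x : ℝ), (N : ℝ) / 4 < |x| → w k x = 0 := by
    intro k x hx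
    show W k (x / N) / (N : ℝ) ^ k = 0
    rw [hWz k (x / N), zero_div]
    rw [abs_div, abs_of_pos hN0, lt_div_iff₀ hN0]
    linarith
  have hw01 : ∀ x, 0 ≤ w 0 x ∧ w 0 x ≤ 1 := by
    intro x
    show 0 ≤ W 0 (x / N) / (N : ℝ) ^ 0 ∧ W 0 (x / N) / (N : ℝ) ^ 0 ≤ 1
    rw [pow_zero, div_one]
    exact hW01 _
  have hw0 : w 0 0 = 1 := by
    show W 0 (0 / N) / (N : ℝ) ^ 0 = 1
    rw [zero_div, hW0, pow_zero, div_one]
  have hw1 : w 1 0 = 0 := by
    show W 1 (0 / N) / (N : ℝ) ^ 1 = 0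
    rw [zero_div, hW1, zero_div]
  have hwC : ∀ k, 1 ≤ k → k ≤ r → ∀ x, |w k x| ≤ C / N := by
    intro k h1 h2 x
    show |W k (x / N) / (N : ℝ) ^ k| ≤ C / N
    rw [abs_div, abs_of_pos (pow_pos hN0 k)]
    have h3 : (N : ℝ) ≤ (N : ℝ) ^ k := le_self_pow₀ hN1 (by omega)
    exact div_le_div₀ hC (hWC k h2 _) hN0 h3
  -- the product
  set g : ℕ → ℝ → ℝ := fun k x => ∑ ij ∈ Finset.HasAntidiagonal.antidiagonal k, (k.choose ij.1 : ℝ) * (F ij.1 x * w ij.2 x) with hgdef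
  have hgz : ∀ k (x : ℝ), (N : ℝ) / 4 < |x| → g k x = 0 := by
    intro k x hx
    refine Finset.sum_eq_zero fun ij _ => ?_
    rw [hwz _ _ hx]; ring
  have hg : ∀ k < r, ∀ x, HasDerivAt (g k) (g (k + 1) x) x := by
    intro k hk x
    by_cases hx : |x| < N / 2
    · have h1 : HasDerivAt (g k) (∑ ij ∈ Finset.HasAntidiagonal.antidiagonal k, (k.choose ij.1 : ℝ) *
          (F (ij.1 + 1) x * w ij.2 x + F ij.1 x * w (ij.2 + 1) x)) x := by
        refine HasDerivAt.fun_sum fun ij hij => ?_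
        have hle : ij.1 ≤ k := by
          have := Finset.HasAntidiagonal.mem_antidiagonal.1 hij; omega
        exact ((hF ij.1 (by omega) x hx).mul (hw ij.2 x)).const_mul _
      have e : g (k + 1) x = ∑ ij ∈ Finset.HasAntidiagonal.antidiagonal k, (k.choose ij.1 : ℝ) *
          (F (ij.1 + 1) x * w ij.2 x + F ij.1 x * w (ij.2 + 1) x) := by
        show (∑ ij ∈ Finset.HasAntidiagonal.antidiagonal (k + 1), ((k + 1).choose ij.1 : ℝ) * (F ij.1 x * w ij.2 x)) = _
        rw [Finset.sum_antidiagonal_choose_succ_mul (fun i j => F i x * w j x) k,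
          ← Finset.sum_add_distrib]
        refine Finset.sum_congr rfl fun ij hij => ?_
        rw [Nat.choose_symm_of_eq_add (Finset.HasAntidiagonal.mem_antidiagonal.1 hij).symm]
        ring
      rw [e]; exact h1
    · push Not at hx
      have hx4 : (N : ℝ) / 4 < |x| := by linarith
      rw [hgz _ _ hx4]
      have h2 : ∀ᶠ z in 𝓝 x, (N : ℝ) / 4 < |z| := (continuous_abs.tendsto x).eventually (lt_mem_nhds hx4)
      refine (hasDerivAt_const x (0 : ℝ)).congr_of_eventuallyEq ?_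
      filter_upwards [h2] with z hz using hgz _ _ hz
  have hg0 : ∀ x, g 0 x = F 0 x * w 0 x := by
    intro x
    show (∑ ij ∈ Finset.HasAntidiagonal.antidiagonal 0, ((0 : ℕ).choose ij.1 : ℝ) * (F ij.1 x * w ij.2 x)) = _
    simp
  have hgrange : ∀ x, m < g 0 x ∧ g 0 x < M := by
    intro x
    by_cases hx : |x| < N / 2
    · rw [hg0]
      obtain ⟨h1, h2⟩ := hrange x hx
      obtain ⟨h3, h4⟩ := hw01 x
      constructor
      · rcases le_total 0 (F 0 x) with h | h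
        · exact hm0.trans_le (mul_nonneg h h3)
        · have : F 0 x * 1 ≤ F 0 x * w 0 x := mul_le_mul_of_nonpos_left h4 h
          linarith
      · rcases le_total 0 (F 0 x) with h | h
        · have : F 0 x * w 0 x ≤ F 0 x * 1 := mul_le_mul_of_nonneg_left h4 h
          linarith
        · exact (mul_nonpos_of_nonpos_of_nonneg h h3).trans_lt hM0
    · push Not at hx
      rw [hgz 0 x (by linarith)]
      exact ⟨hm0, hM0⟩
  have hglow : ∀ x, -1 ≤ g r x := by
    intro x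
    by_cases hx : |x| < N / 2
    · have e : g r x = (∑ k ∈ Finset.range r, (r.choose k : ℝ) * (F k x * w (r - k) x)) + F r x * w 0 x := by
        show (∑ ij ∈ Finset.HasAntidiagonal.antidiagonal r, (r.choose ij.1 : ℝ) * (F ij.1 x * w ij.2 x)) = _
        rw [Finset.Nat.sum_antidiagonal_eq_sum_range_succ_mk, Finset.sum_range_succ]
        simp
      have h1 : ∀ k ∈ Finset.range r, -((r.choose k : ℝ) * (B * (C / N))) ≤ (r.choose k : ℝ) * (F k x * w (r - k) x) := by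
        intro k hk
        have hk' := Finset.mem_range.1 hk
        have h2 : |F k x * w (r - k) x| ≤ B * (C / N) := by
          rw [abs_mul]
          exact mul_le_mul (hFB k hk' x hx) (hwC (r - k) (by omega) (by omega) x) (abs_nonneg _) hB
        have h3 := (abs_le.1 h2).1
        have h4 : (0 : ℝ) ≤ (r.choose k : ℝ) := by positivity
        nlinarith
      have h2 := Finset.sum_le_sum h1
      have h3 : ∑ k ∈ Finset.range r, (r.choose k : ℝ) ≤ 2 ^ r := by
        have h4 := Nat.sum_range_choose r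
        rw [Finset.sum_range_succ] at h4
        have h5 : (∑ k ∈ Finset.range r, r.choose k) ≤ 2 ^ r := by omega
        exact_mod_cast h5
      rw [Finset.sum_neg_distrib, ← Finset.sum_mul] at h2
      have h6 : (∑ k ∈ Finset.range r, (r.choose k : ℝ)) * (B * (C / N)) ≤ ε := by
        calc (∑ k ∈ Finset.range r, (r.choose k : ℝ)) * (B * (C / N)) ≤ 2 ^ r * (B * (C / N)) :=
              mul_le_mul_of_nonneg_right h3 (by positivity)
          _ = 2 ^ r * (B * C) / N := by ring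
          _ ≤ ε := by
              rw [div_lt_iff₀ hε] at hN
              rw [div_le_iff₀ hN0]
              linarith
      have h7 : -(1 - ε) ≤ F r x * w 0 x := by
        obtain ⟨h8, h9⟩ := hw01 x
        have h10 := hlow x hx
        rcases le_total 0 (F r x) with h | h
        · have := mul_nonneg h h8
          linarith
        · have : F r x * 1 ≤ F r x * w 0 x := mul_le_mul_of_nonpos_left h9 h
          linarith
      rw [e]
      linarith
    · push Not at hx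
      rw [hgz r x (by linarith)]
      norm_num
  have hg1 : g 1 0 = F 1 0 := by
    show (∑ ij ∈ Finset.HasAntidiagonal.antidiagonal 1, ((1 : ℕ).choose ij.1 : ℝ) * (F ij.1 0 * w ij.2 0)) = F 1 0
    rw [Finset.Nat.sum_antidiagonal_eq_sum_range_succ_mk, Finset.sum_range_succ, Finset.sum_range_one]
    simp [hw0, hw1]
  obtain ⟨G, h1, h2, h3, h4⟩ := periodise hNn hg (fun k _ x hx => hgz k x (by linarith))
  have h5 := compare hr hre hNn h1 h2 (fun x => by
    obtain ⟨y, hy⟩ := h3 r x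
    rw [hy]; exact hglow y) p m M hp hq (fun x => by
    obtain ⟨y, hy⟩ := h3 0 x
    rw [hy]; exact (hgrange y).1) (fun x => by
    obtain ⟨y, hy⟩ := h3 0 x
    rw [hy]; exact (hgrange y).2) 0
  rw [h4, hg1] at h5
  exact h5

end Pool.Agent.Q31.SN
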